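import Pool.Agent.P.MP_8eee4e_co.Ex.Iface

set_option autoImplicit false

section
/-! Step IMP. -/


open MeasureTheory Set

namespace Pool.Agent.P.MP_8eee4e_co.Ex

namespace IMPx

lemma first {n K : ℕ} {τ : ℝ} (D : Dat n K τ) (T : Finset (Fin n)) :
    volume {y | ∃ i ∈ T, D.lo i ≤ |y - D.q i| ∧ |y - D.q i| < D.hi i} ≠ ⊤ ∧
    volume.real {y | ∃ i ∈ T, D.lo i ≤ |y - D.q i| ∧ |y - D.q i| < D.hi i} ≤
      4 * ∑ i ∈ T, D.t i := by
  have h1 : {y | ∃ i ∈ T, D.lo i ≤ |y - D.q i| ∧ |y - D.q i| < D.hi i} ⊆ ⋃ i ∈ T,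
      (Icc (D.q i + D.lo i) (D.q i + D.hi i) ∪ Icc (D.q i - D.hi i) (D.q i - D.lo i)) := by
    rintro y ⟨i, hi, a, b⟩
    refine mem_biUnion hi ?_
    rw [abs_lt] at b
    rcases le_abs.1 a with c | c
    · exact .inl ⟨by linarith, by linarith [b.2]⟩
    · exact .inr ⟨by linarith [b.1], by linarith⟩
  have h2 := (measure_biUnion_lt_top (μ := volume) T.finite_toSet fun i _ => measure_union_lt_top
    (s := Icc (D.q i + D.lo i) (D.q i + D.hi i)) (t := Icc (D.q i - D.hi i) (D.q i - D.lo i))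
    measure_Icc_lt_top measure_Icc_lt_top).ne
  refine ⟨measure_ne_top_of_subset h1 h2, (measureReal_mono h1 h2).trans
    ((measureReal_biUnion_finset_le _ _).trans ?_)⟩
  rw [Finset.mul_sum]
  refine Finset.sum_le_sum fun i _ => (measureReal_union_le _ _).trans ?_
  have := D.lo_le_hi i
  have := D.hi_lo i
  rw [Real.volume_real_Icc_of_le (by linarith), Real.volume_real_Icc_of_le (by linarith)]
  linarith

end IMPx

theorem p_IMP : T_IMP := by
  classical
  intro n K τ D
  refine ⟨IMPx.first D, fun u L hL => ?_⟩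
  obtain ⟨h1, h2⟩ := IMPx.first D
    (Finset.univ.filter fun i => u - 1 ≤ D.q i ∧ D.q i ≤ u - 1 + (L + 2))
  have h3 := D.H.tilt (u - 1) (L + 2)
    (Finset.univ.filter fun i => u - 1 ≤ D.q i ∧ D.q i ≤ u - 1 + (L + 2)) (by linarith)
    fun i hi => (Finset.mem_filter.1 hi).2
  refine (measureReal_mono ?_ h1).trans (h2.trans (by linarith))
  rintro y ⟨⟨i, a, b⟩, c, e⟩
  have := abs_lt.1 b
  have := D.hi_le i
  exact ⟨i, Finset.mem_filter.2 ⟨Finset.mem_univ _, by linarith, by linarith⟩, a, b⟩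

end Pool.Agent.P.MP_8eee4e_co.Ex

end

section
/-! Integrals of the uncovered length and two Markov inequalities. -/


open MeasureTheory Set

namespace Pool.Agent.P.MP_8eee4e_co.Ex

theorem p_MK : T_MK := by
  intro n K τ D
  have K0 : (0 : ℝ) ≤ K := Nat.cast_nonneg K
  have h1 : ∀ i, IntegrableOn (D.f i) (Icc 0 K) := fun i => (D.H.intg i).integrableOn
  have h2 : ∀ i, ∫ y in Icc (0 : ℝ) K, D.f i y = D.e i := fun i => by
    rw [← D.H.total i]
    refine setIntegral_eq_integral_of_forall_compl_eq_zero fun y hy => D.H.zero i y ?_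
    have := D.H.low i
    have := D.H.high i
    rw [mem_Icc, not_and_or, not_le, not_le] at hy
    rcases hy with h | h
    · exact le_abs.2 (.inr (by linarith))
    · exact le_abs.2 (.inl (by linarith))
  have h3 : IntegrableOn (fun y => ∑ i, D.f i y * D.b i) (Icc 0 K) :=
    integrable_finsetSum _ fun i _ => (h1 i).mul_const _
  have h4 : IntegrableOn D.w (Icc 0 K) := (integrable_const _).sub h3
  have h5 : ∫ y in Icc (0 : ℝ) K, D.w y = D.W := by
    unfold Dat.w Dat.W
    rw [integral_sub (integrable_const _) h3, integral_finsetSum _ fun i _ => (h1 i).mul_const _,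
      setIntegral_const, Real.volume_real_Icc_of_le K0, smul_eq_mul, sub_zero, sq]
    simp only [integral_mul_const, h2, ← D.be, mul_comm (D.b _)]
  refine ⟨h4, h5, integrable_finsetSum _ fun i _ => h1 i, ?_, fun Z m hZ hs hm hv => ?_, ?_⟩
  · unfold Dat.M
    rw [integral_finsetSum _ fun i _ => h1 i]
    simp only [h2]
  · have z0 : 0 < volume.real Z := hm.trans_le hv
    obtain ⟨y, hy, h6⟩ := exists_le_setAverage (μ := volume) (fun e => by simp [Measure.real, e] at z0)
      (Dat.ne_top_of_subset hs) (h4.mono_set hs)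
    rw [setAverage_eq, smul_eq_mul, le_inv_mul_iff₀ z0] at h6
    refine ⟨y, hy, (mul_le_mul_of_nonneg_right hv (D.w_nonneg y)).trans (h6.trans ?_)⟩
    rw [← h5]
    exact setIntegral_mono_set h4 (.of_forall D.w_nonneg) hs.eventuallyLE
  · have h6 := mul_meas_ge_le_integral_of_nonneg (.of_forall D.w_nonneg) h4 (1 / 2)
    rw [h5, measureReal_restrict_apply (measurableSet_le measurable_const D.measurable_w),
      inter_comm] at h6
    have e : D.Big = Icc (0 : ℝ) K ∩ {y | 1 / 2 ≤ D.w y} := rfl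
    rw [e]
    linarith

end Pool.Agent.P.MP_8eee4e_co.Ex

end

section
/-! Integration of a pointwise inequality over the heights. -/


open MeasureTheory Set

namespace Pool.Agent.P.MP_8eee4e_co.Ex

namespace INTx

lemma int_ind {A s : Set ℝ} (hA : MeasurableSet A) (hs : volume s ≠ ⊤) (c : ℝ) :
    IntegrableOn (A.indicator fun _ => c) s :=
  (integrableOn_const hs).indicator hA

lemma ind_eq {A s : Set ℝ} (hA : MeasurableSet A) (c : ℝ) :
    ∫ y in s, A.indicator (fun _ => c) y = c * volume.real (s ∩ A) := by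
  rw [setIntegral_indicator hA, setIntegral_const, smul_eq_mul, mul_comm]

end INTx

theorem p_INT (hIMP : T_IMP) (hMK : T_MK) : T_INT := by
  intro n K τ D α β c κ Z g hZ hZG hg h1 h2 h3
  obtain ⟨w1, w2, m1, m2, -⟩ := hMK n K τ D
  set A : Fin n → Set ℝ := fun i => D.Imp ∩ Icc (D.q i - 1) (D.q i - 1 + 2)
  have hA : ∀ i, MeasurableSet (A i) := fun i => D.measurableSet_Imp.inter measurableSet_Icc
  have hK : volume (Icc (0 : ℝ) K) ≠ ⊤ := measure_Icc_lt_top.ne
  have i1 := INTx.int_ind hZ hK c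
  have i2 := fun i => INTx.int_ind (hA i) hK (g i)
  have i3 := integrable_finsetSum Finset.univ fun i _ => i2 i
  have i4 : IntegrableOn (fun _ : ℝ => κ) (Icc (0 : ℝ) K) := integrableOn_const hK
  have key := setIntegral_mono_on (f := fun y => α * (κ - D.M y))
    (g := fun y => β * D.w y + Z.indicator (fun _ => c) y + ∑ i, (A i).indicator (fun _ => g i) y)
    ((i4.sub m1).const_mul α) (((w1.const_mul β).add i1).add i3) measurableSet_Icc fun y hy => by
      have s0 : 0 ≤ ∑ i, (A i).indicator (fun _ => g i) y :=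
        Finset.sum_nonneg fun i _ => indicator_nonneg (fun _ _ => hg i) y
      by_cases e : y ∈ D.Imp
      · rw [indicator_of_notMem fun k => (hZG k).2 e, add_zero]
        refine (h3 y e).trans (add_le_add_right (Finset.sum_le_sum fun i _ => ?_) _)
        by_cases k : y ∈ A i
        · rw [indicator_of_mem k]
          exact mul_le_of_le_one_left (hg i) (D.H.le_one i y)
        · rw [indicator_of_notMem k, D.H.zero i y, zero_mul]
          refine (D.hi_le i).trans (not_lt.1 fun l => k ⟨e, ?_, ?_⟩) <;>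
            linarith [(abs_lt.1 l).1, (abs_lt.1 l).2]
      · rw [D.M_good ⟨hy, e⟩]
        by_cases k : y ∈ Z
        · rw [indicator_of_mem k]
          linarith [h1 y k]
        · rw [indicator_of_notMem k]
          linarith [h2 y ⟨hy, e⟩ k]
  have i5 : IntegrableOn (fun y => β * D.w y + Z.indicator (fun _ => c) y) (Icc (0 : ℝ) K) :=
    (w1.const_mul β).add i1
  rw [integral_const_mul, integral_sub i4 m1, m2, integral_add i5 i3,
    integral_add (w1.const_mul β) i1, integral_const_mul, w2, integral_finsetSum _ fun i _ => i2 i,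
    INTx.ind_eq hZ, inter_eq_right.2 (hZG.trans D.Good_subset), setIntegral_const,
    Real.volume_real_Icc_of_le K.cast_nonneg, sub_zero, smul_eq_mul, mul_comm _ κ] at key
  refine key.trans (add_le_add_right ?_ _)
  rw [Finset.mul_sum]
  refine Finset.sum_le_sum fun i _ => ?_
  rw [INTx.ind_eq (hA i), mul_comm]
  refine mul_le_mul_of_nonneg_right ((measureReal_mono inter_subset_right
    (Dat.ne_top_of_subset inter_subset_right)).trans ?_) (hg i)
  linarith [(hIMP n K τ D).2 (D.q i - 1) 2 zero_le_two]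

end Pool.Agent.P.MP_8eee4e_co.Ex

end

section
/-! A priori bounds for the deviation of the chords from the typical side. -/


open MeasureTheory Set

namespace Pool.Agent.P.MP_8eee4e_co.Ex

namespace B0x

lemma key {n K : ℕ} {τ : ℝ} {D : Dat n K τ} {σ C γ : ℝ} (h : Hyp D σ C γ) (T : Finset (Fin n))
    {c : ℝ} (hc : 0 ≤ c) (hT : T.card * (21 / 10) ≤ c ^ 2 * K) :
    ∑ i ∈ T, |D.b i - lam K σ| ≤ c + ∑ i ∈ T, D.t i ^ 2 := by
  have h1 := sq_sum_le_card_mul_sum_sq (s := T) (f := fun i => |D.a i - lam K σ|)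
  simp only [sq_abs] at h1
  have h2 : ∑ i ∈ T, (D.a i - lam K σ) ^ 2 ≤ ∑ i, (D.a i - lam K σ) ^ 2 :=
    Finset.sum_le_sum_of_subset_of_nonneg T.subset_univ fun _ _ _ => sq_nonneg _
  have h3 : (∑ i ∈ T, (D.a i - lam K σ) ^ 2) * K ≤ 21 / 10 :=
    (mul_le_mul_of_nonneg_right (by linarith [h.W0]) h.K_pos.le).trans h.dev_le
  have h4 : ∑ i ∈ T, |D.a i - lam K σ| ≤ c := by
    refine (pow_le_pow_iff_left₀ (by positivity) hc two_ne_zero).1
      (le_of_mul_le_mul_right ?_ h.K_pos)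
    refine (mul_le_mul_of_nonneg_right h1 h.K_pos.le).trans (le_trans ?_ hT)
    rw [mul_assoc]
    exact mul_le_mul_of_nonneg_left h3 (Nat.cast_nonneg _)
  refine le_trans ?_ (add_le_add h4 le_rfl)
  rw [← Finset.sum_add_distrib]
  refine Finset.sum_le_sum fun i _ => abs_le.2 ⟨?_, ?_⟩
  · linarith [neg_abs_le (D.a i - lam K σ), D.a_le_b i, sq_nonneg (D.t i)]
  · linarith [le_abs_self (D.a i - lam K σ), D.b_le i]

end B0x

theorem p_B0 : T_B0 := by
  intro n K τ D σ C γ h
  have hK := h.K_ge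
  have h6 := h.gK6
  refine ⟨(B0x.key h _ (c := γ * K / 2) (by linarith) ?_).trans ?_,
    fun y => (B0x.key h _ (c := 153 / 100) (by norm_num) ?_).trans ?_⟩
  · have h1 : (n : ℝ) ≤ 2 * K ^ 2 := by
      rw [h.card]
      rcases h.sgn with rfl | rfl <;> nlinarith
    rw [Finset.card_univ, Fintype.card_fin]
    nlinarith [mul_le_mul_of_nonneg_right h.gK (sq_nonneg (K : ℝ))]
  · linarith [h.sum_tsq Finset.univ, h.WK]
  · have h1 := Finset.card_nsmul_le_sum (D.row y) D.b (9 / 10) fun i _ =>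
      (D.a_lo i).trans (D.a_le_b i)
    rw [nsmul_eq_mul] at h1
    linarith [D.sum_row_le y]
  · linarith [h.sum_row_tsq y, h.W_le, h.g_le]

end Pool.Agent.P.MP_8eee4e_co.Ex

end

section
/-! Step B: a special row. -/


open MeasureTheory Set

namespace Pool.Agent.P.MP_8eee4e_co.Ex

namespace Bx

lemma int_cases {σ : ℝ} (h : σ = 1 ∨ σ = -1) (K c : ℕ) :
    (σ * (K + σ - c) < 1 → σ * (K + σ - c) ≤ 0) ∧
      (1 ≤ σ * (K + σ - c) → σ * (K + σ - c) < 2 → c = K) := by
  rcases h with rfl | rfl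
  · refine ⟨fun h => ?_, fun h1 h2 => ?_⟩
    · have : K < c := by exact_mod_cast (by linarith : (K : ℝ) < c)
      have : (K : ℝ) + 1 ≤ c := by exact_mod_cast this
      linarith
    · have a1 : c ≤ K := by exact_mod_cast (by linarith : (c : ℝ) ≤ K)
      have a2 : K < c + 1 := by exact_mod_cast (by linarith : (K : ℝ) < c + 1)
      omega
  · refine ⟨fun h => ?_, fun h1 h2 => ?_⟩
    · have : c < K := by exact_mod_cast (by linarith : (c : ℝ) < K)
      have : (c : ℝ) + 1 ≤ K := by exact_mod_cast this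
      linarith
    · have a1 : K ≤ c := by exact_mod_cast (by linarith : (K : ℝ) ≤ c)
      have a2 : c < K + 1 := by exact_mod_cast (by linarith : (c : ℝ) < K + 1)
      omega

end Bx

theorem p_B (hMK : T_MK) (hINT : T_INT) (hB0 : T_B0) : T_B := by
  intro n K τ D σ C γ h
  obtain ⟨b1, b2⟩ := hB0 n K τ D σ C γ h
  have hl := h.lam_ge
  have sg : ∀ x : ℝ, σ * x ≤ |x| := fun x =>
    (le_abs_self _).trans (by rw [abs_mul, h.abs_sgn, one_mul])
  have H3 : ∀ y, σ * lam K σ * (K + σ - D.M y) ≤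
      1 * D.w y + ∑ i, D.f i y * |D.b i - lam K σ| := by
    intro y
    rw [mul_assoc, D.ident h.kap_pos.ne' y, mul_add, Finset.mul_sum, one_mul]
    refine add_le_add ((sg _).trans (abs_of_nonneg (D.w_nonneg y)).le)
      (Finset.sum_le_sum fun i _ => (sg _).trans ?_)
    rw [abs_mul, abs_of_nonneg (D.H.nonneg i y)]
  have H1 : ∀ y ∈ D.A σ, σ * lam K σ * (K + σ - (D.row y).card) ≤ 1 * D.w y + 8 / 5 := by
    intro y hy
    have := H3 y
    rw [D.M_good hy.1] at this
    simp only [D.f_good hy.1, ite_mul, one_mul, zero_mul] at this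
    rw [Finset.sum_ite_mem, Finset.univ_inter] at this
    linarith [b2 y]
  have H := hINT n K τ D (σ * lam K σ) 1 (8 / 5) (K + σ) (D.A σ) (fun i => |D.b i - lam K σ|)
    (D.measurableSet_A σ) (D.A_subset σ) (fun i => abs_nonneg _) H1 (fun y hy hn => by
      have h1 := (Bx.int_cases h.sgn K (D.row y).card).1 (not_le.1 fun k => hn ⟨hy, k⟩)
      have h2 := D.w_nonneg y
      nlinarith) fun y _ => H3 y
  have d0 : 0 ≤ ∑ i, (D.a i - D.e i) := Finset.sum_nonneg fun i _ => sub_nonneg.2 (D.e_le i)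
  have d1 : ∑ i, (D.a i - D.e i) ≤ K * D.W / 10 ^ 9 :=
    (Finset.sum_le_sum fun i _ => by linarith [D.e_ge i]).trans (h.sum_tsq Finset.univ)
  have e : (K + σ) * K - ∑ i, D.e i = σ - D.ex σ + ∑ i, (D.a i - D.e i) := by
    rw [Finset.sum_sub_distrib]
    unfold Dat.ex Dat.S
    ring
  have w1 := h.WK
  have w2 := h.W_le
  have g1 := h.g_le
  have x1 := h.ex_le.trans h.inv_kap_le
  have x2 := h.big
  have t1 := (mul_le_mul_of_nonneg_left b1 h.tau0).trans h.tau_gK
  have hA : 1 / 10 ≤ volume.real (D.A σ) := by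
    have k : 99 / 100 ≤ σ * (σ - D.ex σ + ∑ i, (D.a i - D.e i)) := by
      rcases h.sgn with rfl | rfl <;> linarith
    rw [e, mul_right_comm] at H
    nlinarith
  obtain ⟨y, hy, hw⟩ := (hMK n K τ D).2.2.2.2.1 (D.A σ) (1 / 10) (D.measurableSet_A σ)
    ((D.A_subset σ).trans D.Good_subset) (by norm_num) hA
  refine ⟨y, hy.1, (Bx.int_cases h.sgn K _).2 hy.2 ?_, by linarith⟩
  have k := H1 y hy
  by_contra hn
  rw [mul_right_comm] at k
  nlinarith [not_lt.1 hn]

end Pool.Agent.P.MP_8eee4e_co.Ex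

end

section
/-! The structure of a near-optimal packing. -/


open MeasureTheory Set

namespace Pool.Agent.P.MP_8eee4e_co.Ex

namespace Cx

lemma exists_R {ι : Type} [DecidableEq ι] {K : ℕ} (hK : 0 < K) (A B : Finset ι) (hA : A.card = K)
    (hB : B.card = K) (h : (A ∩ B).card ≤ 1) (a : ι → ℝ) : ∃ (G : ι) (R : Finset ι),
    R.card + 1 = 2 * K ∧ R ⊆ A ∪ B ∧ ∑ i ∈ R, a i = ∑ i ∈ A, a i + ∑ i ∈ B, a i - a G := by
  have h1 := Finset.card_union_add_card_inter A B
  have h2 := Finset.sum_union_inter (s₁ := A) (s₂ := B) (f := a)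
  rcases Nat.le_one_iff_eq_zero_or_eq_one.1 h with e | e
  · obtain ⟨G, hG⟩ := Finset.card_pos.1 (hA ▸ hK)
    have hG' := Finset.mem_union_left B hG
    refine ⟨G, (A ∪ B).erase G, by rw [Finset.card_erase_add_one hG']; omega,
      Finset.erase_subset _ _, ?_⟩
    rw [Finset.card_eq_zero.1 e, Finset.sum_empty] at h2
    rw [Finset.sum_erase_eq_sub hG']
    linarith
  · obtain ⟨G, hG⟩ := Finset.card_eq_one.1 e
    rw [hG, Finset.sum_singleton] at h2
    exact ⟨G, A ∪ B, by omega, subset_rfl, by linarith⟩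

lemma row_bd {n K : ℕ} {τ : ℝ} {D : Dat n K τ} {σ C γ y : ℝ} (h : Hyp D σ C γ) (hy : y ∈ D.Good)
    (hw : D.w y ≤ 10 * D.W) :
    0 ≤ K - ∑ i ∈ D.row y, D.a i ∧ K - ∑ i ∈ D.row y, D.a i ≤ 11 * D.W := by
  have h1 := D.sum_row_good hy
  have h2 : ∑ i ∈ D.row y, D.a i ≤ ∑ i ∈ D.row y, D.b i := Finset.sum_le_sum fun i _ => D.a_le_b i
  have h3 : ∑ i ∈ D.row y, D.b i ≤ ∑ i ∈ D.row y, D.a i + ∑ i ∈ D.row y, D.t i ^ 2 := by
    rw [← Finset.sum_add_distrib]; exact Finset.sum_le_sum fun i _ => D.b_le i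
  have := h.sum_row_tsq y
  have := D.w_nonneg y
  have := h.W0
  constructor <;> linarith

lemma core {E W u z δ K : ℝ} (hW : 0 ≤ W) (hE : W + δ ^ 2 ≤ E) (hu : 0 < u) (hu1 : u ≤ 1 / 4400)
    (hK : 0 ≤ K) (huK : u * K ≤ 101 / 100) (hz : z ≤ 22 * W + δ + u) (h : E ≤ 2 * u * z) :
    E * K ^ 2 ≤ 10 := by
  have h1 := mul_le_mul_of_nonneg_left hz hu.le
  have h2 := mul_le_mul_of_nonneg_right hu1 hW
  have h3 : E ≤ 9 * u ^ 2 := by nlinarith [sq_nonneg (δ - 2 * u), sq_nonneg δ, sq_nonneg u]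
  have h4 := mul_le_mul_of_nonneg_right h3 (sq_nonneg K)
  have h5 := mul_self_le_mul_self (mul_nonneg hu.le hK) huK
  linarith

end Cx

open Cx in
theorem p_C : T_C := by
  classical
  intro n K τ D σ C γ h x0 y0 hy hcy hwy hx hcx hwx
  have hK := h.K_ge
  obtain ⟨G, R, hR, hRs, hRa⟩ := exists_R (by have := h.K_ge_nat; omega) _ _ hcy hcx
    (D.card_row_inter_col x0 y0) D.a
  obtain ⟨a1, a2⟩ := row_bd h hy hwy
  obtain ⟨b1, b2⟩ := row_bd h.swap hx hwx
  rw [Dat.swap_W, Dat.swap_a] at *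
  have hm : (K : ℝ) - 2 ≤ K + σ - 1 := by linarith [h.kap_ge]
  have hm0 : (0 : ℝ) < K + σ - 1 := by linarith
  obtain ⟨u, hu⟩ : ∃ u : ℝ, u = 1 / (K + σ - 1) := ⟨_, rfl⟩
  obtain ⟨v, hv⟩ : ∃ v : ℝ, v = 1 / (K + σ) := ⟨_, rfl⟩
  have u0 : 0 < u := hu ▸ one_div_pos.2 hm0
  have v0 : 0 < v := hv ▸ h.inv_kap_pos
  have v1 : v ≤ γ / 10 ^ 5 := hv ▸ h.inv_kap_le
  have um : u * (K + σ - 1) = 1 := by rw [hu]; field_simp
  have uv : u - v = u * v := by
    have := h.kap_pos
    rw [hu, hv]; field_simp; ring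
  have u1 : u ≤ 1 / 4400 := by
    rw [hu]; exact one_div_le_one_div_of_le (by norm_num) (by linarith)
  have u2 : u * K ≤ 101 / 100 := by linarith [mul_le_mul_of_nonneg_left hm u0.le]
  have es : sm K σ = 1 - σ * u := by
    rw [hu, sm]; field_simp; ring
  have el : lam K σ = 1 - σ * v := by
    have := h.kap_pos
    rw [hv, lam]; field_simp; ring
  obtain ⟨dev, hdev⟩ : ∃ dev : Fin n → ℝ,
    ∀ i, dev i = if i ∈ R then |D.a i - 1| else |D.a i - sm K σ| := ⟨_, fun _ => rfl⟩
  have d0 : ∀ i, 0 ≤ dev i := fun i => by rw [hdev]; split_ifs <;> exact abs_nonneg _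
  have dR : ∀ i, (-dev i ≤ D.a i - 1 ∧ D.a i - 1 ≤ dev i) ∧ i ∈ R ∨
      -dev i ≤ D.a i - 1 + σ * u ∧ D.a i - 1 + σ * u ≤ dev i := fun i => by
    by_cases e : i ∈ R
    · exact Or.inl ⟨abs_le.1 (by rw [hdev, if_pos e]), e⟩
    · exact Or.inr (abs_le.1 (by rw [hdev, if_neg e, es]; exact (congrArg _ (by ring)).le))
  have hE : D.W + ∑ i, dev i ^ 2 =
      2 * u * (σ * (2 * K - 1 - ∑ i ∈ R, D.a i)) - 2 * sm K σ * D.ex σ := by
    rw [← Finset.sum_add_sum_compl R, ← add_assoc,
      Finset.sum_congr rfl fun i (hi : i ∈ R) => by rw [hdev, if_pos hi, sq_abs],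
      Finset.sum_congr rfl fun i (hi : i ∈ Rᶜ) => by
        rw [hdev, if_neg (Finset.mem_compl.1 hi), sq_abs], h.ident R hR, hu]
    ring
  have hs : 0 ≤ 2 * sm K σ * D.ex σ :=
    mul_nonneg (mul_nonneg two_pos.le (div_nonneg (by linarith) hm0.le)) h.big.le
  have W0 := h.W0
  have hsum : ∀ T : Finset (Fin n), ∑ i ∈ T, dev i ^ 2 ≤ ∑ i, dev i ^ 2 := fun T =>
    Finset.sum_le_sum_of_subset_of_nonneg T.subset_univ fun i _ _ => sq_nonneg _
  have hEK : (D.W + ∑ i, dev i ^ 2) * (K : ℝ) ^ 2 ≤ 10 := by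
    refine core (δ := dev G) (z := σ * (2 * K - 1 - ∑ i ∈ R, D.a i)) W0
      (by simpa using hsum {G}) u0 u1 h.K_pos.le u2 ?_ (by linarith)
    rw [hRa]
    rcases dR G with ⟨⟨e1, e2⟩, -⟩ | ⟨e1, e2⟩ <;> rcases h.sgn with rfl | rfl <;> linarith
  have S0 : 0 ≤ ∑ i, dev i ^ 2 := Finset.sum_nonneg fun i _ => sq_nonneg _
  have hWK : D.W * (K : ℝ) ^ 2 ≤ 10 := by
    linarith [mul_nonneg S0 (sq_nonneg (K : ℝ))]
  have hb : ∀ i, D.a i ≤ D.b i ∧ D.b i ≤ D.a i + D.t i ^ 2 := fun i => ⟨D.a_le_b i, D.b_le i⟩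
  have uv0 := mul_pos u0 v0
  refine ⟨fun i => dev i + D.t i ^ 2 + (u - v), fun i => ?_, fun T hT => ?_, fun i => ?_,
    fun i => ?_, fun i h1 h2 => ?_, hcy, hcx, by linarith⟩
  · linarith [d0 i, sq_nonneg (D.t i)]
  · have hT' : (T.card : ℝ) ≤ K + 2 := by exact_mod_cast hT
    have g0 := h.g0
    have e1 : ∑ i ∈ T, dev i ≤ γ / 2 := by
      refine abs_le_of_sq_le_sq' ?_ (by linarith) |>.2
      refine (sq_sum_le_card_mul_sum_sq.trans (mul_le_mul (hT'.trans (show _ ≤ 2 * (K : ℝ) by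
        linarith)) (hsum T) (Finset.sum_nonneg fun i _ => sq_nonneg _) (by linarith))).trans
        (le_of_mul_le_mul_right ?_ h.K_pos)
      linarith [h.gK, mul_nonneg W0 (sq_nonneg (K : ℝ))]
    have e2 : K * D.W ≤ γ / 10 ^ 5 := le_of_mul_le_mul_right (by linarith [h.gK6]) h.K_pos
    have e3 := h.sum_tsq T
    have e4 := mul_le_mul_of_nonneg_right hT' uv0.le
    have e5 := mul_le_mul_of_nonneg_right u2 v0.le
    have e6 := mul_le_mul_of_nonneg_right u1 v0.le
    rw [Finset.sum_add_distrib, Finset.sum_add_distrib, Finset.sum_const, nsmul_eq_mul, uv]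
    linarith
  · obtain ⟨c1, c2⟩ := hb i
    rw [el]
    rcases dR i with ⟨⟨e1, e2⟩, -⟩ | ⟨e1, e2⟩ <;> rcases h.sgn with rfl | rfl <;> linarith
  · obtain ⟨c1, c2⟩ := hb i
    rcases dR i with ⟨⟨e1, e2⟩, -⟩ | ⟨e1, e2⟩ <;> rcases h.sgn with rfl | rfl <;> linarith
  · obtain ⟨c1, c2⟩ := hb i
    obtain ⟨e1, e2⟩ := (dR i).resolve_left fun e => (Finset.mem_union.1 (hRs e.2)).elim h1 h2
    rw [el]
    rcases h.sgn with rfl | rfl <;> linarith

end Pool.Agent.P.MP_8eee4e_co.Ex

end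

section
/-! Step A1: the number of full chords on a line. -/


open MeasureTheory Set

namespace Pool.Agent.P.MP_8eee4e_co.Ex

namespace A1x

variable {n K : ℕ} {τ : ℝ} {D : Dat n K τ} {σ γ x0 y0 : ℝ} {d : Fin n → ℝ}

lemma upper (s : Str D σ γ x0 y0 d) (y c : ℝ) (m : ℕ) (hm : m ≤ K + 2)
    (hc : ∀ i, c - d i ≤ D.b i) (h : m ≤ (D.row y).card) : m * c - γ ≤ K := by
  obtain ⟨T, hT, e⟩ := Finset.exists_subset_card_eq h
  have h1 : ∑ i ∈ T, (c - d i) ≤ ∑ i ∈ T, D.b i := Finset.sum_le_sum fun i _ => hc i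
  have h2 : ∑ i ∈ T, D.b i ≤ ∑ i ∈ D.row y, D.b i :=
    Finset.sum_le_sum_of_subset_of_nonneg hT fun i _ _ => (D.b_pos i).le
  have h3 := D.sum_row_le y
  have h4 := s.dsum T (e ▸ hm)
  rw [Finset.sum_sub_distrib, Finset.sum_const, e, nsmul_eq_mul] at h1
  linarith

lemma lower (s : Str D σ γ x0 y0 d) {y : ℝ} (hy : y ∈ D.Good) (c : ℝ)
    (hc : ∀ i, D.b i ≤ c + d i) (h : (D.row y).card ≤ K + 2) :
    K - D.w y ≤ (D.row y).card * c + γ := by
  have h1 : ∑ i ∈ D.row y, D.b i ≤ ∑ i ∈ D.row y, (c + d i) := Finset.sum_le_sum fun i _ => hc i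
  have h4 := s.dsum _ h
  rw [Finset.sum_add_distrib, Finset.sum_const, nsmul_eq_mul, D.sum_row_good hy] at h1
  linarith

end A1x

theorem p_A1 : T_A1 := by
  intro n K τ D σ C γ x0 y0 d h s
  have hg := h.g_le
  have hl1 := h.lam_ge
  have hl2 := h.lam_le
  have hm := h.lam_mul
  have hK := h.K_ge_nat
  rcases h.sgn with rfl | rfl
  · refine ⟨fun y => ?_, fun y hy hw => ?_⟩
    · have : (D.row y).card ≤ K + 1 := by
        by_contra hn
        have := A1x.upper s y (lam K 1) (K + 2) le_rfl (fun i => by have := s.d1 i; linarith)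
          (by omega)
        push_cast at this
        nlinarith
      have : ((D.row y).card : ℝ) ≤ K + 1 := by exact_mod_cast this
      linarith
    · have : K ≤ (D.row y).card := by
        by_contra hn
        have h1 := A1x.lower s hy 1 (fun i => by have := s.d2 i; linarith) (by omega)
        have h2 : ((D.row y).card : ℝ) + 1 ≤ K := by exact_mod_cast (by omega : _ + 1 ≤ K)
        linarith
      have : (K : ℝ) ≤ (D.row y).card := by exact_mod_cast this
      linarith
  · refine ⟨fun y => ?_, fun y hy hw => ?_⟩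
    · have : (D.row y).card ≤ K := by
        by_contra hn
        have := A1x.upper s y 1 (K + 1) (by omega) (fun i => by have := s.d2 i; linarith)
          (by omega)
        push_cast at this
        linarith
      have : ((D.row y).card : ℝ) ≤ K := by exact_mod_cast this
      linarith
    · have : K ≤ (D.row y).card + 1 := by
        by_contra hn
        have h1 := A1x.lower s hy (lam K (-1)) (fun i => by have := s.d1 i; linarith) (by omega)
        have h2 : ((D.row y).card : ℝ) + 2 ≤ K := by exact_mod_cast (by omega : _ + 2 ≤ K)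
        nlinarith
      have : (K : ℝ) ≤ (D.row y).card + 1 := by exact_mod_cast this
      linarith

end Pool.Agent.P.MP_8eee4e_co.Ex

end

section
/-! Step A2: the special heights are close together. -/


open MeasureTheory Set

namespace Pool.Agent.P.MP_8eee4e_co.Ex

namespace A2x

variable {n K : ℕ} {τ : ℝ} {D : Dat n K τ} {σ C γ x0 y0 : ℝ} {d : Fin n → ℝ}

lemma near (D : Dat n K τ) {y y' : ℝ} {i : Fin n} (h : i ∈ D.row y) (h' : i ∈ D.row y') :
    |y - y'| < 11 / 10 := by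
  have h1 := abs_lt.1 (D.mem_row.1 h)
  have h2 := abs_lt.1 (D.mem_row.1 h')
  have h3 := D.lo_le' i
  rw [abs_lt]
  constructor <;> linarith [h1.1, h1.2, h2.1, h2.2]

lemma core (h : Hyp D σ C γ) (s : Str D σ γ x0 y0 d) {y : ℝ} (hy : y ∈ D.Good)
    (hc : (D.row y).card = K) :
    (K : ℝ) - 1 - (D.row y ∩ D.row y0).card ≤ (K + σ) * (γ + σ * D.w y) := by
  classical
  set N := D.row y \ (D.row y0 ∪ D.col x0) with hN
  have hk := h.kap_pos
  have h1 : ∑ i ∈ D.row y, σ * (D.b i - 1) ≤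
      ∑ i ∈ D.row y, (d i - if i ∈ N then 1 / ((K : ℝ) + σ) else 0) := by
    refine Finset.sum_le_sum fun i _ => ?_
    split_ifs with hi
    · have h2 := (Finset.mem_sdiff.1 hi).2
      rw [Finset.mem_union, not_or] at h2
      have h3 := s.d3 i h2.1 h2.2
      have h4 := h.sgn_lam
      linarith
    · simpa using s.d2 i
  rw [← Finset.mul_sum, Finset.sum_sub_distrib, Finset.sum_sub_distrib, D.sum_row_good hy,
    Finset.sum_ite_mem, Finset.inter_eq_right.2 Finset.sdiff_subset, Finset.sum_const,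
    Finset.sum_const, hc, nsmul_eq_mul, nsmul_eq_mul] at h1
  have h2 := s.dsum (D.row y) (by omega)
  have h3 : (N.card : ℝ) ≤ (K + σ) * (γ + σ * D.w y) := by
    rw [← div_le_iff₀' hk, div_eq_mul_one_div]
    linarith
  have h4 : D.row y ⊆ N ∪ ((D.row y ∩ D.row y0) ∪ (D.row y ∩ D.col x0)) := fun i hi => by
    simp only [hN, Finset.mem_union, Finset.mem_sdiff, Finset.mem_inter]
    tauto
  have h5 := (Finset.card_le_card h4).trans ((Finset.card_union_le _ _).trans
    (Nat.add_le_add_left (Finset.card_union_le _ _) _))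
  have h6 := D.card_row_inter_col x0 y
  have h7 : K ≤ N.card + (D.row y ∩ D.row y0).card + 1 := by omega
  have h8 : (K : ℝ) ≤ N.card + (D.row y ∩ D.row y0).card + 1 := by exact_mod_cast h7
  linarith

end A2x

theorem p_A2 (hA1 : T_A1) : T_A2 := by
  intro n K τ D σ C γ x0 y0 d h s
  have hK := h.K_ge
  have hg := h.g_le
  have hg0 := h.g0
  refine ⟨fun y hy hc hw => ?_, fun hσ y hy y' hy' => ?_⟩
  · have h1 := A2x.core h s hy hc
    have h2 : σ * D.w y ≤ 1 / 2 := by
      have := D.w_nonneg y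
      rcases h.sgn with rfl | rfl <;> linarith
    have h3 : (K + σ) * (γ + σ * D.w y) ≤ (K + 1) * (6 / 10) :=
      (mul_le_mul_of_nonneg_left (by linarith) h.kap_pos.le).trans
        (mul_le_mul_of_nonneg_right h.kap_le (by norm_num))
    have h4 : (0 : ℝ) < (D.row y ∩ D.row y0).card := by linarith
    obtain ⟨i, hi⟩ := Finset.card_pos.1 (Nat.cast_pos.1 h4)
    exact A2x.near D (Finset.mem_inter.1 hi).1 (Finset.mem_inter.1 hi).2
  · have key : ∀ y ∈ D.A σ, (K : ℝ) < 2 * (D.row y ∩ D.row y0).card := by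
      intro y hy
      have h1 := (hA1 n K τ D σ C γ x0 y0 d h s).1 y
      have h2 := hy.2
      have hc : (D.row y).card = K := by
        have : ((D.row y).card : ℝ) = K := by
          subst hσ
          linarith
        exact_mod_cast this
      have h3 := A2x.core h s hy.1 hc
      have h4 : (K + σ) * (γ + σ * D.w y) ≤ (K + 1) * (1 / 10) := by
        refine (mul_le_mul_of_nonneg_left ?_ h.kap_pos.le).trans
          (mul_le_mul_of_nonneg_right h.kap_le (by norm_num))
        have := D.w_nonneg y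
        subst hσ
        linarith
      linarith
    have h1 := key y hy
    have h2 := key y' hy'
    have h3 : (K : ℝ) < (D.row y ∩ D.row y0).card + (D.row y' ∩ D.row y0).card := by linarith
    obtain ⟨i, hi⟩ := Finset.inter_nonempty_of_card_lt_card_add_card
      (Finset.inter_subset_right : D.row y ∩ D.row y0 ⊆ D.row y0)
      (Finset.inter_subset_right : D.row y' ∩ D.row y0 ⊆ D.row y0)
      (by rw [s.cy]; exact_mod_cast h3)
    exact A2x.near D (Finset.mem_inter.1 (Finset.mem_inter.1 hi).1).1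
      (Finset.mem_inter.1 (Finset.mem_inter.1 hi).2).1

end Pool.Agent.P.MP_8eee4e_co.Ex

end
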