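import Pool.Agent.P.MP_8eee4e_co.Ex.Iface

set_option autoImplicit false

section
/-! Step A3. -/


open MeasureTheory Set

namespace Pool.Agent.P.MP_8eee4e_co.Ex

namespace A3x

variable {n K : ℕ} {τ : ℝ} {D : Dat n K τ} {σ C γ x0 y0 : ℝ} {d : Fin n → ℝ}

lemma sum_near (h : Hyp D σ C γ) (s : Str D σ γ x0 y0 d) {x : ℝ} (hx : 2 < |x - x0|)
    {T : Finset (Fin n)} (hT : T ⊆ D.col x) (hc : T.card ≤ K + 2) :
    |∑ i ∈ T, D.b i - T.card * lam K σ| ≤ 2 * γ := by
  have h1 : ∀ i ∈ T, |D.b i - lam K σ| ≤ d i + if i ∈ D.row y0 then 1 / ((K : ℝ) + σ) else 0 := by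
    intro i hi
    have h2 : i ∉ D.col x0 := fun k => by
      have a := abs_lt.1 (D.mem_col.1 (hT hi))
      have b := abs_lt.1 (D.mem_col.1 k)
      have := D.lo_le' i
      rcases lt_abs.1 hx with c | c <;> linarith [a.1, a.2, b.1, b.2]
    have a1 := s.d1 i
    have a2 := s.d2 i
    have a3 := h.sgn_lam
    have a4 := h.inv_kap_pos
    rw [abs_le]
    split_ifs with k
    · generalize 1 / ((K : ℝ) + σ) = κ at *
      generalize lam K σ = l at *
      rcases h.sgn with rfl | rfl <;> constructor <;> linarith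
    · have a5 := s.d3 i k h2
      generalize lam K σ = l at *
      rcases h.sgn with rfl | rfl <;> constructor <;> linarith
  have h2 : ∑ i ∈ T, (if i ∈ D.row y0 then 1 / ((K : ℝ) + σ) else 0) ≤ 1 / ((K : ℝ) + σ) := by
    rw [Finset.sum_ite_mem, Finset.sum_const, nsmul_eq_mul]
    refine mul_le_of_le_one_left h.inv_kap_pos.le (Nat.cast_le_one.2 ?_)
    refine (Finset.card_le_card ?_).trans (D.card_row_inter_col x y0)
    rw [Finset.inter_comm]
    exact Finset.inter_subset_inter_left hT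
  have h3 := (Finset.abs_sum_le_sum_abs _ T).trans (Finset.sum_le_sum h1)
  rw [Finset.sum_sub_distrib, Finset.sum_const, nsmul_eq_mul, Finset.sum_add_distrib] at h3
  have := s.dsum T hc
  have := h.inv_kap_le
  have := h.g0
  linarith

end A3x

theorem p_A3 (hIMP : T_IMP) (hMK : T_MK) (hA1 : T_A1) : T_A3 := by
  intro n K τ D σ C γ x0 y0 d h s G y hG h1 h2
  have t1 := h.tau_le
  have t2 := h.g_le
  have t3 := h.W_le
  have t4 := h.g0
  have hZ : Icc (D.p G - 2 / 5) (D.p G - 2 / 5 + 4 / 5) ⊆ Icc 0 (K : ℝ) := by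
    have := D.V.low G
    have := D.V.high G
    have := D.hi_ge G
    exact Icc_subset_Icc (by linarith) (by linarith)
  obtain ⟨x, ⟨x1, x2⟩, x3⟩ := (hMK n K τ D.swap).2.2.2.2.1
    (Icc (D.p G - 2 / 5) (D.p G - 2 / 5 + 4 / 5) \ D.swap.Imp) (1 / 2)
    (measurableSet_Icc.diff D.swap.measurableSet_Imp) (sdiff_subset.trans hZ) (by norm_num) (by
      have a := (hIMP n K τ D.swap).2 (D.p G - 2 / 5) (4 / 5) (by norm_num)
      have b := measureReal_inter_add_sdiff (μ := volume)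
        (s := Icc (D.p G - 2 / 5) (D.p G - 2 / 5 + 4 / 5)) D.swap.measurableSet_Imp
        measure_Icc_lt_top.ne
      rw [inter_comm, Real.volume_real_Icc_of_le (by linarith)] at b
      linarith)
  rw [Dat.swap_W] at x3
  have hc : G ∈ D.col x := D.mem_col.2 (by
    have := h.lo_ge G
    rw [abs_lt]
    constructor <;> linarith [x1.1, x1.2])
  have hx : 2 < |x - x0| := by
    rcases lt_abs.1 hG with c | c
    · exact lt_abs.2 (.inl (by linarith [x1.1]))
    · exact lt_abs.2 (.inr (by linarith [x1.2]))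
  have hw : ∑ i ∈ D.col x, D.b i = K - D.swap.w x := D.swap.sum_row_good ⟨hZ x1, x2⟩
  have hk : (D.col x).card ≤ K + 1 := by
    have a : ((D.col x).card : ℝ) ≤ K + (1 + σ) / 2 :=
      (hA1 n K τ D.swap σ C γ y0 x0 d h.swap s.swap).1 x
    have b := h.kap_le
    exact_mod_cast a.trans (show (K : ℝ) + (1 + σ) / 2 ≤ K + 1 by linarith)
  obtain ⟨B, b1, b2, l, b3, b4, b5⟩ := D.sV x G hc
  have b6 : ∑ i ∈ line D.lo D.p x \ B, D.b i + ∑ i ∈ B, D.b i = ∑ i ∈ D.col x, D.b i :=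
    Finset.sum_sdiff b1
  have b7 : insert G B ⊆ D.col x := Finset.insert_subset hc b1
  have c1 := D.lo_le G
  have c2 := D.le_hi G
  have c3 := D.hi_lo G
  have c4 := D.a_le_b G
  have c5 : D.b G ≤ D.a G + D.t G := (D.b_le G).trans (by
    have := D.t0 G
    have := h.t_small G
    nlinarith)
  have c6 := D.t_le G
  rw [abs_le] at b3
  rcases le_total y (D.q G) with e | e
  · have k := (Finset.card_le_card b1).trans hk
    have a := abs_le.1 (A3x.sum_near h s hx b1 (by omega))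
    rw [abs_of_nonpos (sub_nonpos.2 e)] at h1 h2
    exact ⟨B.card, k, abs_le.2 ⟨by linarith [a.1, b3.2], by linarith [a.2, b3.1]⟩⟩
  · have k := (Finset.card_le_card b7).trans hk
    have a := abs_le.1 (A3x.sum_near h s hx b7 (by omega))
    rw [Finset.sum_insert b2] at a
    rw [abs_of_nonneg (sub_nonneg.2 e)] at h1 h2
    exact ⟨(insert G B).card, k, abs_le.2 ⟨by linarith [a.1, b3.2], by linarith [a.2, b3.1]⟩⟩

end Pool.Agent.P.MP_8eee4e_co.Ex

end

section
/-! The improper heights close to an integer have small measure. -/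


open MeasureTheory Set

namespace Pool.Agent.P.MP_8eee4e_co.Ex

namespace A4x

lemma ends {n K : ℕ} {τ : ℝ} {D : Dat n K τ} {σ C γ : ℝ} (h : Hyp D σ C γ) {y : ℝ} {i : ℕ}
    {j : ℤ} (h1 : |y - i * lam K σ| ≤ 5 * γ) (h2 : |y - j| ≤ 8 * γ) :
    y ≤ 13 * γ * K + 5 * γ ∨ K - (13 * γ * K + 5 * γ) ≤ y := by
  have hk := h.kap_pos
  have hK := h.K_pos
  obtain ⟨r, r0, e1, e2⟩ : ∃ r : ℝ, 0 ≤ r ∧ i * lam K σ = K * r ∧ (i : ℝ) = K * r + σ * r :=
    ⟨i / (K + σ), by positivity, by unfold lam; ring, by field_simp⟩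
  rw [e1, abs_le] at h1
  rw [abs_le] at h2
  have hs : |σ * r| = r := by rw [abs_mul, h.abs_sgn, one_mul, abs_of_nonneg r0]
  have h3 : |((j - i : ℤ) : ℝ) + σ * r| ≤ 13 * γ := by
    push_cast
    rw [abs_le]
    constructor <;> linarith [h1.1, h1.2, h2.1, h2.2]
  rcases eq_or_ne (j - i : ℤ) 0 with z | z
  · rw [z, Int.cast_zero, zero_add, hs] at h3
    exact Or.inl (by nlinarith [h1.2])
  · have h4 : (1 : ℝ) ≤ |((j - i : ℤ) : ℝ)| := by exact_mod_cast Int.one_le_abs z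
    have h5 := abs_sub (((j - i : ℤ) : ℝ) + σ * r) (σ * r)
    rw [add_sub_cancel_right, hs] at h5
    exact Or.inr (by nlinarith [h1.1])

end A4x

open Classical in
theorem p_A4 (hIMP : T_IMP) (hA3 : T_A3) : T_A4 := by
  intro n K τ D σ C γ x0 y0 d h s
  obtain ⟨I1, I2⟩ := hIMP n K τ D
  set T := Finset.univ.filter fun i => |D.p i - x0| ≤ 3
  obtain ⟨J1, J2⟩ := I1 T
  have hT := D.V.tilt (x0 - 3) 6 T (by norm_num) fun i hi => by
    have := abs_le.1 (Finset.mem_filter.1 hi).2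
    constructor <;> linarith [this.1, this.2]
  set L := 13 * γ * K + 5 * γ with hL
  have L0 : 0 ≤ L := by have := h.g0; positivity
  have sub : D.ImpZ γ ⊆ {y | ∃ i ∈ T, D.lo i ≤ |y - D.q i| ∧ |y - D.q i| < D.hi i} ∪
      (D.Imp ∩ Icc 0 (0 + L) ∪ D.Imp ∩ Icc (K - L) (K - L + L)) := by
    rintro y ⟨⟨G, g1, g2⟩, hy, j, hj⟩
    rcases le_or_gt |D.p G - x0| 3 with c | c
    · exact Or.inl ⟨G, Finset.mem_filter.2 ⟨Finset.mem_univ _, c⟩, g1, g2⟩
    · obtain ⟨i, -, hi⟩ := hA3 n K τ D σ C γ x0 y0 d h s G y c g1 g2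
      rcases A4x.ends h hi hj with k | k
      · exact Or.inr (Or.inl ⟨⟨G, g1, g2⟩, hy.1, by linarith⟩)
      · exact Or.inr (Or.inr ⟨⟨G, g1, g2⟩, k, by linarith [hy.2]⟩)
  have m1 := measureReal_mono sub (measure_union_ne_top J1 (measure_union_ne_top
    (Dat.ne_top_of_subset inter_subset_right) (Dat.ne_top_of_subset inter_subset_right)))
  have m2 := m1.trans ((measureReal_union_le _ _).trans
    (add_le_add J2 ((measureReal_union_le _ _).trans (add_le_add (I2 0 L L0) (I2 _ L L0)))))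
  have k1 := h.tau_gK
  have k2 := h.tau_le_KW
  have k3 := mul_le_mul_of_nonneg_left h.g_le h.tau0
  have k4 := h.tau0
  rw [hL] at m2
  nlinarith

end Pool.Agent.P.MP_8eee4e_co.Ex

end

section
/-! Step A5. -/


open MeasureTheory Set

namespace Pool.Agent.P.MP_8eee4e_co.Ex

theorem p_A5 (hINT : T_INT) (hB0 : T_B0) (hA1 : T_A1) : T_A5 := by
  intro n K τ D σ C γ x0 y0 d h s
  have l1 := h.lam_ge
  have l0 : 0 ≤ lam K σ := by linarith
  have a1 := (hA1 n K τ D σ C γ x0 y0 d h s).1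
  have key := hINT n K τ D (-lam K σ) 0 (-σ * lam K σ) (K + σ) (D.A σ)
    (fun i => |D.b i - lam K σ|) (D.measurableSet_A σ) (D.A_subset σ) (fun i => abs_nonneg _)
    (fun y hy => by
      have : σ ≤ K + σ - (D.row y).card := by
        have h1 := hy.2
        have h2 := a1 y
        rcases h.sgn with rfl | rfl <;> linarith
      linarith [mul_le_mul_of_nonneg_left this l0])
    (fun y hy hn => by
      have : 0 ≤ K + σ - (D.row y).card := by
        have h1 : ¬ 1 ≤ σ * (K + σ - (D.row y).card) := fun e => hn ⟨hy, e⟩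
        have h2 := a1 y
        rcases h.sgn with rfl | rfl
        · linarith
        · have h3 : (D.row y).card < K := by
            have : ((D.row y).card : ℝ) < K := by linarith
            exact_mod_cast this
          have : ((D.row y).card : ℝ) + 1 ≤ K := by exact_mod_cast h3
          linarith
      linarith [mul_nonneg l0 this])
    (fun y _ => by
      have h1 := D.ident h.kap_pos.ne' y
      have h2 := D.w_nonneg y
      have h3 : ∑ i, -(D.f i y * (D.b i - lam K σ)) ≤ ∑ i, D.f i y * |D.b i - lam K σ| :=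
        Finset.sum_le_sum fun i _ => by
          rw [← mul_neg]
          exact mul_le_mul_of_nonneg_left (neg_le_abs _) (D.H.nonneg i y)
      rw [Finset.sum_neg_distrib] at h3
      linarith)
  have b1 : D.S - K * D.W / 10 ^ 9 ≤ ∑ i, D.e i := by
    have h1 : ∑ i, (D.a i - D.t i ^ 2) ≤ ∑ i, D.e i := Finset.sum_le_sum fun i _ => D.e_ge i
    rw [Finset.sum_sub_distrib] at h1
    have h2 := h.sum_tsq Finset.univ
    unfold Dat.S
    linarith
  have b2 := mul_le_mul_of_nonneg_left (hB0 n K τ D σ C γ h).1 h.tau0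
  have b3 := h.tau_gK
  have b4 := mul_le_mul_of_nonneg_left b1 l0
  have b5 : 0 ≤ K * D.W := mul_nonneg h.K_pos.le h.W0
  have b6 : lam K σ * (σ * (volume.real (D.A σ) - 1) + D.ex σ - K * D.W / 10 ^ 9) ≤
      K * D.W / 500 := by
    unfold Dat.ex
    linarith
  by_contra hn
  have b7 : 0 ≤ σ * (volume.real (D.A σ) - 1) + D.ex σ - K * D.W / 10 ^ 9 := by linarith
  linarith [mul_le_mul_of_nonneg_right l1 b7]

end Pool.Agent.P.MP_8eee4e_co.Ex

end

section
/-! Step CNT. -/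


namespace Pool.Agent.P.MP_8eee4e_co.Ex

open Finset

namespace CNTx

lemma one {n : ℕ} (Z : Finset ℝ) (r : ℝ → Finset (Fin n)) :
    ∑ i, ∑ y ∈ Z, (if i ∈ r y then (1 : ℝ) else 0) = ∑ y ∈ Z, ((r y).card : ℝ) := by
  rw [sum_comm]
  simp

lemma two {n : ℕ} (Z Z' : Finset ℝ) (r c : ℝ → Finset (Fin n)) (h : ∀ x y, (r y ∩ c x).card ≤ 1) :
    ∑ i, (∑ y ∈ Z, if i ∈ r y then (1 : ℝ) else 0) * (∑ x ∈ Z', if i ∈ c x then (1 : ℝ) else 0) ≤
      Z.card * Z'.card := by
  simp only [sum_mul_sum, ite_zero_mul_ite_zero, ← mem_inter, mul_one]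
  rw [sum_comm, ← nsmul_eq_mul]
  refine sum_le_card_nsmul _ _ _ fun y _ => ?_
  rw [one Z' fun x => r y ∩ c x, ← nsmul_one]
  exact sum_le_card_nsmul _ _ _ fun x _ => Nat.cast_le_one.2 (h x y)

end CNTx

theorem p_CNT : T_CNT := by
  rintro n K τ D σ C γ h ⟨Z, a1, a2, a3⟩ ⟨Z', b1, b2, b3⟩
  have h1 := CNTx.two Z Z' D.row D.swap.row D.card_row_inter_col
  have h2 := sum_nonneg (s := univ) fun i _ => mul_nonneg_of_nonpos_of_nonpos (a3 i) (b3 i)
  simp only [mul_mul_mul_comm σ _ σ, ← sq σ, h.sq, one_mul] at h2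
  simp only [sub_mul, mul_sub, mul_one, one_mul, sum_sub_distrib, CNTx.one, sum_const, card_univ,
    Fintype.card_fin, nsmul_eq_mul] at h2
  rw [a1, b1] at h1
  have h3 := h.card
  have h4 := h.sq
  linarith

end Pool.Agent.P.MP_8eee4e_co.Ex

end

section
/-! Interval duality: covers of a set by intervals against separated points. -/


open MeasureTheory Set

namespace Pool.Agent.P.MP_8eee4e_co.Ex

namespace COVx

/-- `i` contains `y` and reaches farthest to the right among the intervals containing `y`. -/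
def Good {ι : Type} (l r : ι → ℝ) (s : Finset ι) (i : ι) (y : ℝ) : Prop :=
  l i < y ∧ y < r i ∧ ∀ j ∈ s, l j < y → y < r j → r j ≤ r i

theorem exists_good {ι : Type} (l r : ι → ℝ) (s : Finset ι) {y : ℝ}
    (h : ∃ i ∈ s, l i < y ∧ y < r i) : ∃ i ∈ s, Good l r s i y := by
  classical
  obtain ⟨i, hi, hy⟩ := h
  obtain ⟨j, hj, hmax⟩ := Finset.exists_max_image (s.filter fun i => l i < y ∧ y < r i) r
    ⟨i, Finset.mem_filter.2 ⟨hi, hy⟩⟩
  obtain ⟨hjs, hj1, hj2⟩ := Finset.mem_filter.1 hj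
  exact ⟨j, hjs, hj1, hj2, fun k hk h1 h2 => hmax k (Finset.mem_filter.2 ⟨hk, h1, h2⟩)⟩

end COVx

open COVx in
theorem p_COV : T_COV := by
  classical
  intro ι l r s
  induction s using Finset.strongInduction with
  | H s ih =>
    intro P hP
    rcases P.eq_empty_or_nonempty with rfl | ⟨y0, hy0⟩
    · exact ⟨∅, ∅, Finset.empty_subset _, by simp, by simp, by simp, by simp⟩
    obtain ⟨i0, hi0, hg0⟩ := exists_good l r s (hP y0 hy0)
    obtain ⟨a, ha, hamin⟩ := Finset.exists_min_image (s.filter fun i => ∃ y ∈ P, Good l r s i y) r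
      ⟨i0, Finset.mem_filter.2 ⟨hi0, y0, hy0, hg0⟩⟩
    obtain ⟨has, ya, hya, hga⟩ := Finset.mem_filter.1 ha
    obtain ⟨b, hb, hbmin⟩ := Finset.exists_min_image
      (s.filter fun i => ∃ y ∈ P, y < r a ∧ Good l r s i y) l
      ⟨a, Finset.mem_filter.2 ⟨has, ya, hya, hga.2.1, hga⟩⟩
    obtain ⟨hbs, yb, hyb, -, hgb⟩ := Finset.mem_filter.1 hb
    have hab : r a ≤ r b := hamin b (Finset.mem_filter.2 ⟨hbs, yb, hyb, hgb⟩)
    have hss : s.filter (fun i => r a < r i) ⊂ s :=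
      Finset.filter_ssubset.2 ⟨a, has, lt_irrefl _⟩
    obtain ⟨T, Z, hT, hZ, hcard, hcov, huniq⟩ := ih _ hss (P ∩ Ici (r a)) (by
      rintro y ⟨hy, hy'⟩
      obtain ⟨i, hi, h1, h2⟩ := hP y hy
      exact ⟨i, Finset.mem_filter.2 ⟨hi, lt_of_le_of_lt hy' h2⟩, h1, h2⟩)
    have hnot : ya ∉ Z := fun h => absurd (hZ ya h).2 (not_le.2 hga.2.1)
    have hmix : ∀ i ∈ s, ∀ z ∈ Z, l i < ya → ya < r i → z < r i → False := by
      intro i hi z hz h1 h2 h3
      have h4 : r a ≤ z := (hZ z hz).2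
      linarith [hga.2.2 i hi h1 h2]
    refine ⟨insert b T, insert ya Z, ?_, ?_, ?_, ?_, ?_⟩
    · exact Finset.insert_subset hbs (hT.trans (Finset.filter_subset _ _))
    · intro y hy
      rcases Finset.mem_insert.1 hy with rfl | hy
      · exact hya
      · exact (hZ y hy).1
    · rw [Finset.card_insert_of_notMem hnot]
      exact (Finset.card_insert_le _ _).trans (Nat.succ_le_succ hcard)
    · intro y hy
      by_cases h : y < r a
      · obtain ⟨j, hj, hgj⟩ := exists_good l r s (hP y hy)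
        have h1 : l b ≤ l j := hbmin j (Finset.mem_filter.2 ⟨hj, y, hy, h, hgj⟩)
        exact ⟨b, Finset.mem_insert_self _ _, lt_of_le_of_lt h1 hgj.1, lt_of_lt_of_le h hab⟩
      · obtain ⟨i, hi, h1⟩ := hcov y ⟨hy, not_lt.1 h⟩
        exact ⟨i, Finset.mem_insert_of_mem hi, h1⟩
    · intro i hi y hy y' hy' h1 h2 h3 h4
      rcases Finset.mem_insert.1 hy with e | hz
      · rcases Finset.mem_insert.1 hy' with e' | hz'
        · rw [e, e']
        · exact (hmix i hi y' hz' (e ▸ h1) (e ▸ h2) h4).elim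
      · rcases Finset.mem_insert.1 hy' with e' | hz'
        · exact (hmix i hi y hz (e' ▸ h3) (e' ▸ h4) h2).elim
        · have h5 : r a ≤ y := (hZ y hz).2
          exact huniq i (Finset.mem_filter.2 ⟨hi, lt_of_le_of_lt h5 h2⟩) y hz y' hz' h1 h2 h3 h4

end Pool.Agent.P.MP_8eee4e_co.Ex

end

section
open MeasureTheory Set

namespace Pool.Agent.P.MP_8eee4e_co.Ex

theorem p_PRC : T_PRC := by
  classical
  intro ι l r s P
  induction s using Finset.strongInduction with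
  | H s ih =>
  intro h
  rcases s.eq_empty_or_nonempty with rfl | hne
  · exact ⟨∅, ∅, by simp⟩
  obtain ⟨a, ha, hmin⟩ := s.exists_min_image r hne
  obtain ⟨s1, hs1⟩ : ∃ s1 : Finset ι, ∀ j, j ∈ s1 ↔
      j ∈ s ∧ ∃ y ∈ P, l a < y ∧ y < r a ∧ l j < y ∧ y < r j :=
    ⟨s.filter _, fun j => Finset.mem_filter⟩
  have ha1 : a ∈ s1 := by
    obtain ⟨y, h1, h2, h3⟩ := h a ha
    exact (hs1 a).2 ⟨ha, y, h1, h2, h3, h2, h3⟩
  choose! y hy using fun j (hj : j ∈ s1) => ((hs1 j).1 hj).2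
  obtain ⟨b, hb, hmax⟩ := s1.exists_max_image y ⟨a, ha1⟩
  obtain ⟨T, Z, h1, h2, h3, h4, h5⟩ := ih (s \ s1)
    (Finset.sdiff_ssubset (fun j hj => ((hs1 j).1 hj).1) ⟨a, ha1⟩)
    fun i hi => h i (Finset.mem_sdiff.1 hi).1
  have hT : ∀ j ∈ T, ∀ y ∈ P, l a < y → y < r a → l j < y → y < r j → False :=
    fun j hj y k0 k1 k2 k3 k4 => (Finset.mem_sdiff.1 (h1 hj)).2
      ((hs1 j).2 ⟨(Finset.mem_sdiff.1 (h1 hj)).1, y, k0, k1, k2, k3, k4⟩)
  refine ⟨insert a T, insert (y b) Z, Finset.insert_subset ha (h1.trans Finset.sdiff_subset),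
    fun z hz => ?_, ?_, fun i hi => ?_, fun i hi j hj z k0 k1 k2 k3 k4 => ?_⟩
  · rcases Finset.mem_insert.1 hz with rfl | hz
    exacts [(hy b hb).1, h2 z hz]
  · rw [Finset.card_insert_of_notMem fun k => (Finset.mem_sdiff.1 (h1 k)).2 ha1]
    exact (Finset.card_insert_le _ _).trans (Nat.succ_le_succ h3)
  · by_cases hi1 : i ∈ s1
    · exact ⟨y b, Finset.mem_insert_self _ _, (hy i hi1).2.2.2.1.trans_le (hmax i hi1),
        (hy b hb).2.2.1.trans_le (hmin i hi)⟩
    · obtain ⟨z, hz, k⟩ := h4 i (Finset.mem_sdiff.2 ⟨hi, hi1⟩)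
      exact ⟨z, Finset.mem_insert_of_mem hz, k⟩
  · rcases Finset.mem_insert.1 hi with e | hi' <;> rcases Finset.mem_insert.1 hj with e' | hj'
    · rw [e, e']
    · exact (hT j hj' z k0 (e ▸ k1) (e ▸ k2) k3 k4).elim
    · exact (hT i hi' z k0 (e' ▸ k3) (e' ▸ k4) k1 k2).elim
    · exact h5 i hi' j hj' z k0 k1 k2 k3 k4

end Pool.Agent.P.MP_8eee4e_co.Ex

end

section
/-! Few squares meet all rich heights. -/


open MeasureTheory Set

namespace Pool.Agent.P.MP_8eee4e_co.Ex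

theorem p_FM1 (hCOV : T_COV) : T_FM1 := by
  intro n K τ D h
  have e : ∀ y i, i ∈ D.row y ↔ D.q i - D.lo i < y ∧ y < D.q i + D.lo i := fun y i => by
    rw [D.mem_row, abs_lt]
    constructor <;> exact fun k => ⟨by linarith [k.1], by linarith [k.2]⟩
  obtain ⟨T, Z, -, h1, h2, h3, h4⟩ := hCOV (Fin n) (fun i => D.q i - D.lo i)
    (fun i => D.q i + D.lo i) Finset.univ (D.Pk (K + 1)) fun y hy => by
      obtain ⟨i, hi⟩ := Finset.card_pos.1 (K.succ_pos.trans_le hy.2)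
      exact ⟨i, Finset.mem_univ i, (e y i).1 hi⟩
  refine ⟨T, not_lt.1 fun k => h ?_, fun y hy => by simpa only [e] using h3 y hy⟩
  obtain ⟨Y, a, b⟩ := Finset.exists_subset_card_eq (show K ≤ Z.card by omega)
  refine ⟨Y, b, ?_, fun i => ?_⟩
  · have := Finset.card_nsmul_le_sum Y (fun y => ((D.row y).card : ℝ)) (K + 1) fun y hy => by
      exact_mod_cast (h1 y (a hy)).2
    rw [b, nsmul_eq_mul] at this
    linarith
  · rw [one_mul, sub_nonpos, Finset.sum_boole, Nat.cast_le_one, Finset.card_le_one]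
    intro y hy y' hy'
    rw [Finset.mem_filter, e] at hy hy'
    exact h4 i (Finset.mem_univ i) y (a hy.1) y' (a hy'.1) hy.2.1 hy.2.2 hy'.2.1 hy'.2.2

end Pool.Agent.P.MP_8eee4e_co.Ex

end

section
/-! Step FM3. -/


open MeasureTheory Set

namespace Pool.Agent.P.MP_8eee4e_co.Ex

theorem p_FM3 (hIMP : T_IMP) (hMK : T_MK) (hA1 : T_A1) (hA2 : T_A2) (hA5 : T_A5) : T_FM3 := by
  intro n K τ D C γ x0 y0 d h s T hT hc y hy hn h2
  have g0 := h.g0
  have hI : volume.real (D.Imp ∩ Icc 0 (K : ℝ)) ≤ γ / 1000 := by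
    have := (hIMP n K τ D).2 0 K (Nat.cast_nonneg K)
    rw [zero_add] at this
    exact this.trans (h.imp_le s)
  have m1 : volume.real (D.A 1 ∪ D.Imp ∩ Icc 0 (K : ℝ)) ≤ 1 + γ := by
    have := hA5 n K τ D 1 C γ x0 y0 d h s
    linarith [measureReal_union_le (μ := volume) (D.A 1) (D.Imp ∩ Icc 0 (K : ℝ)), h.KW_le s, h.big]
  have m2 : volume.real (D.Big ∪ D.Imp ∩ Icc 0 (K : ℝ)) ≤ γ := by
    linarith [measureReal_union_le (μ := volume) D.Big (D.Imp ∩ Icc 0 (K : ℝ)), h.W_le,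
      (hMK n K τ D).2.2.2.2.2]
  have f1 : volume (D.A 1 ∪ D.Imp ∩ Icc 0 (K : ℝ)) ≠ ⊤ :=
    Dat.ne_top_of_subset (union_subset ((D.A_subset 1).trans D.Good_subset) inter_subset_right)
  have f2 : volume (D.Big ∪ D.Imp ∩ Icc 0 (K : ℝ)) ≠ ⊤ :=
    Dat.ne_top_of_subset (union_subset (fun _ a => a.1) inter_subset_right)
  have cov : ∀ z ∈ Icc (0 : ℝ) K, (z ∈ D.A 1 ∪ D.Imp ∩ Icc 0 (K : ℝ) ∧
      (2 ≤ |z - y0| → z ∈ D.Big ∪ D.Imp ∩ Icc 0 (K : ℝ))) ∨ ∃ i ∈ T, i ∈ D.row z := by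
    intro z hz
    refine or_iff_not_imp_right.2 fun a => ?_
    by_cases b : z ∈ D.Imp
    · exact ⟨Or.inr ⟨b, hz⟩, fun _ => Or.inr ⟨b, hz⟩⟩
    have c : (D.row z).card ≤ K := by
      by_contra c
      exact a (hc z ⟨⟨hz, b⟩, not_le.1 c⟩)
    have c' : ((D.row z).card : ℝ) ≤ K := by exact_mod_cast c
    refine ⟨Or.inl ⟨⟨hz, b⟩, by linarith⟩, fun e => Or.inl ⟨hz, not_lt.1 fun w => ?_⟩⟩
    have c2 := (hA1 n K τ D 1 C γ x0 y0 d h s).2 z ⟨hz, b⟩ w
    have c3 : K ≤ (D.row z).card := by exact_mod_cast (by linarith : (K : ℝ) ≤ (D.row z).card)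
    linarith [(hA2 n K τ D 1 C γ x0 y0 d h s).1 z ⟨hz, b⟩ (le_antisymm c c3) w]
  have hs : ∀ T' ⊆ T, ∑ i ∈ T', D.a i ≤ T'.card + γ := fun T' a => by
    have b := s.dsum T' (by have := Finset.card_le_card a; omega)
    have c : ∑ i ∈ T', D.a i ≤ ∑ i ∈ T', (1 + d i) :=
      Finset.sum_le_sum fun i _ => by linarith [s.d2 i, D.a_le_b i]
    rw [Finset.sum_add_distrib, Finset.sum_const, nsmul_one] at c
    linarith
  have hlo : ∀ i, 0 ≤ D.lo i := fun i => by linarith [h.lo_ge i]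
  have low : ∀ E : Set ℝ, volume E ≠ ⊤ → (∀ z ∈ Icc 0 y, z ∈ E ∨ ∃ i ∈ T, i ∈ D.row z) →
      y ≤ volume.real E + (T.filter fun i => D.q i < y).card + γ := fun E a b => by
    have := D.cover_len (T.filter fun i => D.q i < y) a (u := 0) (v := y) (fun i _ => hlo i)
      fun z hz => (b z hz).imp_right fun ⟨i, c, e⟩ => ⟨i, Finset.mem_filter.2 ⟨c, by
        by_contra k
        have := abs_lt.1 (D.mem_row.1 e)
        exact hn i c (D.mem_row.2 (abs_lt.2 ⟨by linarith [hz.2], by linarith [hz.2]⟩))⟩, e⟩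
    linarith [hs _ (Finset.filter_subset (fun i => D.q i < y) T)]
  have upp : ∀ E : Set ℝ, volume E ≠ ⊤ → (∀ z ∈ Icc y K, z ∈ E ∨ ∃ i ∈ T, i ∈ D.row z) →
      K - y ≤ volume.real E + (T.filter fun i => ¬ D.q i < y).card + γ := fun E a b => by
    have := D.cover_len (T.filter fun i => ¬ D.q i < y) a (u := y) (v := K) (fun i _ => hlo i)
      fun z hz => (b z hz).imp_right fun ⟨i, c, e⟩ => ⟨i, Finset.mem_filter.2 ⟨c, fun k => by
        have := abs_lt.1 (D.mem_row.1 e)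
        exact hn i c (D.mem_row.2 (abs_lt.2 ⟨by linarith [hz.1], by linarith [hz.1]⟩))⟩, e⟩
    linarith [hs _ (Finset.filter_subset (fun i => ¬ D.q i < y) T)]
  have hc' : ((T.filter fun i => D.q i < y).card : ℝ) + (T.filter fun i => ¬ D.q i < y).card + 1
      ≤ K := by
    rw [← Finset.card_filter_add_card_filter_not fun i => D.q i < y] at hT
    exact_mod_cast hT
  rcases le_abs'.1 h2 with k | k
  · have a := low _ f2 fun z hz => (cov z ⟨hz.1, hz.2.trans hy.2⟩).imp_left fun b =>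
      b.2 (le_abs'.2 (Or.inl (by linarith [hz.2])))
    have b := upp _ f1 fun z hz => (cov z ⟨hy.1.trans hz.1, hz.2⟩).imp_left And.left
    refine ⟨(T.filter fun i => D.q i < y).card, abs_le.2 ?_⟩
    push_cast
    constructor <;> linarith
  · have a := upp _ f2 fun z hz => (cov z ⟨hy.1.trans hz.1, hz.2⟩).imp_left fun b =>
      b.2 (le_abs'.2 (Or.inr (by linarith [hz.1])))
    have b := low _ f1 fun z hz => (cov z ⟨hz.1, hz.2.trans hy.2⟩).imp_left And.left
    refine ⟨K - (T.filter fun i => ¬ D.q i < y).card, abs_le.2 ?_⟩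
    push_cast
    constructor <;> linarith

end Pool.Agent.P.MP_8eee4e_co.Ex

end

section
/-! Step FM. -/


open MeasureTheory Set

namespace Pool.Agent.P.MP_8eee4e_co.Ex

namespace FMx

variable {n K : ℕ} {τ : ℝ} (D : Dat n K τ)

/-- the heights missed by the bands of `T` -/
def Miss (T : Finset (Fin n)) : Set ℝ := {y | y ∈ Icc (0 : ℝ) K ∧ ∀ i ∈ T, i ∉ D.row y}

lemma meas_U (T : Finset (Fin n)) : MeasurableSet (Miss D T) := by
  have : Miss D T = Icc (0 : ℝ) K ∩ ⋂ i ∈ T, {y | D.lo i ≤ |y - D.q i|} := by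
    ext y
    simp [Miss, Dat.mem_row]
  rw [this]
  exact measurableSet_Icc.inter (T.measurableSet_biInter fun i _ =>
    measurableSet_le (by fun_prop) (by fun_prop))

lemma U_cases {T : Finset (Fin n)} (hT : ∀ y ∈ D.Pk (K + 1), ∃ i ∈ T, i ∈ D.row y) {y : ℝ}
    (hy : y ∈ Miss D T) : y ∈ D.A 1 ∨ y ∈ D.Imp := by
  refine or_iff_not_imp_right.2 fun h => ⟨⟨hy.1, h⟩, ?_⟩
  have : (D.row y).card ≤ K := by
    by_contra hn
    obtain ⟨i, hi, h1⟩ := hT y ⟨⟨hy.1, h⟩, not_le.1 hn⟩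
    exact hy.2 i hi h1
  have : ((D.row y).card : ℝ) ≤ K := by exact_mod_cast this
  linarith

end FMx

open FMx in
theorem p_FM (hIMP : T_IMP) (hMK : T_MK) (hA1 : T_A1) (hA4 : T_A4) (hA5 : T_A5) (hFM1 : T_FM1)
    (hFM3 : T_FM3) : T_FM := by
  intro n K τ D C γ x0 y0 d h s hS
  obtain ⟨T, hT, hc⟩ := hFM1 n K τ D hS
  have hAI : D.A 1 ⊆ Icc (0 : ℝ) K := (D.A_subset 1).trans D.Good_subset
  have fA : volume (D.A 1) ≠ ⊤ := Dat.ne_top_of_subset hAI
  have fU : volume (Miss D T) ≠ ⊤ := Dat.ne_top_of_subset fun y hy => hy.1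
  have fUA : volume (Miss D T ∩ D.A 1) ≠ ⊤ := Dat.ne_top_of_subset fun y hy => hy.1.1
  have fI : ∀ u v : ℝ, volume (D.Imp ∩ Icc u v) ≠ ⊤ := fun u v =>
    Dat.ne_top_of_subset inter_subset_right
  have fZ : volume (D.ImpZ γ) ≠ ⊤ := Dat.ne_top_of_subset fun y hy => hy.2.1
  have h1 := D.cover_len T fU (u := 0) (v := K) (fun i _ => by linarith [h.lo_ge i])
    fun y hy => by
      by_cases e : ∃ i ∈ T, i ∈ D.row y
      · exact Or.inr e
      · exact Or.inl ⟨hy, fun i hi a => e ⟨i, hi, a⟩⟩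
  have h2 : ∑ i ∈ T, D.a i ≤ T.card + γ := by
    have a1 : ∑ i ∈ T, D.a i ≤ ∑ i ∈ T, (1 + d i) := Finset.sum_le_sum fun i _ => by
      linarith [D.a_le_b i, s.d2 i]
    rw [Finset.sum_add_distrib, Finset.sum_const, nsmul_eq_mul, mul_one] at a1
    linarith [s.dsum T (by omega)]
  have h3 : volume.real (Miss D T) ≤
      volume.real (Miss D T ∩ D.A 1) + volume.real (D.Imp ∩ Icc 0 (0 + K)) := by
    refine le_trans (measureReal_mono (fun y hy => ?_) (measure_union_ne_top fUA (fI _ _)))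
      (measureReal_union_le _ _)
    exact (U_cases D hc hy).imp (fun a => ⟨hy, a⟩) fun a => ⟨a, by simpa using hy.1⟩
  have h4 := ((hIMP n K τ D).2 0 K (Nat.cast_nonneg K)).trans (h.imp_le s)
  have h5 := hA5 n K τ D 1 C γ x0 y0 d h s
  have h6 : volume.real (Miss D T ∩ D.A 1) ≤ volume.real (D.A 1) :=
    measureReal_mono inter_subset_right fA
  have k1 := h.KW_le s
  have k2 := h.g_le
  have k3 := h.big
  have k4 := h.g0
  have k5 := h.W0
  have k6 : 10 ^ 10 * D.W ≤ K * D.W := mul_le_mul_of_nonneg_right h.K_ge k5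
  have k7 := h.tau_le_KW
  have hTK : T.card + 1 = K := by
    have : (K : ℝ) < T.card + 2 := by linarith
    have : K < T.card + 2 := by exact_mod_cast this
    omega
  have hTK' : (T.card : ℝ) + 1 = K := by exact_mod_cast hTK
  obtain ⟨y, ⟨hyU, hyA⟩, hw⟩ := (hMK n K τ D).2.2.2.2.1 (Miss D T ∩ D.A 1) (1 / 2)
    ((meas_U D T).inter (D.measurableSet_A 1)) (fun y hy => hy.1.1) (by norm_num) (by linarith)
  have hy : (D.row y).card = K := by
    have a1 := (hA1 n K τ D 1 C γ x0 y0 d h s).2 y hyA.1 (by linarith)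
    have a2 := hyA.2
    have : ((D.row y).card : ℝ) = K := by linarith
    exact_mod_cast this
  have hd : Disjoint (D.row y) T := Finset.disjoint_right.2 hyU.2
  have h7 : (K : ℝ) - D.w y - D.W / 10 ^ 8 ≤ ∑ i ∈ D.row y, D.a i := by
    have a1 : ∑ i ∈ D.row y, D.b i ≤ ∑ i ∈ D.row y, (D.a i + D.t i ^ 2) :=
      Finset.sum_le_sum fun i _ => D.b_le i
    rw [Finset.sum_add_distrib, D.sum_row_good hyA.1] at a1
    linarith [h.sum_row_tsq y]
  have h8 : volume.real (Miss D T) ≤ volume.real (D.A 1) + volume.real (D.ImpZ γ) +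
      volume.real (D.Imp ∩ Icc (y0 - 2) (y0 - 2 + 4)) := by
    refine le_trans (measureReal_mono (fun z hz => ?_)
      (measure_union_ne_top (measure_union_ne_top fA fZ) (fI _ _)))
      ((measureReal_union_le _ _).trans (add_le_add_left (measureReal_union_le _ _) _))
    rcases U_cases D hc hz with a | a
    · exact Or.inl (Or.inl a)
    · rcases le_or_gt 2 |z - y0| with b | b
      · exact Or.inl (Or.inr ⟨a, hz.1, hFM3 n K τ D C γ x0 y0 d h s T hT hc z hz.1 hz.2 b⟩)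
      · have := abs_lt.1 b
        exact Or.inr ⟨a, by linarith [this.1], by linarith [this.2]⟩
  have h9 := hA4 n K τ D 1 C γ x0 y0 d h s
  have h10 := (hIMP n K τ D).2 (y0 - 2) 4 (by norm_num)
  refine ⟨D.row y ∪ T, by rw [Finset.card_union_of_disjoint hd]; omega, ?_⟩
  rw [Finset.sum_union hd]
  linarith

end Pool.Agent.P.MP_8eee4e_co.Ex

end
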