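import Pool.Agent.P.MP_8eee4e_co.Ex.Iface

set_option autoImplicit false

section
/-! Most heights cut many full chords. -/


open MeasureTheory Set

namespace Pool.Agent.P.MP_8eee4e_co.Ex

theorem p_NP (hIMP : T_IMP) (hMK : T_MK) (hA1 : T_A1) : T_NP := by
  intro n K τ D C γ x0 y0 d h s
  have g0 := h.g0
  have g1 := h.g_le
  have K1 := h.K_ge
  have h1 : ∀ y ∈ Icc (0 : ℝ) K, y ∉ D.Pk (K - 1) → y ∈ D.Imp ∨ y ∈ D.Big := fun y hy hn => by
    by_contra e
    rw [not_or] at e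
    have a := (hA1 n K τ D _ C γ x0 y0 d h s).2 y ⟨hy, e.1⟩ (not_le.1 fun k => e.2 ⟨hy, k⟩)
    have b : (K : ℝ) ≤ (D.row y).card + 1 := by linarith
    exact hn ⟨⟨hy, e.1⟩, Nat.sub_le_of_le_add (by exact_mod_cast b)⟩
  have fin : volume (Icc (0 : ℝ) K \ D.Pk (K - 1)) ≠ ⊤ := Dat.ne_top_of_subset sdiff_subset
  have h2 : volume.real (Icc (0 : ℝ) K \ D.Pk (K - 1)) ≤ γ / 500 := by
    have a := measureReal_mono (μ := volume) (s₁ := Icc (0 : ℝ) K \ D.Pk (K - 1))
      (s₂ := D.Imp ∩ Icc 0 (0 + (K : ℝ)) ∪ D.Big)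
      (fun y hy => (h1 y hy.1 hy.2).imp_left fun k => ⟨k, by rw [zero_add]; exact hy.1⟩)
      (measure_union_ne_top (Dat.ne_top_of_subset inter_subset_right)
        (Dat.ne_top_of_subset fun _ k => k.1))
    linarith [measureReal_union_le (μ := volume) (D.Imp ∩ Icc 0 (0 + (K : ℝ))) D.Big,
      (hIMP n K τ D).2 0 K K.cast_nonneg, (hMK n K τ D).2.2.2.2.2, h.imp_le s, h.W_le]
  have h3 : ∀ u v : ℝ, 0 ≤ u → v ≤ K → u + γ / 500 < v → ∃ y ∈ D.Pk (K - 1), u < y ∧ y < v :=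
    fun u v hu hv e => by
      by_contra k
      have a := measureReal_mono (μ := volume) (s₁ := Ioo u v) (s₂ := Icc (0 : ℝ) K \ D.Pk (K - 1))
        (fun y hy => ⟨⟨hu.trans hy.1.le, hy.2.le.trans hv⟩, fun l => k ⟨y, l, hy⟩⟩) fin
      rw [Real.volume_real_Ioo_of_le (by linarith)] at a
      linarith
  refine ⟨h1, h2, h3, fun e => ?_, fun T hT => ?_⟩
  · rw [Measure.real, measure_sdiff_null (e.measure_zero _), ← Measure.real,
      Real.volume_real_Icc_of_le K.cast_nonneg] at h2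
    linarith
  have h5 : D.Two T ⊆ Icc (0 : ℝ) K \ D.Pk (K - 1) := by
    rintro y ⟨i, hi, j, hj, e, a, b⟩
    refine ⟨⟨?_, ?_⟩, fun k => e (hT i hi j hj y k ((D.good_cases k.1 i).resolve_right a.not_ge)
      ((D.good_cases k.1 j).resolve_right b.not_ge))⟩
    · linarith [(abs_lt.1 a).1, D.H.low i]
    · linarith [(abs_lt.1 a).2, D.H.high i]
  refine ⟨fun i hi j hj e q => not_lt.1 fun k => ?_, h5⟩
  have a1 := D.hi_ge i
  have a2 := D.hi_ge j
  obtain ⟨y, y1, y2, y3⟩ := h3 (max (D.q i - D.hi i) (D.q j - D.hi j))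
    (min (D.q i + D.hi i) (D.q j + D.hi j)) (le_max_of_le_left (sub_nonneg.2 (D.H.low i)))
    (min_le_of_left_le (D.H.high i)) (by
      rw [← lt_sub_iff_add_lt, max_lt_iff, lt_sub_iff_add_lt, lt_sub_iff_add_lt, lt_min_iff,
        lt_min_iff]
      exact ⟨⟨by linarith, by linarith⟩, by linarith, by linarith⟩)
  rw [max_lt_iff] at y2
  rw [lt_min_iff] at y3
  exact (h5 ⟨i, hi, j, hj, e, abs_lt.2 ⟨by linarith [y2.1], by linarith [y3.1]⟩,
    abs_lt.2 ⟨by linarith [y2.2], by linarith [y3.2]⟩⟩).2 y1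

end Pool.Agent.P.MP_8eee4e_co.Ex

end

section
/-! Step IND. -/


open MeasureTheory Set

namespace Pool.Agent.P.MP_8eee4e_co.Ex

namespace INDx

variable {n K : ℕ} {τ : ℝ} (D : Dat n K τ)

lemma meas_two (T : Finset (Fin n)) : MeasurableSet (D.Two T) := by
  have : D.Two T = ⋃ i, ⋃ (_ : i ∈ T), ⋃ j, ⋃ (_ : j ∈ T), ⋃ (_ : i ≠ j),
      {y | |y - D.q i| < D.hi i} ∩ {y | |y - D.q j| < D.hi j} := by
    ext y
    simp only [Dat.Two, mem_ofPred_eq, mem_iUnion, mem_inter_iff, exists_prop]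
  rw [this]
  refine MeasurableSet.iUnion fun i => MeasurableSet.iUnion fun _ => MeasurableSet.iUnion fun j =>
    MeasurableSet.iUnion fun _ => MeasurableSet.iUnion fun _ => MeasurableSet.inter ?_ ?_
  · exact measurableSet_lt (by fun_prop) (by fun_prop)
  · exact measurableSet_lt (by fun_prop) (by fun_prop)

lemma first {T : Finset (Fin n)} {E : Set ℝ} {ε : ℝ} (hε : ε ≤ 1 / 10) (hS : D.Sep T ε)
    (h2 : volume (D.Two T) ≠ ⊤) (hE : MeasurableSet E) (hE' : volume E ≠ ⊤)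
    (h : ∀ i ∈ T, ∀ y, |y - D.q i| < D.hi i → y ∈ E) :
    ∑ i ∈ T, D.a i ≤ volume.real E + volume.real (D.Two T) := by
  classical
  have hm : ∀ i z, z ∈ Ioo (D.q i - D.hi i) (D.q i + D.hi i) → |z - D.q i| < D.hi i :=
    fun i z hz => abs_lt.2 ⟨by linarith [hz.1], by linarith [hz.2]⟩
  have pair : ∀ i ∈ T, ∀ j ∈ T, i ≠ j → D.q i + D.hi i ≤ D.q j - D.hi j + ε ∨
      D.q j + D.hi j ≤ D.q i - D.hi i + ε := fun i hi j hj hij =>
    (le_total (D.q i) (D.q j)).imp (hS i hi j hj hij) (hS j hj i hi hij.symm)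
  have key := mult volume T (fun i => Ioo (D.q i - D.hi i) (D.q i + D.hi i)) E (D.Two T) 1
    (fun _ _ => measurableSet_Ioo) (fun _ _ => measure_Ioo_lt_top.ne) hE hE' (meas_two D T) h2
    (fun z => by
      set F := T.filter fun i => z ∈ Ioo (D.q i - D.hi i) (D.q i + D.hi i) with hF
      have c2 : F.card ≤ 2 := by
        by_contra hn
        obtain ⟨i, hi, j, hj, k, hk, hij, hik, hjk⟩ := Finset.two_lt_card.1 (not_le.1 hn)
        obtain ⟨hi, i1, i2⟩ := Finset.mem_filter.1 hi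
        obtain ⟨hj, j1, j2⟩ := Finset.mem_filter.1 hj
        obtain ⟨hk, k1, k2⟩ := Finset.mem_filter.1 hk
        have := D.hi_ge i
        have := D.hi_ge j
        have := D.hi_ge k
        rcases pair i hi j hj hij with a | a <;> rcases pair i hi k hk hik with b | b <;>
          rcases pair j hj k hk hjk with c | c <;> linarith
      have c1 : z ∉ D.Two T → F.card ≤ 1 := fun hz => Finset.card_le_one.2 fun i hi j hj => by
        by_contra hij
        obtain ⟨hi, i1⟩ := Finset.mem_filter.1 hi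
        obtain ⟨hj, j1⟩ := Finset.mem_filter.1 hj
        exact hz ⟨i, hi, j, hj, hij, hm i z i1, hm j z j1⟩
      have c0 : z ∉ E → F.card = 0 := fun hz => by
        rw [Finset.card_eq_zero, Finset.eq_empty_iff_forall_notMem]
        intro i hi
        obtain ⟨hi, i1⟩ := Finset.mem_filter.1 hi
        exact hz (h i hi z (hm i z i1))
      have : (F.card : ℝ) ≤ 1 * (if z ∈ E then 1 else 0) + (if z ∈ D.Two T then 1 else 0) := by
        by_cases hz : z ∈ E
        · by_cases hz' : z ∈ D.Two T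
          · rw [if_pos hz, if_pos hz']
            have : (F.card : ℝ) ≤ 2 := by exact_mod_cast c2
            linarith
          · rw [if_pos hz, if_neg hz']
            have : (F.card : ℝ) ≤ 1 := by exact_mod_cast c1 hz'
            linarith
        · rw [c0 hz, if_neg hz]
          split_ifs <;> norm_num
      convert this)
  rw [one_mul] at key
  refine le_trans (Finset.sum_le_sum fun i _ => ?_) key
  have := D.hi_ge i
  have := D.le_hi i
  rw [Real.volume_real_Ioo_of_le (by linarith)]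
  linarith

end INDx

theorem p_IND (hNP : T_NP) : T_IND := by
  intro n K τ D C γ x0 y0 d h s T E hT hE hE' hcov
  obtain ⟨-, n2, -, -, n5⟩ := hNP n K τ D C γ x0 y0 d h s
  have hg := h.g_le
  have hg0 := h.g0
  have A : ∀ (T : Finset (Fin n)) (E : Set ℝ), D.PD (K - 1) T → MeasurableSet E →
      volume E ≠ ⊤ → (∀ i ∈ T, ∀ y, |y - D.q i| < D.hi i → y ∈ E) →
      ∑ i ∈ T, D.a i ≤ volume.real E + volume.real (D.Two T) := fun T E hT hE hE' hc =>
    INDx.first D (by linarith) (n5 T hT).1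
      (Dat.ne_top_of_subset ((n5 T hT).2.trans sdiff_subset)) hE hE' hc
  have B : ∀ (T : Finset (Fin n)) (E : Set ℝ), D.PD (K - 1) T → MeasurableSet E →
      volume E ≠ ⊤ → (∀ i ∈ T, ∀ y, |y - D.q i| < D.hi i → y ∈ E) → T.card ≤ K + 2 →
      (T.card : ℝ) ≤ volume.real E + 2 * γ := by
    intro T E hT hE hE' hc hcard
    have a1 := A T E hT hE hE' hc
    have a2 : volume.real (D.Two T) ≤ γ / 500 :=
      (measureReal_mono (n5 T hT).2 (Dat.ne_top_of_subset sdiff_subset)).trans n2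
    have a3 : ∑ i ∈ T, (1 : ℝ) ≤ ∑ i ∈ T, (D.a i + d i + D.t i ^ 2) :=
      Finset.sum_le_sum fun i _ => by
        have := s.d2 i
        have := D.b_le i
        linarith
    rw [Finset.sum_add_distrib, Finset.sum_add_distrib, Finset.sum_const, nsmul_eq_mul,
      mul_one] at a3
    have a4 := s.dsum T hcard
    have a5 := h.sum_tsq T
    have a6 := h.KW_le s
    linarith
  refine ⟨A T E hT hE hE' hcov, B T E hT hE hE' hcov ?_⟩
  by_contra hn
  obtain ⟨T', hs, hc⟩ := Finset.exists_subset_card_eq (not_le.1 hn).le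
  have := B T' (Icc 0 (K : ℝ)) (fun i hi j hj => hT i (hs hi) j (hs hj)) measurableSet_Icc
    measure_Icc_lt_top.ne (fun i _ y hy => by
      have := D.H.low i
      have := D.H.high i
      have := abs_lt.1 hy
      constructor <;> linarith [this.1, this.2]) hc.le
  rw [hc, Real.volume_real_Icc_of_le (Nat.cast_nonneg K)] at this
  push_cast at this
  linarith

end Pool.Agent.P.MP_8eee4e_co.Ex

end

section
/-! Step FP1: independent families below and above a height. -/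


open MeasureTheory Set

namespace Pool.Agent.P.MP_8eee4e_co.Ex

namespace FP1x

variable {n K : ℕ} {τ : ℝ} {D : Dat n K τ}

lemma row_iff {y : ℝ} {i : Fin n} : i ∈ D.row y ↔ D.q i - D.lo i < y ∧ y < D.q i + D.lo i := by
  rw [D.mem_row, abs_lt]
  constructor <;> rintro ⟨a, b⟩ <;> constructor <;> linarith

lemma pierce (hPRC : T_PRC) (k : ℕ) (hb : ∀ i, ∃ y ∈ D.Pk k, i ∈ D.row y) (s : Finset (Fin n)) :
    ∃ (T : Finset (Fin n)) (Z : Finset ℝ), T ⊆ s ∧ (∀ y ∈ Z, y ∈ D.Pk k) ∧ Z.card ≤ T.card ∧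
      (∀ i ∈ s, ∃ y ∈ Z, i ∈ D.row y) ∧ D.PD k T := by
  obtain ⟨T, Z, a, b, c, e, f⟩ := hPRC (Fin n) (fun i => D.q i - D.lo i) (fun i => D.q i + D.lo i)
    s (D.Pk k) fun i _ => by simpa only [row_iff] using hb i
  exact ⟨T, Z, a, b, c, fun i hi => by simpa only [row_iff] using e i hi,
    fun i hi j hj y hy h1 h2 => f i hi j hj y hy (row_iff.1 h1).1 (row_iff.1 h1).2
      (row_iff.1 h2).1 (row_iff.1 h2).2⟩

lemma card_A {y : ℝ} (h : y ∈ D.A (-1)) : K ≤ (D.row y).card := by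
  have := h.2
  have : (K : ℝ) ≤ (D.row y).card := by linarith
  exact_mod_cast this

lemma sys (hK : 1 ≤ K) {Z : Finset ℝ} {y1 y2 : ℝ} (hc : Z.card = K)
    (hP : ∀ y ∈ Z, y ∈ D.Pk (K - 1)) (h1 : y1 ∈ D.A (-1)) (h2 : y2 ∈ D.A (-1)) (hne : y1 ≠ y2)
    (m1 : y1 ∈ Z) (m2 : y2 ∈ Z) (hit : ∀ i, ∃ y ∈ Z, i ∈ D.row y) : Sys D (-1) := by
  refine ⟨Z, hc, ?_, fun i => ?_⟩
  · have a : ∀ y ∈ Z, 0 ≤ ((D.row y).card : ℝ) - (K - 1) := fun y hy => by
      have : ((K - 1 : ℕ) : ℝ) ≤ (D.row y).card := by exact_mod_cast (hP y hy).2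
      rw [Nat.cast_pred hK] at this
      linarith
    have b := Finset.sum_le_sum_of_subset_of_nonneg (s := {y1, y2}) (t := Z)
      (f := fun y => ((D.row y).card : ℝ) - (K - 1))
      (Finset.insert_subset m1 (Finset.singleton_subset_iff.2 m2)) fun y hy _ => a y hy
    rw [Finset.sum_pair hne, Finset.sum_sub_distrib, Finset.sum_const, hc, nsmul_eq_mul] at b
    have c1 : (K : ℝ) ≤ (D.row y1).card := by exact_mod_cast card_A h1
    have c2 : (K : ℝ) ≤ (D.row y2).card := by exact_mod_cast card_A h2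
    linarith
  · obtain ⟨y, hy, e⟩ := hit i
    have := Finset.single_le_sum (f := fun y => if i ∈ D.row y then (1 : ℝ) else 0)
      (fun y _ => by positivity) hy
    rw [if_pos e] at this
    linarith

end FP1x

open FP1x

theorem p_FP1 (hNP : T_NP) (hPRC : T_PRC) : T_FP1 := by
  classical
  intro n K τ D C γ x0 y0 d h s hS
  obtain ⟨-, -, h3, hinf, -⟩ := hNP n K τ D C γ x0 y0 d h s
  have hb : ∀ i, ∃ y ∈ D.Pk (K - 1), i ∈ D.row y := fun i => by
    have a := h.lo_ge i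
    have b := D.lo_le_hi i
    have c := D.H.low i
    have e := D.H.high i
    have f := h.g_le
    simpa only [row_iff] using h3 (D.q i - D.lo i) (D.q i + D.lo i) (by linarith) (by linarith)
      (by linarith)
  choose Lo Z1 a1 b1 c1 e1 f1 using fun y : ℝ =>
    pierce hPRC (K - 1) hb (Finset.univ.filter fun i => D.q i + D.hi i ≤ y)
  choose Up Z2 a2 b2 c2 e2 f2 using fun y : ℝ =>
    pierce hPRC (K - 1) hb (Finset.univ.filter fun i => y ≤ D.q i - D.hi i)
  refine ⟨Lo, Up, fun y => ⟨f1 y, fun i hi => (Finset.mem_filter.1 (a1 y hi)).2⟩,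
    fun y => ⟨f2 y, fun i hi => (Finset.mem_filter.1 (a2 y hi)).2⟩,
    fun y1 h1 y2 h2 hlt hd => not_lt.1 fun hn => hS ?_⟩
  have pA : ∀ y ∈ D.A (-1), y ∈ D.Pk (K - 1) := fun y hy =>
    ⟨hy.1, (Nat.sub_le K 1).trans (card_A hy)⟩
  have hc : (insert y1 (insert y2 (Z1 y1 ∪ Z2 y2))).card ≤ K := by
    have k1 := Finset.card_insert_le y1 (insert y2 (Z1 y1 ∪ Z2 y2))
    have k2 := Finset.card_insert_le y2 (Z1 y1 ∪ Z2 y2)
    have k3 := Finset.card_union_le (Z1 y1) (Z2 y2)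
    have := c1 y1
    have := c2 y2
    omega
  have hsub : ∀ y ∈ insert y1 (insert y2 (Z1 y1 ∪ Z2 y2)), y ∈ D.Pk (K - 1) := by
    simp only [Finset.mem_insert, Finset.mem_union]
    rintro y (rfl | rfl | k | k)
    exacts [pA _ h1, pA _ h2, b1 _ y k, b2 _ y k]
  have hit : ∀ i, ∃ y ∈ insert y1 (insert y2 (Z1 y1 ∪ Z2 y2)), i ∈ D.row y := fun i => by
    simp only [Finset.mem_insert, Finset.mem_union]
    rcases D.good_cases h1.1 i with k1 | k1
    · exact ⟨y1, Or.inl rfl, k1⟩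
    rcases D.good_cases h2.1 i with k2 | k2
    · exact ⟨y2, Or.inr (Or.inl rfl), k2⟩
    rcases le_abs.1 k1 with k1 | k1
    · obtain ⟨y, a, b⟩ := e1 y1 i (Finset.mem_filter.2 ⟨Finset.mem_univ i, by linarith⟩)
      exact ⟨y, Or.inr (Or.inr (Or.inl a)), b⟩
    rcases le_abs.1 k2 with k2 | k2
    · have := D.hi_ge i
      linarith
    · obtain ⟨y, a, b⟩ := e2 y2 i (Finset.mem_filter.2 ⟨Finset.mem_univ i, by linarith⟩)
      exact ⟨y, Or.inr (Or.inr (Or.inr a)), b⟩
  have m1 : y1 ∈ insert y1 (insert y2 (Z1 y1 ∪ Z2 y2)) := Finset.mem_insert_self _ _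
  have m2 : y2 ∈ insert y1 (insert y2 (Z1 y1 ∪ Z2 y2)) :=
    Finset.mem_insert_of_mem (Finset.mem_insert_self _ _)
  generalize insert y1 (insert y2 (Z1 y1 ∪ Z2 y2)) = Z0 at hc hsub hit m1 m2
  obtain ⟨Z, z1, z2⟩ := (hinf.sdiff Z0.finite_toSet).exists_subset_card_eq (K - Z0.card)
  have dj : Disjoint Z0 Z := Finset.disjoint_right.2 fun y hy => (z1 hy).2
  refine sys (Z := Z0 ∪ Z) (by have := h.K_ge_nat; omega)
    (by rw [Finset.card_union_of_disjoint dj]; omega)
    (fun y hy => (Finset.mem_union.1 hy).elim (hsub y) fun k => (z1 k).1) h1 h2 hlt.ne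
    (Finset.mem_union_left _ m1) (Finset.mem_union_left _ m2) fun i => ?_
  obtain ⟨y, a, b⟩ := hit i
  exact ⟨y, Finset.mem_union_left _ a, b⟩

end Pool.Agent.P.MP_8eee4e_co.Ex

end

section
/-! Step FP2. -/


open MeasureTheory Set

namespace Pool.Agent.P.MP_8eee4e_co.Ex

namespace FP2x

lemma two (hIND : T_IND) {n K : ℕ} {τ : ℝ} {D : Dat n K τ} {C γ x0 y0 : ℝ} {d : Fin n → ℝ}
    (h : Hyp D (-1) C γ) (s : Str D (-1) γ x0 y0 d) {T S : Finset (Fin n)}
    (hT : D.PD (K - 1) T) (hS : S ⊆ T) {u v u' v' : ℝ} (h1 : u ≤ v) (h2 : u' ≤ v')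
    (hi : ∀ i ∈ S, (u ≤ D.q i - D.hi i ∧ D.q i + D.hi i ≤ v) ∨
      (u' ≤ D.q i - D.hi i ∧ D.q i + D.hi i ≤ v')) :
    (S.card : ℝ) ≤ v - u + (v' - u') + 2 * γ := by
  have k := (hIND n K τ D C γ x0 y0 d h s S (Icc u v ∪ Icc u' v')
    (fun i hi j hj => hT i (hS hi) j (hS hj)) (measurableSet_Icc.union measurableSet_Icc)
    (measure_union_ne_top measure_Icc_lt_top.ne measure_Icc_lt_top.ne) fun i hiS y hy => by
      obtain ⟨a, b⟩ := abs_lt.1 hy
      rcases hi i hiS with ⟨c, e⟩ | ⟨c, e⟩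
      · exact Or.inl ⟨by linarith, by linarith⟩
      · exact Or.inr ⟨by linarith, by linarith⟩).2
  have k2 := measureReal_union_le (μ := volume) (Icc u v) (Icc u' v')
  rw [Real.volume_real_Icc_of_le h1, Real.volume_real_Icc_of_le h2] at k2
  linarith

end FP2x

theorem p_FP2 (hNP : T_NP) (hIND : T_IND) : T_FP2 := by
  intro n K τ D C γ x0 y0 d h s T yl yh hl hh hw hT hc hs y hy
  have hsep := ((hNP n K τ D C γ x0 y0 d h s).2.2.2.2 T hT).1
  have hg := h.g0
  obtain ⟨G, hG, hGy, htop⟩ : ∃ G ∈ T, |y - D.q G| < D.hi G ∧ D.q G + D.hi G ≤ y + γ / 500 := by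
    obtain ⟨G, hG, H, hH, hne, h1, h2⟩ := hy
    rcases le_total (D.q G) (D.q H) with k | k
    · exact ⟨G, hG, h1, by linarith [hsep G hG H hH hne k, (abs_lt.1 h2).1]⟩
    · exact ⟨H, hH, h2, by linarith [hsep H hH G hG hne.symm k, (abs_lt.1 h1).1]⟩
  obtain ⟨g1, g2⟩ := abs_lt.1 hGy
  have low := D.H.low
  have high := D.H.high
  have hG0 := low G
  have hGK := high G
  have a1 : ∀ i ∈ T.filter fun i => D.q i ≤ D.q G, D.q i + D.hi i ≤ y + γ / 500 := fun i hi => by
    obtain ⟨k1, k2⟩ := Finset.mem_filter.1 hi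
    rcases eq_or_ne i G with rfl | k
    · exact htop
    · linarith [hsep i k1 G hG k k2]
  have a2 : ∀ i ∈ T.filter fun i => ¬ D.q i ≤ D.q G, y - γ / 500 ≤ D.q i - D.hi i :=
    fun i hi => by
      obtain ⟨k1, k2⟩ := Finset.mem_filter.1 hi
      have k : G ≠ i := by
        rintro rfl
        exact k2 le_rfl
      linarith [hsep G hG i k1 k (not_le.1 k2).le]
  have hcard : ((T.filter fun i => D.q i ≤ D.q G).card : ℝ) +
      (T.filter fun i => ¬ D.q i ≤ D.q G).card + 1 = K := by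
    rw [← Finset.card_filter_add_card_filter_not (s := T) fun i => D.q i ≤ D.q G] at hc
    exact_mod_cast hc
  rcases hs G hG with k | k
  · have b1 := FP2x.two hIND h s hT (Finset.filter_subset (fun i => D.q i ≤ D.q G) T)
      (u := 0) (v := y + γ / 500) (by linarith) (le_refl (0 : ℝ))
      fun i hi => Or.inl ⟨by linarith [low i], a1 i hi⟩
    have b2 := FP2x.two hIND h s hT (Finset.filter_subset (fun i => ¬ D.q i ≤ D.q G) T)
      (u := y - γ / 500) (v := yl) (by linarith) hh fun i hi =>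
        (hs i (Finset.mem_filter.1 hi).1).imp (fun k => ⟨a2 i hi, k⟩) fun k => ⟨k, high i⟩
    refine ⟨(T.filter fun i => D.q i ≤ D.q G).card, abs_le.2 ⟨?_, ?_⟩⟩ <;> push_cast <;> linarith
  · have b1 := FP2x.two hIND h s hT (Finset.filter_subset (fun i => D.q i ≤ D.q G) T)
      hl (u' := yh) (v' := y + γ / 500) (by linarith) fun i hi =>
        (hs i (Finset.mem_filter.1 hi).1).imp (fun k => ⟨by linarith [low i], k⟩)
          fun k => ⟨k, a1 i hi⟩
    have b2 := FP2x.two hIND h s hT (Finset.filter_subset (fun i => ¬ D.q i ≤ D.q G) T)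
      (u := y - γ / 500) (v := K) (by linarith) (le_refl (0 : ℝ))
      fun i hi => Or.inl ⟨a2 i hi, high i⟩
    refine ⟨(T.filter fun i => D.q i ≤ D.q G).card + 1, abs_le.2 ⟨?_, ?_⟩⟩ <;> push_cast <;>
      linarith

end Pool.Agent.P.MP_8eee4e_co.Ex

end

section
/-! Step FP3. -/


open MeasureTheory Set

namespace Pool.Agent.P.MP_8eee4e_co.Ex

namespace FP3x

lemma far {A : Set ℝ} {c : ℝ} (hc : 0 ≤ c) (h : c < volume.real A) :
    ∃ y ∈ A, ∃ y' ∈ A, c ≤ y' - y := by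
  by_contra hn
  push Not at hn
  refine h.not_ge (ENNReal.toReal_le_of_le_ofReal hc ((Real.volume_le_diam A).trans
    (Metric.ediam_le fun x hx y hy => ?_)))
  rw [edist_dist, Real.dist_eq]
  exact ENNReal.ofReal_le_ofReal (abs_sub_le_iff.2 ⟨(hn y hy x hx).le, (hn x hx y hy).le⟩)

lemma meet {A : Set ℝ} {a b u v : ℝ} (hA : A ⊆ Icc a b) (h1 : a ≤ u) (h2 : v ≤ b)
    (h : u - a + (b - v) < volume.real A) : ∃ m ∈ A, u < m ∧ m < v := by
  by_contra hn
  push Not at hn
  have h3 := (measureReal_mono (μ := volume) (s₂ := Icc a u ∪ Icc v b) (fun y hy =>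
    (le_or_gt y u).imp (fun e => ⟨(hA hy).1, e⟩) fun e => ⟨hn y hy e, (hA hy).2⟩)
    (measure_union_ne_top measure_Icc_lt_top.ne measure_Icc_lt_top.ne)).trans
      (measureReal_union_le _ _)
  rw [Real.volume_real_Icc_of_le h1, Real.volume_real_Icc_of_le h2] at h3
  exact h.not_ge h3

lemma near {m δ : ℝ} (h0 : 0 ≤ m) (hδ : 0 ≤ δ) :
    (∃ j : ℕ, j + δ < m ∧ m < j + 1 - δ) ∨ ∃ j : ℕ, m ≤ j + δ ∧ j - δ ≤ m := by
  have h1 := Nat.floor_le h0
  have h2 := Nat.lt_floor_add_one m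
  rcases le_or_gt m (⌊m⌋₊ + δ) with a | a
  · exact .inr ⟨_, a, by linarith⟩
  rcases lt_or_ge m (⌊m⌋₊ + 1 - δ) with b | b
  · exact .inl ⟨_, a, b⟩
  · exact .inr ⟨⌊m⌋₊ + 1, by push_cast; linarith, by push_cast; linarith⟩

end FP3x

theorem p_FP3 (hA2 : T_A2) (hA5 : T_A5) : T_FP3 := by
  intro n K τ D C γ x0 y0 d h s
  have h1 := hA5 n K τ D _ C γ x0 y0 d h s
  have h2 := (hA2 n K τ D _ C γ x0 y0 d h s).2 rfl
  have h3 := h.big
  have h4 := h.KW_le s
  have h5 := h.g_le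
  have h6 := h.g0
  obtain ⟨yl, hl, yh, hh, h7⟩ := FP3x.far (A := D.A (-1)) (c := 1 - K * D.W / 100) (by linarith)
    (by linarith)
  have h8 := (abs_lt.1 (h2 yh hh yl hl)).2
  have hA : D.A (-1) ⊆ Icc (yh - 11 / 10) (yl + 11 / 10) := fun y hy =>
    ⟨by linarith [(abs_lt.1 (h2 y hy yh hh)).1], by linarith [(abs_lt.1 (h2 y hy yl hl)).2]⟩
  obtain ⟨m, hm, a1, a2⟩ := FP3x.meet (u := yl + 21 / 100) (v := yl + 51 / 100) hA (by linarith)
    (by linarith) (by linarith)
  obtain ⟨m', hm', b1, b2⟩ := FP3x.meet (u := yl + 55 / 100) (v := yl + 85 / 100) hA (by linarith)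
    (by linarith) (by linarith)
  rcases FP3x.near (δ := 2 * γ) hm.1.1.1 (by linarith) with ⟨j, c⟩ | ⟨j, c1, c2⟩
  · exact ⟨yl, hl, m, hm, yh, hh, j, by linarith, by linarith, by linarith, by linarith, h7, c⟩
  rcases FP3x.near (δ := 2 * γ) hm'.1.1.1 (by linarith) with ⟨k, e⟩ | ⟨k, e1, e2⟩
  · exact ⟨yl, hl, m', hm', yh, hh, k, by linarith, by linarith, by linarith, by linarith, h7, e⟩
  have f1 : j < k := by exact_mod_cast (show (j : ℝ) < k by linarith)
  have f2 : k < j + 1 := by exact_mod_cast (show (k : ℝ) < j + 1 by linarith)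
  omega

end Pool.Agent.P.MP_8eee4e_co.Ex

end

section
/-! The case `σ = -1`: without a system of lines the aim is reached. -/


open MeasureTheory Set

namespace Pool.Agent.P.MP_8eee4e_co.Ex

namespace FPx

variable {n K : ℕ} {τ : ℝ} {D : Dat n K τ}

lemma pd_mono {k : ℕ} {T U : Finset (Fin n)} (h : D.PD k U) (hT : T ⊆ U) : D.PD k T :=
  fun i hi j hj y hy => h i (hT hi) j (hT hj) y hy

lemma pd_union {k : ℕ} {T U : Finset (Fin n)} {u v : ℝ} (huv : u ≤ v) (hT : D.PD k T)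
    (hU : D.PD k U) (h1 : ∀ i ∈ T, D.q i + D.hi i ≤ u) (h2 : ∀ i ∈ U, v ≤ D.q i - D.hi i) :
    D.PD k (T ∪ U) := by
  have key : ∀ i ∈ T, ∀ j ∈ U, ∀ y, i ∈ D.row y → j ∈ D.row y → False := fun i hi j hj y a b => by
    have a' := abs_lt.1 (D.mem_row.1 a)
    have b' := abs_lt.1 (D.mem_row.1 b)
    have := h1 i hi
    have := h2 j hj
    have := D.lo_le_hi i
    have := D.lo_le_hi j
    linarith [a'.2, b'.1]
  intro i hi j hj y hy a b
  rcases Finset.mem_union.1 hi with hi | hi <;> rcases Finset.mem_union.1 hj with hj | hj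
  · exact hT i hi j hj y hy a b
  · exact (key i hi j hj y a b).elim
  · exact (key j hj i hi y b a).elim
  · exact hU i hi j hj y hy a b

lemma card_row {C γ x0 y0 : ℝ} {d : Fin n → ℝ} (h : Hyp D (-1) C γ) (s : Str D (-1) γ x0 y0 d)
    {y : ℝ} (hy : y ∈ D.A (-1)) : (D.row y).card = K := by
  have h1 : (K : ℝ) ≤ (D.row y).card := by have := hy.2; linarith
  refine le_antisymm ?_ (by exact_mod_cast h1)
  by_contra hn
  obtain ⟨U, hU, hc⟩ := Finset.exists_subset_card_eq (show K + 1 ≤ (D.row y).card by omega)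
  have h2 : ∑ i ∈ U, D.b i ≤ K :=
    (Finset.sum_le_sum_of_subset_of_nonneg hU fun i _ _ => (D.b_pos i).le).trans (D.sum_row_le y)
  have h3 : ∑ i ∈ U, (1 - d i) ≤ ∑ i ∈ U, D.b i :=
    Finset.sum_le_sum fun i _ => by have := s.d2 i; linarith
  have h4 := s.dsum U (by omega)
  rw [Finset.sum_sub_distrib, Finset.sum_const, hc, nsmul_eq_mul] at h3
  push_cast at h3
  have := h.g_le
  linarith

end FPx

open FPx in
theorem p_FP (hMK : T_MK) (hA4 : T_A4) (hNP : T_NP) (hIND : T_IND) (hFP1 : T_FP1) (hFP2 : T_FP2)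
    (hFP3 : T_FP3) : T_FP := by
  intro n K τ D C γ x0 y0 d h s hS
  obtain ⟨Lo, Up, hLo, hUp, hc⟩ := hFP1 n K τ D C γ x0 y0 d h s hS
  obtain ⟨yl, hyl, m, hm, yh, hyh, j, l1, l2, l3, l4, l5, l6, l7⟩ := hFP3 n K τ D C γ x0 y0 d h s
  have ind := hIND n K τ D C γ x0 y0 d h s
  have m0 := (D.Good_subset (D.A_subset _ hm))
  have yl0 := (D.Good_subset (D.A_subset _ hyl))
  have yh0 := (D.Good_subset (D.A_subset _ hyh))
  have c1 : (Lo m).card ≤ j := by
    have := (ind (Lo m) (Icc 0 m) (hLo m).1 measurableSet_Icc measure_Icc_lt_top.ne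
      fun i hi y hy => by
        have a := abs_lt.1 hy
        have := (hLo m).2 i hi
        have := D.H.low i
        exact ⟨by linarith [a.1], by linarith [a.2]⟩).2
    rw [Real.volume_real_Icc_of_le m0.1] at this
    have h2 : ((Lo m).card : ℝ) < (j + 1 : ℕ) := by push_cast; linarith
    have h3 : (Lo m).card < j + 1 := by exact_mod_cast h2
    omega
  have c2 : (Up m).card + j + 1 ≤ K := by
    have := (ind (Up m) (Icc m K) (hUp m).1 measurableSet_Icc measure_Icc_lt_top.ne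
      fun i hi y hy => by
        have a := abs_lt.1 hy
        have := (hUp m).2 i hi
        have := D.H.high i
        exact ⟨by linarith [a.1], by linarith [a.2]⟩).2
    rw [Real.volume_real_Icc_of_le m0.2] at this
    have h2 : (((Up m).card + j : ℕ) : ℝ) < K := by push_cast; linarith
    have h3 : (Up m).card + j < K := by exact_mod_cast h2
    omega
  have c3 := hc yl hyl m hm l1 l3
  have c4 := hc m hm yh hyh l2 l4
  have hdis : Disjoint (Lo yl) (Up yh) := Finset.disjoint_left.2 fun i a b => by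
    have := (hLo yl).2 i a
    have := (hUp yh).2 i b
    have := D.hi_ge i
    linarith
  have hK := h.K_ge_nat
  have hPD := pd_union (l1.trans l2).le (hLo yl).1 (hUp yh).1 (hLo yl).2 (hUp yh).2
  obtain ⟨T, hT, hTc⟩ := Finset.exists_subset_card_eq
    (show K - 1 ≤ (Lo yl ∪ Up yh).card by rw [Finset.card_union_of_disjoint hdis]; omega)
  have hTP := pd_mono hPD hT
  have hTs : ∀ i ∈ T, D.q i + D.hi i ≤ yl ∨ yh ≤ D.q i - D.hi i := fun i hi =>
    (Finset.mem_union.1 (hT hi)).imp ((hLo yl).2 i) ((hUp yh).2 i)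
  have hrow := card_row h s hyl
  have hd2 : Disjoint (D.row yl) T := Finset.disjoint_left.2 fun i a b => by
    have a' := abs_lt.1 (D.mem_row.1 a)
    have := D.lo_le_hi i
    rcases hTs i b with k | k <;> linarith [a'.1, a'.2]
  refine ⟨D.row yl ∪ T, by rw [Finset.card_union_of_disjoint hd2]; omega, ?_⟩
  rw [Finset.sum_union hd2]
  have s1 : ∑ i ∈ D.row yl, D.a i ≤ K :=
    (Finset.sum_le_sum fun i _ => D.a_le_b i).trans (D.sum_row_le yl)
  have s2 := (ind T (Icc 0 yl ∪ Icc yh K) hTP (measurableSet_Icc.union measurableSet_Icc)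
    (measure_union_ne_top measure_Icc_lt_top.ne measure_Icc_lt_top.ne) fun i hi y hy => by
      have a := abs_lt.1 hy
      have := D.H.low i
      have := D.H.high i
      rcases hTs i hi with k | k
      · exact Or.inl ⟨by linarith [a.1], by linarith [a.2]⟩
      · exact Or.inr ⟨by linarith [a.1], by linarith [a.2]⟩).1
  have s3 := measureReal_union_le (μ := volume) (Icc 0 yl) (Icc yh (K : ℝ))
  rw [Real.volume_real_Icc_of_le yl0.1, Real.volume_real_Icc_of_le yh0.2] at s3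
  obtain ⟨n1, -, -, -, n5⟩ := hNP n K τ D C γ x0 y0 d h s
  have hKW := h.KW_le s
  have hg := h.g0
  have f2 := hFP2 n K τ D C γ x0 y0 d h s T yl yh yl0.1 yh0.2 (by linarith) hTP (by omega) hTs
  have hsub : D.Two T ⊆ D.ImpZ γ ∪ D.Big := fun y hy => by
    have k := (n5 T hTP).2 hy
    rcases n1 y k.1 k.2 with a | a
    · exact Or.inl ⟨a, k.1, f2 y hy⟩
    · exact Or.inr a
  have t1 : volume (D.ImpZ γ) ≠ ⊤ := Dat.ne_top_of_subset fun y hy => hy.2.1
  have t2 : volume D.Big ≠ ⊤ := Dat.ne_top_of_subset fun y hy => hy.1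
  have s4 := measureReal_mono hsub (measure_union_ne_top t1 t2)
  have s5 := measureReal_union_le (μ := volume) (D.ImpZ γ) D.Big
  have s6 := hA4 n K τ D (-1) C γ x0 y0 d h s
  have s7 := (hMK n K τ D).2.2.2.2.2
  have s8 : 2 * D.W ≤ K * D.W / 100 := by nlinarith [h.K_ge, h.W0]
  have s9 : 0 ≤ K * D.W := mul_nonneg h.K_pos.le h.W0
  linarith

end Pool.Agent.P.MP_8eee4e_co.Ex

end
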