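import Pool.Agent.P.MP_8eee4e_co.Ex.Iface

set_option autoImplicit false

section
/-! A separation of orientations forces uncovered area. -/


open MeasureTheory Set

namespace Pool.Agent.P.MP_8eee4e_co.Ex

namespace LL0x

lemma seg {B : Set (ℝ × ℝ)} (hB : Convex ℝ B) {v m x1 x2 : ℝ} (h : x1 < x2)
    (h1 : (x1, v + m * x1) ∈ B) (h2 : (x2, v + m * x2) ∈ B) :
    ∀ x ∈ Icc x1 x2, (x, v + m * x) ∈ B := by
  intro x hx
  have hd : 0 < x2 - x1 := sub_pos.2 h
  have := hB h1 h2 (div_nonneg (sub_nonneg.2 hx.2) hd.le) (div_nonneg (sub_nonneg.2 hx.1) hd.le)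
    (by field_simp; ring)
  refine (congrArg (· ∈ B) (Prod.ext ?_ ?_)).mp this
  · simp only [Prod.fst_add, Prod.smul_fst, smul_eq_mul]
    field_simp
    ring
  · simp only [Prod.snd_add, Prod.smul_snd, smul_eq_mul]
    field_simp
    ring

lemma inwin {p q m x u y : ℝ} (hm : |m| ≤ 1) (hx : |x - p| ≤ 3) (u0 : 0 ≤ u) (u1 : u ≤ 3 / 10)
    (hy : y = q + m * (x - p) + u) : (x, y) ∈ win p q 4 := by
  have h : |m * (x - p)| ≤ 3 := by
    rw [abs_mul]
    exact (mul_le_of_le_one_left (abs_nonneg _) hm).trans hx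
  obtain ⟨h1, h2⟩ := abs_le.1 h
  exact ⟨hx.trans (by norm_num), abs_le.2 ⟨by simp only; linarith, by simp only; linarith⟩⟩

lemma centre {S : Sq} (hS : S.hi ≤ 4 / 5) {p q : ℝ} {z : ℝ × ℝ} (h : z ∈ S.cl)
    (hz : z ∈ win p q 4) : (S.p, S.q) ∈ win p q 5 := by
  obtain ⟨a1, a2⟩ := S.near_of_mem_cl h
  obtain ⟨a3, a4⟩ := hz
  rw [abs_le] at a1 a2 a3 a4
  exact ⟨abs_le.2 ⟨by simp only; linarith [a1.2, a3.1], by simp only; linarith [a1.1, a3.2]⟩,
    abs_le.2 ⟨by simp only; linarith [a2.2, a4.1], by simp only; linarith [a2.1, a4.2]⟩⟩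

lemma len {Ω : Set (ℝ × ℝ)} (hΩ : volume Ω ≠ ⊤) {v m h α β : ℝ} (h0 : 0 < h) (hαβ : α ≤ β)
    (h1 : ENNReal.ofReal h * volume {x : ℝ | (x, v + m * x) ∈ Ω} ≤ volume Ω)
    (h2 : ∀ x ∈ Ioo α β, (x, v + m * x) ∈ Ω) : |α - β| ≤ volume.real Ω / h := by
  have h3 : ENNReal.ofReal h * volume (Ioo α β) ≤ volume Ω :=
    (mul_le_mul_right (measure_mono (t := {x : ℝ | (x, v + m * x) ∈ Ω}) h2) _).trans h1
  rw [Real.volume_Ioo, ← ENNReal.ofReal_mul h0.le, ENNReal.ofReal_le_iff_le_toReal hΩ] at h3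
  rw [abs_sub_comm, abs_of_nonneg (sub_nonneg.2 hαβ), le_div_iff₀ h0, mul_comm]
  exact h3

lemma sep {v0 h v v' : ℝ} {r r' : ℕ} (h0 : 0 < h) (hr : r < r')
    (a : v ≤ v0 + 2 * r * h + h) (b : v0 + 2 * r' * h ≤ v') : h ≤ v' - v := by
  have : (r : ℝ) + 1 ≤ r' := by exact_mod_cast hr
  nlinarith

end LL0x

open LL0x in
theorem p_LL0 (hNB : T_NB) (hTR : T_TR) (hSH : T_SH) (hANG : T_ANG) : T_LL0 := by
  classical
  obtain ⟨Q, hQ⟩ : ∃ Q : ℕ, 961 * (4 * (961 * 4)) ≤ Q := ⟨_, le_rfl⟩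
  obtain ⟨h, h0, hh⟩ : ∃ h : ℝ, 0 < h ∧ (2 * Q + 2) * h = 3 / 10 :=
    ⟨3 / 10 / (2 * Q + 2), by positivity, by field_simp⟩
  refine ⟨8 / h ^ 2, by positivity, ?_⟩
  intro ι _ X B hB hBm hP hN i j 𝒜 δ hij hij3 hq hi hj hδ
  have hd : 0 < (X j).p - (X i).p := sub_pos.2 hij
  obtain ⟨m, hm, hmd⟩ : ∃ m : ℝ, |m| ≤ 1 ∧ m * ((X j).p - (X i).p) = (X j).q - (X i).q :=
    ⟨((X j).q - (X i).q) / ((X j).p - (X i).p), by
      rw [abs_div, abs_of_pos hd, div_le_one hd]; exact hq, div_mul_cancel₀ _ hd.ne'⟩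
  set Ω := Om X B ∩ win (X i).p (X i).q 4 ∩ win (X j).p (X j).q 4 with hΩ
  have hΩm : MeasurableSet Ω :=
    ((measurableSet_Om X hBm).inter (measurableSet_win _ _ _)).inter (measurableSet_win _ _ _)
  have hΩf : volume Ω ≠ ⊤ := measure_ne_top_of_subset inter_subset_right (volume_win_ne_top _ _ _)
  set T : Finset ι := Finset.univ.filter fun k => ((X k).p, (X k).q) ∈ win (X i).p (X i).q 5
    with hT
  have hTc : T.card ≤ 961 := by
    have := hNB ι X B hP hN ((X i).p - 5) ((X i).q - 5) 10 10 T (by norm_num) (by norm_num)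
      fun k hk => by
        obtain ⟨a1, a2⟩ := (Finset.mem_filter.1 hk).2
        rw [abs_le] at a1 a2
        exact ⟨by linarith [a1.1], by linarith [a1.2], by linarith [a2.1], by linarith [a2.2]⟩
    norm_num at this
    exact_mod_cast this
  choose n1 n2 kk hn hside using fun k => (X k).side
  have key : ∀ r : Fin (Q + 1), ∃ (v α β : ℝ) (k l : ι) (e e' : Fin 4),
      (X i).q - m * (X i).p + 2 * (r : ℕ) * h ≤ v ∧
      v ≤ (X i).q - m * (X i).p + 2 * (r : ℕ) * h + h ∧ k ∈ 𝒜 ∧ l ∉ 𝒜 ∧ k ∈ T ∧ l ∈ T ∧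
      |α - β| ≤ volume.real Ω / h ∧ n1 k e * α + n2 k e * (v + m * α) = kk k e ∧
      n1 l e' * β + n2 l e' * (v + m * β) = kk l e' := by
    intro r
    obtain ⟨v, ⟨v1, v2⟩, hv⟩ := hSH Ω m ((X i).q - m * (X i).p + 2 * (r : ℕ) * h)
      ((X i).q - m * (X i).p + 2 * (r : ℕ) * h + h) hΩm (lt_add_of_pos_right _ h0)
    rw [add_sub_cancel_left] at hv
    have r0 : 0 ≤ ((r : ℕ) : ℝ) * h := by positivity
    have r1 : ((r : ℕ) : ℝ) * h ≤ Q * h :=
      mul_le_mul_of_nonneg_right (Nat.cast_le.2 (Nat.lt_succ_iff.1 r.2)) h0.le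
    have u0 : 0 ≤ v - ((X i).q - m * (X i).p) := by linarith
    have u1 : v - ((X i).q - m * (X i).p) ≤ 3 / 10 := by linarith
    have o1 : ((X i).p, v + m * (X i).p) ∈ (X i).op := (X i).mem_op_of_l1 (by
      rw [sub_self, abs_zero, zero_add, abs_of_nonneg (by linarith)]
      linarith [(hN i).1])
    have o2 : ((X j).p, v + m * (X j).p) ∈ (X j).op := (X j).mem_op_of_l1 (by
      rw [sub_self, abs_zero, zero_add, abs_of_nonneg (by linarith)]
      linarith [(hN j).1])
    have w1 : ∀ x, (X i).p ≤ x → x ≤ (X j).p → (x, v + m * x) ∈ win (X i).p (X i).q 4 :=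
      fun x a1 a2 => inwin hm (abs_le.2 ⟨by linarith, by linarith⟩) u0 u1 (by ring)
    have w2 : ∀ x, (X i).p ≤ x → x ≤ (X j).p → (x, v + m * x) ∈ win (X j).p (X j).q 4 :=
      fun x a1 a2 => inwin hm (abs_le.2 ⟨by linarith, by linarith⟩) u0 u1 (by linarith)
    obtain ⟨k, hk, l, hl, α, β, b1, b2, b3, b4, b5, b6⟩ := hTR ι X B hP hN 𝒜 i j v m _ _ hi hj
      hij.le o1 o2 (seg hB hij (hP.1 i ((X i).op_subset_cl o1)) (hP.1 j ((X j).op_subset_cl o2)))
    obtain ⟨e, he⟩ := hside k _ b4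
    obtain ⟨e', he'⟩ := hside l _ b5
    exact ⟨v, α, β, k, l, e, e', v1, v2, hk, hl,
      Finset.mem_filter.2 ⟨Finset.mem_univ _, centre (hN.hi_le k) b4.1 (w1 α b1 (b2.trans b3))⟩,
      Finset.mem_filter.2 ⟨Finset.mem_univ _, centre (hN.hi_le l) b5.1 (w1 β (b1.trans b2) b3)⟩,
      len hΩf h0 b2 hv fun x hx => ⟨⟨b6 x hx, w1 x (b1.trans hx.1.le) (hx.2.le.trans b3)⟩,
        w2 x (b1.trans hx.1.le) (hx.2.le.trans b3)⟩, he, he'⟩
  choose v α β k l e e' c1 c2 c3 c4 c5 c6 c7 c8 c9 using key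
  obtain ⟨r, -, r', -, hne, heq⟩ := Finset.exists_ne_map_eq_of_card_lt_of_maps_to
    (s := Finset.univ) (t := T ×ˢ Finset.univ ×ˢ T ×ˢ Finset.univ)
    (f := fun r : Fin (Q + 1) => (k r, e r, l r, e' r)) (by
      simp only [Finset.card_product, Finset.card_univ, Fintype.card_fin]
      exact Nat.lt_succ_of_le ((Nat.mul_le_mul hTc (Nat.mul_le_mul_left _
        (Nat.mul_le_mul_right _ hTc))).trans hQ))
    (fun r _ => by simp only [Finset.coe_product, Finset.coe_univ, mem_prod, mem_univ,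
      Finset.mem_coe, c5, c6, and_self])
  simp only [Prod.mk.injEq] at heq
  obtain ⟨e1, e2, e3, e4⟩ := heq
  have hs : h ≤ |v r' - v r| := by
    rcases lt_or_gt_of_ne hne with a | a
    · exact (sep h0 a (c2 r) (c1 r')).trans (le_abs_self _)
    · rw [abs_sub_comm]
      exact (sep h0 a (c2 r') (c1 r)).trans (le_abs_self _)
  have fin := hANG (n1 (k r) (e r)) (n2 (k r) (e r)) (n1 (l r) (e' r)) (n2 (l r) (e' r)) m (v r)
    (v r') (α r) (β r) (α r') (β r') h _ (hn _ _).1 (hn _ _).1 hm h0.le hs (c7 r) (c7 r')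
    (by rw [c8, e1, e2, c8]) (by rw [c9, e3, e4, c9])
  rw [(hn _ _).2, (hn _ _).2, ← le_div_iff₀ h0] at fin
  refine ((hδ _ (c3 r) _ (c4 r) (Finset.mem_filter.1 (c5 r)).2
    (Finset.mem_filter.1 (c6 r)).2).trans fin).trans_eq ?_
  field_simp

end Pool.Agent.P.MP_8eee4e_co.Ex

end

section
/-! The local lemma for two squares whose centres are joined by a flat segment. -/


open MeasureTheory Set

namespace Pool.Agent.P.MP_8eee4e_co.Ex

namespace LL1x

/-- At most `961` centres lie in a window of radius `5`. -/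
lemma exists_T (hNB : T_NB) {ι : Type} [Fintype ι] (X : ι → Sq) (B : Set (ℝ × ℝ))
    (hP : Pack X B) (hN : Near X) (p q : ℝ) :
    ∃ T : Finset ι, T.card < 962 ∧ ∀ k, ((X k).p, (X k).q) ∈ win p q 5 → k ∈ T := by
  classical
  refine ⟨Finset.univ.filter (fun k => ((X k).p, (X k).q) ∈ win p q 5), ?_, ?_⟩
  · have h := hNB ι X B hP hN (p - 5) (q - 5) 10 10
      (Finset.univ.filter (fun k => ((X k).p, (X k).q) ∈ win p q 5)) (by norm_num) (by norm_num)
      (by
        intro i hi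
        have h1 := (Finset.mem_filter.1 hi).2
        obtain ⟨h2, h3⟩ := h1
        simp only [abs_le] at h2 h3
        refine ⟨?_, ?_, ?_, ?_⟩ <;> linarith [h2.1, h2.2, h3.1, h3.2])
    have h2 : ((Finset.univ.filter (fun k => ((X k).p, (X k).q) ∈ win p q 5)).card : ℝ) <
        (962 : ℕ) := by
      push_cast
      linarith
    exact_mod_cast h2
  · intro k hk
    exact Finset.mem_filter.2 ⟨Finset.mem_univ _, hk⟩

/-- Two squares of a packing with the same centre coincide. -/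
lemma eq_of_centre {ι : Type} (X : ι → Sq) (B : Set (ℝ × ℝ)) (hP : Pack X B) (hN : Near X)
    (i j : ι) (hp : (X j).p = (X i).p) (hq : (X j).q = (X i).q) : i = j := by
  by_contra hij
  have hd := hP.2 i j hij
  have h1 : ((X i).p, (X i).q) ∈ (X i).op := by
    apply Sq.mem_op_of_l1
    have := (hN i).1
    simp only [sub_self, abs_zero]
    linarith
  have h2 : ((X i).p, (X i).q) ∈ (X j).op := by
    apply Sq.mem_op_of_l1
    have := (hN j).1
    rw [hp, hq]
    simp only [sub_self, abs_zero]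
    linarith
  exact Set.disjoint_left.1 hd h1 h2

end LL1x

theorem p_LL1 (hNB : T_NB) (hGAP : T_GAP) (hLL0 : T_LL0) : T_LL1 := by
  obtain ⟨C, hC, hL⟩ := hLL0
  refine ⟨962 * C, by positivity, ?_⟩
  intro ι _ X B hconv hmeas hP hN i j hp hq
  have hV : 0 ≤ volume.real (Om X B ∩ win (X i).p (X i).q 4 ∩ win (X j).p (X j).q 4) :=
    measureReal_nonneg
  have hle : (X i).p ≤ (X j).p := by
    have := abs_nonneg ((X j).q - (X i).q)
    linarith
  rcases hle.eq_or_lt with he | hlt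
  · have hq0 : (X j).q = (X i).q := by
      have h0 : |(X j).q - (X i).q| ≤ 0 := by linarith
      have := abs_nonpos_iff.1 h0
      linarith
    have hij := LL1x.eq_of_centre X B hP hN i j he.symm hq0
    subst hij
    simp only [sub_self, abs_zero]
    positivity
  obtain ⟨T, hT, hTm⟩ := LL1x.exists_T hNB X B hP hN (X i).p (X i).q
  rcases lt_trichotomy (X i).psi (X j).psi with h | h | h
  · obtain ⟨θ, h1, h2, h3⟩ := hGAP ι (fun k => (X k).psi) T 962 _ _ h hT
    have hd : 0 < ((X j).psi - (X i).psi) / ((962 : ℕ) : ℝ) := by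
      apply div_pos (by linarith) (by norm_num)
    have key := hL ι X B hconv hmeas hP hN i j {k | (X k).psi ≤ θ}
      (((X j).psi - (X i).psi) / ((962 : ℕ) : ℝ)) hlt hp hq h1
      (by
        simp only [mem_ofPred_eq, not_le]
        linarith)
      (by
        intro k hk l hl _ hlw
        simp only [mem_ofPred_eq, not_le] at hk hl
        rcases h3 l (hTm l hlw) with h4 | h4
        · exact absurd h4 (not_le.2 hl)
        · rw [abs_sub_comm]
          refine le_trans ?_ (le_abs_self _)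
          linarith)
    rw [abs_sub_comm, abs_of_pos (by linarith)]
    push_cast at key
    linarith
  · rw [h]
    simp only [sub_self, abs_zero]
    positivity
  · obtain ⟨θ, h1, h2, h3⟩ := hGAP ι (fun k => (X k).psi) T 962 _ _ h hT
    have hd : 0 < ((X i).psi - (X j).psi) / ((962 : ℕ) : ℝ) := by
      apply div_pos (by linarith) (by norm_num)
    have key := hL ι X B hconv hmeas hP hN i j {k | θ < (X k).psi}
      (((X i).psi - (X j).psi) / ((962 : ℕ) : ℝ)) hlt hp hq
      (by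
        simp only [mem_ofPred_eq]
        linarith)
      (by
        simp only [mem_ofPred_eq, not_lt]
        exact h1)
      (by
        intro k hk l hl hkw _
        simp only [mem_ofPred_eq, not_lt] at hk hl
        rcases h3 k (hTm k hkw) with h4 | h4
        · exact absurd h4 (not_le.2 hk)
        · refine le_trans ?_ (le_abs_self _)
          linarith)
    rw [abs_of_pos (by linarith)]
    push_cast at key
    linarith

end Pool.Agent.P.MP_8eee4e_co.Ex

end

section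
open MeasureTheory Set

namespace Pool.Agent.P.MP_8eee4e_co.Ex

theorem p_LL (hLL1 : T_LL1) : T_LL := by
  obtain ⟨C, hC, h⟩ := hLL1
  have key : ∀ (ι : Type) [Fintype ι] (X : ι → Sq) (B : Set (ℝ × ℝ)),
      Convex ℝ B → MeasurableSet B → Pack X B → Near X → ∀ i j : ι,
      |(X j).p - (X i).p| ≤ 3 → |(X j).q - (X i).q| ≤ |(X j).p - (X i).p| →
      |(X i).psi - (X j).psi| ≤ C * volume.real (Om X B ∩ win (X i).p (X i).q 4) := by
    intro ι _ X B hB hm hP hN i j h1 h2
    have hfin : volume (Om X B ∩ win (X i).p (X i).q 4) ≠ ⊤ :=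
      ne_top_of_le_ne_top (volume_win_ne_top _ _ _) (measure_mono inter_subset_right)
    rcases le_total 0 ((X j).p - (X i).p) with h3 | h3
    · rw [abs_of_nonneg h3] at h1 h2
      refine (h ι X B hB hm hP hN i j (by linarith) h2).trans ?_
      exact mul_le_mul_of_nonneg_left (measureReal_mono inter_subset_left hfin) hC
    · rw [abs_of_nonpos h3] at h1 h2
      rw [abs_sub_comm] at h2 ⊢
      refine (h ι X B hB hm hP hN j i (by linarith) (by linarith)).trans ?_
      exact mul_le_mul_of_nonneg_left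
        (measureReal_mono (inter_subset_inter_left _ inter_subset_left) hfin) hC
  refine ⟨C, hC, fun ι _ X B hB hm hP hN i j h1 h2 => ?_⟩
  rcases le_total |(X j).q - (X i).q| |(X j).p - (X i).p| with h3 | h3
  · exact key ι X B hB hm hP hN i j h1 h3
  · have h4 := key ι (fun i => (X i).swap) (Prod.swap ⁻¹' B)
      (hB.linear_preimage (LinearEquiv.prodComm ℝ ℝ ℝ).toLinearMap) (measurable_swap hm) hP.swap
      hN i j h2 h3
    have e : win (X i).q (X i).p 4 = Prod.swap ⁻¹' win (X i).p (X i).q 4 := by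
      ext z
      exact and_comm
    simp only [Sq.swap_psi, Sq.swap_p, Sq.swap_q, Om_swap] at h4
    rwa [e, ← preimage_inter, measureReal_def, volume_swap] at h4

end Pool.Agent.P.MP_8eee4e_co.Ex

end

section
/-! A row of unit squares below the box. -/


open MeasureTheory Set

namespace Pool.Agent.P.MP_8eee4e_co.Ex

namespace EXTx

/-- the unit square below the interval `[k, k + 1]` -/
noncomputable def Y (k : ℕ) : Sq := ⟨k + 1 / 2, -1 / 2, 1, 1, 0, by norm_num, by norm_num⟩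

lemma cl (k : ℕ) (z : ℝ × ℝ) :
    z ∈ (Y k).cl ↔ (k ≤ z.1 ∧ z.1 ≤ k + 1) ∧ -1 ≤ z.2 ∧ z.2 ≤ 0 := by
  simp only [Sq.cl, Y, mem_ofPred_eq, mul_one, mul_zero, add_zero, sub_zero, abs_le]
  constructor <;> rintro ⟨⟨h1, h2⟩, h3, h4⟩ <;> refine ⟨⟨?_, ?_⟩, ?_, ?_⟩ <;> linarith

lemma op (k : ℕ) {z : ℝ × ℝ} (h : z ∈ (Y k).op) : (k < z.1 ∧ z.1 < k + 1) ∧ z.2 < 0 := by
  simp only [Sq.op, Y, mem_ofPred_eq, mul_one, mul_zero, add_zero, sub_zero, abs_lt] at h
  obtain ⟨⟨h1, h2⟩, h3, h4⟩ := h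
  refine ⟨⟨?_, ?_⟩, ?_⟩ <;> linarith

lemma ex {K : ℕ} (hK : 1 ≤ K) {x : ℝ} (hx : x ∈ Icc (0 : ℝ) K) :
    ∃ k : Fin K, (k : ℕ) ≤ x ∧ x ≤ (k : ℕ) + 1 := by
  rcases hx.2.lt_or_eq with h | h
  · exact ⟨⟨⌊x⌋₊, (Nat.floor_lt hx.1).2 h⟩, Nat.floor_le hx.1, (Nat.lt_floor_add_one x).le⟩
  · refine ⟨⟨K - 1, by omega⟩, ?_⟩
    rw [h, Nat.cast_pred hK]
    constructor <;> linarith

end EXTx

open EXTx in
theorem p_EXT : T_EXT := by
  intro n K X hK hP hN
  have hd : ∀ (i : Fin n) (k : Fin K), Disjoint (X i).op (Y k).op := fun i k =>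
    Set.disjoint_left.2 fun z h1 h2 =>
      (op k h2).2.not_ge (hP.1 i ((X i).op_subset_cl h1)).2.1
  refine ⟨fun k => Y k, ⟨?_, ?_⟩, ?_, ?_, fun x hx => ?_⟩
  · rintro (i | k) z hz
    · obtain ⟨h1, h2, h3⟩ := hP.1 i hz
      exact ⟨h1, by linarith, h3⟩
    · obtain ⟨⟨h1, h2⟩, h3, h4⟩ := (cl k z).1 hz
      have h5 : ((k : ℕ) : ℝ) + 1 ≤ K := by exact_mod_cast k.2
      exact ⟨⟨(Nat.cast_nonneg _).trans h1, h2.trans h5⟩, h3, h4.trans (Nat.cast_nonneg _)⟩
  · rintro (i | k) (j | l) h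
    · exact hP.2 i j fun e => h (e ▸ rfl)
    · exact hd i l
    · exact (hd j k).symm
    · refine Set.disjoint_left.2 fun z h1 h2 => h (congrArg _ (Fin.ext ?_))
      obtain ⟨⟨a1, a2⟩, -⟩ := op k h1
      obtain ⟨⟨b1, b2⟩, -⟩ := op l h2
      have c1 : (k : ℕ) < l + 1 := by exact_mod_cast a1.trans b2
      have c2 : (l : ℕ) < k + 1 := by exact_mod_cast b1.trans a2
      omega
  · rintro (i | k)
    · exact hN i
    · constructor <;> norm_num [Y]
  · rintro z ⟨⟨h1, h2, h3⟩, h4⟩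
    simp only [mem_iUnion, not_exists] at h4
    refine ⟨⟨h1, not_lt.1 fun h => ?_, h3⟩, fun h => ?_⟩
    · obtain ⟨k, hk⟩ := ex hK h1
      exact h4 (.inr k) ((cl k z).2 ⟨hk, h2, h.le⟩)
    · obtain ⟨i, hi⟩ := mem_iUnion.1 h
      exact h4 (.inl i) hi
  · obtain ⟨k, h1, h2⟩ := ex hK hx
    refine ⟨k, by simp [Sq.psi, Y], ?_, rfl⟩
    simp only [Y, abs_le]
    constructor <;> linarith

end Pool.Agent.P.MP_8eee4e_co.Ex

end

section
/-! Step CH: the tilt of a square is bounded by the uncovered area of a vertical strip. -/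


open MeasureTheory Set

namespace Pool.Agent.P.MP_8eee4e_co.Ex

namespace CHx

/-- The part of `S` at heights within `5` of `k`. -/
def band (S : Set (ℝ × ℝ)) (k : ℕ) : Set (ℝ × ℝ) := S ∩ {z | |z.2 - k| ≤ 5}

lemma sum_band {S : Set (ℝ × ℝ)} (hS : MeasurableSet S) (hS' : volume S ≠ ⊤) (T : Finset ℕ) :
    ∑ k ∈ T, volume.real (band S k) ≤ 11 * volume.real S := by
  classical
  have h := mult volume T (band S) S ∅ 11
    (fun k _ => hS.inter (measurableSet_le (by fun_prop) measurable_const))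
    (fun k _ => measure_ne_top_of_subset inter_subset_left hS') hS hS' MeasurableSet.empty
    (by simp) fun z => by
      rw [if_neg (notMem_empty z), add_zero]
      split_ifs with hz
      · rw [mul_one]
        refine le_trans (Nat.cast_le.2 (Finset.card_le_card
          (t := Finset.Icc ⌈z.2 - 5⌉₊ (⌈z.2 - 5⌉₊ + 10)) fun k hk => ?_)) (by
            rw [Nat.card_Icc, add_assoc, add_tsub_cancel_left]; norm_num)
        have h1 := abs_le.1 (show |z.2 - k| ≤ 5 from (Finset.mem_filter.1 hk).2.2)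
        have h2 := Nat.le_ceil (z.2 - 5)
        refine Finset.mem_Icc.2 ⟨Nat.ceil_le.2 (by linarith [h1.2]), ?_⟩
        have : (k : ℝ) ≤ (⌈z.2 - 5⌉₊ : ℝ) + 10 := by linarith [h1.1]
        exact_mod_cast this
      · rw [Finset.filter_eq_empty_iff.2 fun k _ hk => hz hk.1]
        simp
  simpa using h

end CHx

open CHx in
theorem p_CH (hLL : T_LL) : T_CH := by
  obtain ⟨C, hC, hLL⟩ := hLL
  refine ⟨max C 7 * 11, by positivity, fun ι _ X K hK hP hN hb i0 => ?_⟩
  obtain ⟨B, hB⟩ : ∃ B, B = Icc (0 : ℝ) K ×ˢ Icc (-1 : ℝ) K := ⟨_, rfl⟩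
  have hBm : MeasurableSet B := hB ▸ measurableSet_Icc.prod measurableSet_Icc
  have hBf : volume B ≠ ⊤ := hB ▸ (isCompact_Icc.prod isCompact_Icc).measure_lt_top.ne
  have hBc : Convex ℝ B := hB ▸ (convex_Icc _ _).prod (convex_Icc _ _)
  have ctr : ∀ i, (X i).p ∈ Icc 0 K ∧ (X i).q ∈ Icc (-1) K := fun i =>
    hP.1 i ((X i).op_subset_cl ((X i).mem_op_of_l1 (x := (X i).p) (y := (X i).q) (by
      have := (hN i).1
      rw [sub_self, sub_self, abs_zero]
      linarith)))
  rw [← hB] at hP ⊢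
  obtain ⟨x, hx⟩ : ∃ x, x = (X i0).p := ⟨_, rfl⟩
  have hx0 : x ∈ Icc 0 K := hx ▸ (ctr i0).1
  rw [← hx]
  obtain ⟨S, hS⟩ : ∃ S, S = Om X B ∩ {z | |z.1 - x| ≤ 5} := ⟨_, rfl⟩
  have hSm : MeasurableSet S :=
    hS ▸ (measurableSet_Om X hBm).inter (measurableSet_le (by fun_prop) measurable_const)
  have hSf : volume S ≠ ⊤ :=
    hS ▸ measure_ne_top_of_subset (inter_subset_left.trans sdiff_subset) hBf
  have hf : ∀ k, volume (band S k) ≠ ⊤ := fun k => measure_ne_top_of_subset inter_subset_left hSf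
  have mem : ∀ (z : ℝ × ℝ) (k : ℕ), z ∈ Om X B → |z.1 - x| ≤ 5 → |z.2 - k| ≤ 5 → z ∈ band S k :=
    fun z k a b c => ⟨hS ▸ ⟨a, b⟩, c⟩
  have memB : ∀ z : ℝ × ℝ, 0 ≤ z.1 → z.1 ≤ K → -1 ≤ z.2 → z.2 ≤ K → z ∈ B :=
    fun z a b c d => hB ▸ ⟨⟨a, b⟩, c, d⟩
  have cmp : ∀ (i j : ι) (k : ℕ), |(X i).p - x| ≤ 1 → |(X j).p - x| ≤ 1 → |(X i).q - k| ≤ 1 →
      |(X j).q - (X i).q| ≤ 3 → (X i).psi ≤ (X j).psi + max C 7 * volume.real (band S k) := by
    intro i j k h1 h2 h3 h4
    rw [abs_le] at h1 h2 h3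
    have h5 := hLL ι X B hBc hBm hP hN i j
      (abs_le.2 ⟨by linarith [h1.2, h2.1], by linarith [h1.1, h2.2]⟩) h4
    have h6 : volume.real (Om X B ∩ win (X i).p (X i).q 4) ≤ volume.real (band S k) := by
      refine measureReal_mono (fun z hz => ?_) (hf k)
      have a1 := abs_le.1 hz.2.1
      have a2 := abs_le.1 hz.2.2
      exact mem z k hz.1 (abs_le.2 ⟨by linarith [a1.1, h1.1], by linarith [a1.2, h1.2]⟩)
        (abs_le.2 ⟨by linarith [a2.1, h3.1], by linarith [a2.2, h3.2]⟩)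
    have h7 := mul_le_mul (le_max_left C 7) h6 measureReal_nonneg (by positivity)
    linarith [le_abs_self ((X i).psi - (X j).psi)]
  have key : ∀ (k : ℕ) (i : ι), |(X i).p - x| ≤ 1 → (X i).q ≤ k + 1 →
      (X i).psi ≤ max C 7 * ∑ k' ∈ Finset.range (k + 1), volume.real (band S k') := by
    intro k
    induction k with
    | zero =>
      intro i h1 h2
      obtain ⟨j, j1, j2, j3⟩ := hb x hx0
      have h3 := (ctr i).2.1
      rw [Nat.cast_zero] at h2
      have := cmp i j 0 h1 j2 (abs_le.2 ⟨by push_cast; linarith, by push_cast; linarith⟩)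
        (abs_le.2 ⟨by linarith, by linarith⟩)
      rwa [j1, zero_add, ← Finset.sum_range_one fun k' => volume.real (band S k')] at this
    | succ k ih =>
      intro i h1 h2
      rw [Finset.sum_range_succ, mul_add]
      have p1 : 0 ≤ max C 7 * volume.real (band S (k + 1)) := by positivity
      have p2 : 0 ≤ max C 7 * ∑ k' ∈ Finset.range (k + 1), volume.real (band S k') := by positivity
      by_cases h3 : (X i).q ≤ k + 1
      · linarith [ih i h1 h3]
      push_cast at h2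
      have h4 := not_le.1 h3
      have h5 := (ctr i).2.2
      have k0 : (0 : ℝ) ≤ k := Nat.cast_nonneg k
      obtain ⟨u, u1, u2, u3, u4⟩ : ∃ u, 0 ≤ u ∧ u + 1 / 5 ≤ K ∧ x - 1 / 5 ≤ u ∧ u ≤ x := by
        by_cases h : x + 1 / 5 ≤ K
        · exact ⟨x, hx0.1, h, by linarith, le_rfl⟩
        · exact ⟨x - 1 / 5, by linarith, by linarith [hx0.2], le_rfl, by linarith⟩
      by_cases h : ∃ z ∈ Icc u (u + 1 / 5) ×ˢ Icc ((k : ℝ) - 1 / 5) (k + 1 / 5), ∃ j, z ∈ (X j).cl
      · obtain ⟨z, ⟨⟨z1, z2⟩, z3, z4⟩, j, hj⟩ := h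
        have a1 := abs_le.1 (((X j).near_of_mem_cl hj).1.trans (hN.hi_le j))
        have a2 := abs_le.1 (((X j).near_of_mem_cl hj).2.trans (hN.hi_le j))
        have a3 : |(X j).p - x| ≤ 1 := abs_le.2 ⟨by linarith [a1.2], by linarith [a1.1]⟩
        have := cmp i j (k + 1) h1 a3 (abs_le.2 ⟨by push_cast; linarith, by push_cast; linarith⟩)
          (abs_le.2 ⟨by linarith [a2.2], by linarith [a2.1]⟩)
        linarith [ih j a3 (by linarith [a2.1])]
      · have a1 : volume.real (Icc u (u + 1 / 5) ×ˢ Icc ((k : ℝ) - 1 / 5) (k + 1 / 5)) ≤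
            volume.real (band S (k + 1)) := by
          refine measureReal_mono (fun z hz => ?_) (hf _)
          obtain ⟨⟨z1, z2⟩, z3, z4⟩ := id hz
          exact mem z _ ⟨memB z (by linarith) (by linarith) (by linarith) (by linarith),
            fun hu => h ⟨z, hz, mem_iUnion.1 hu⟩⟩ (abs_le.2 ⟨by linarith, by linarith⟩)
            (abs_le.2 ⟨by push_cast; linarith, by push_cast; linarith⟩)
        rw [Measure.volume_eq_prod, measureReal_prod_prod, Real.volume_real_Icc_of_le (by linarith),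
          Real.volume_real_Icc_of_le (by linarith), ← Measure.volume_eq_prod] at a1
        have a2 := mul_le_mul_of_nonneg_right (le_max_right C 7)
          (measureReal_nonneg (μ := volume) (s := band S (k + 1)))
        nlinarith [(X i).psi_le]
  obtain ⟨k, hk⟩ := exists_nat_ge (X i0).q
  refine (key k i0 (by simp [hx]) (by linarith)).trans ?_
  rw [← hS, mul_assoc]
  exact mul_le_mul_of_nonneg_left (sum_band hSm hSf _) (by positivity)

end Pool.Agent.P.MP_8eee4e_co.Ex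

end

section
/-! The total tilt in a horizontal band. -/


open MeasureTheory Set

namespace Pool.Agent.P.MP_8eee4e_co.Ex

theorem p_TILT (hNB : T_NB) (hEXT : T_EXT) (hCH : T_CH) : T_TILT := by
  classical
  obtain ⟨C, C0, hC⟩ := hCH
  refine ⟨max 1 (186 * C), le_max_left _ _, fun n K X hK hP hN u L T hL hT => ?_⟩
  obtain ⟨Y, y1, y2, y3, y4⟩ := hEXT n K X hK hP hN
  have m1 := measurableSet_Om X (measurableSet_box K)
  have m2 : volume (Om X (box K)) ≠ ⊤ := measure_ne_top_of_subset sdiff_subset (volume_box_ne_top K)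
  have m3 : ∀ i, volume (Om X (box K) ∩ {z | |z.1 - (X i).p| ≤ 5}) ≠ ⊤ := fun i =>
    measure_ne_top_of_subset inter_subset_left m2
  have h1 : ∀ i, (X i).t ≤ 2 * C * volume.real (Om X (box K) ∩ {z | |z.1 - (X i).p| ≤ 5}) :=
    fun i => by
      have k1 := hC _ (Sum.elim X Y) K (by exact_mod_cast hK) y1 y2
        (fun x hx => (y4 x hx).elim fun k hk => ⟨Sum.inr k, hk⟩) (Sum.inl i)
      have k2 := mul_le_mul_of_nonneg_left
        (measureReal_mono (inter_subset_inter_left {z : ℝ × ℝ | |z.1 - (X i).p| ≤ 5} y3) (m3 i)) C0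
      have k3 := (X i).t_le_psi
      have k4 : (X i).psi ≤ _ := k1.trans k2
      linarith
  have h2 := mult volume T (fun i => Om X (box K) ∩ {z | |z.1 - (X i).p| ≤ 5}) (Om X (box K)) ∅
    (93 * (L + 1))
    (fun i _ => m1.inter (isClosed_le (by fun_prop) continuous_const).measurableSet)
    (fun i _ => m3 i) m1 m2 MeasurableSet.empty (by simp) fun z => by
      by_cases hz : z ∈ Om X (box K)
      · rw [if_pos hz, if_neg (notMem_empty z)]
        refine (hNB _ X _ hP hN (z.1 - 5) u 10 L _ (by norm_num) hL fun i hi => ?_).trans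
          (by linarith)
        simp only [Finset.mem_filter] at hi
        obtain ⟨k1, k2⟩ := hi
        have k3 := abs_le.1 (show |z.1 - (X i).p| ≤ 5 from k2.2)
        exact ⟨by linarith [k3.2], by linarith [k3.1], hT i k1⟩
      · simp [hz]
  rw [measureReal_empty, add_zero] at h2
  have h3 : 0 ≤ volume.real (Om X (box K)) * (L + 1) :=
    mul_nonneg measureReal_nonneg (by linarith)
  refine (Finset.sum_le_sum fun i _ => h1 i).trans ?_
  rw [← Finset.mul_sum, mul_assoc (max _ _)]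
  refine (mul_le_mul_of_nonneg_left h2 (by linarith)).trans
    (le_trans (le_of_eq ?_) (mul_le_mul_of_nonneg_right (le_max_right _ _) h3))
  ring

end Pool.Agent.P.MP_8eee4e_co.Ex

end

section
/-! The one-dimensional data of a packing. -/


open MeasureTheory Set

namespace Pool.Agent.P.MP_8eee4e_co.Ex

namespace DATx

lemma a_le_b (X : Sq) (h0 : 0 ≤ X.a) : X.a ≤ X.b := by
  unfold Sq.b
  rw [le_div_iff₀ X.c_pos]
  exact mul_le_of_le_one_right h0 X.c_le

lemma b_le (X : Sq) (h1 : X.a ≤ 11 / 10) : X.b ≤ X.a + X.t ^ 2 := by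
  have hu := X.sq_abs_unit
  have hc := X.c_ge
  have hc1 := X.c_le
  unfold Sq.b Sq.t
  rw [div_le_iff₀ X.c_pos]
  have ht : |X.s| ^ 2 = (1 - X.c) * (1 + X.c) := by linear_combination hu
  have h2 : X.a ≤ (1 + X.c) * X.c := by nlinarith
  have h3 := mul_le_mul_of_nonneg_left h2 (sub_nonneg.2 hc1)
  rw [ht]
  nlinarith

lemma e_ge (X : Sq) (h1 : X.a ≤ 11 / 10) : X.a - X.t ^ 2 ≤ X.e := by
  have hu := X.sq_abs_unit
  have hc := X.c_ge
  have hc1 := X.c_le
  unfold Sq.e Sq.t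
  have ht : |X.s| ^ 2 = (1 - X.c) * (1 + X.c) := by linear_combination hu
  have h2 : X.a ≤ 1 + X.c := by linarith
  have h3 := mul_le_mul_of_nonneg_left h2 (sub_nonneg.2 hc1)
  rw [ht]
  nlinarith

lemma e_le (X : Sq) (h0 : 0 ≤ X.a) : X.e ≤ X.a := mul_le_of_le_one_right h0 X.c_le

lemma be (X : Sq) : X.b * X.e = X.a ^ 2 := by
  have hc := X.c_pos
  unfold Sq.b Sq.e
  field_simp

lemma lo_le (X : Sq) (h0 : 0 ≤ X.a) : 2 * X.lo ≤ X.a := by
  have hc1 := X.c_le
  have hs := abs_nonneg X.s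
  have h : X.a * (X.c - |X.s|) ≤ X.a := mul_le_of_le_one_right h0 (by linarith)
  unfold Sq.lo
  linarith

lemma le_hi (X : Sq) (h0 : 0 ≤ X.a) : X.a ≤ 2 * X.hi := by
  have hu := X.sq_abs_unit
  have hc := X.c_pos
  have hs := abs_nonneg X.s
  have h1 : 1 ≤ X.c + |X.s| := by
    by_contra hn
    have hn' := not_le.1 hn
    nlinarith [mul_nonneg hc.le hs]
  have h : X.a ≤ X.a * (X.c + |X.s|) := le_mul_of_one_le_right h0 h1
  unfold Sq.hi
  linarith

lemma hi_lo (X : Sq) (h1 : X.a ≤ 11 / 10) : X.hi - X.lo ≤ 2 * X.t := by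
  have hs := abs_nonneg X.s
  have e : X.hi - X.lo = X.a * |X.s| := by unfold Sq.hi Sq.lo; ring
  rw [e]
  unfold Sq.t
  nlinarith

/-- the chord data in the horizontal direction -/
lemma dir (hOM : T_OM) (hPHI : T_PHI) (hFIT : T_FIT) {C : ℝ} (hC : 1 ≤ C)
    (hT : ∀ (n K : ℕ) (X : Fin n → Sq), 1 ≤ K → Pack X (box K) → Near X →
      ∀ (u L : ℝ) (T : Finset (Fin n)), 0 ≤ L → (∀ i ∈ T, u ≤ (X i).q ∧ (X i).q ≤ u + L) →
      ∑ i ∈ T, (X i).t ≤ C * volume.real (Om X (box K)) * (L + 1))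
    {n K : ℕ} (X : Fin n → Sq) (hK : 1 ≤ K) (hP : Pack X (box K)) (hN : Near X) :
    IsDir K (C * ((K : ℝ) ^ 2 - ∑ i, (X i).a ^ 2)) (fun i => (X i).b) (fun i => (X i).e)
      (fun i => (X i).t) (fun i => (X i).lo) (fun i => (X i).hi) (fun i => (X i).q)
      (fun i => (X i).phi) := by
  have ha : ∀ i, 0 < (X i).a := fun i => by have := (hN i).1; linarith
  have hφ := fun i => hPHI (X i) (ha i) (hN i).2
  have hK0 : (0 : ℝ) ≤ K := Nat.cast_nonneg K
  obtain ⟨hf1, hf2⟩ := hFIT n X K hK0 hP hN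
  have hW := hOM n X K hK0 hP fun i => (ha i).le
  exact
    { meas := fun i => (hφ i).1
      intg := fun i => (hφ i).2.1
      nonneg := fun i => (hφ i).2.2.1
      le_one := fun i => (hφ i).2.2.2.1
      one := fun i => (hφ i).2.2.2.2.1
      zero := fun i => (hφ i).2.2.2.2.2.1
      total := fun i => (hφ i).2.2.2.2.2.2
      fit := hf1
      low := fun i => (hf2 i).1
      high := fun i => (hf2 i).2
      tilt := fun u L T hL h => (hT n K X hK hP hN u L T hL h).trans
        (mul_le_mul_of_nonneg_right (mul_le_mul_of_nonneg_left hW (by linarith)) (by linarith)) }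

end DATx

theorem p_DAT (hOM : T_OM) (hPHI : T_PHI) (hFIT : T_FIT) (hSTK : T_STK) (hTILT : T_TILT) :
    T_DAT := by
  obtain ⟨C, hC, hT⟩ := hTILT
  refine ⟨C, hC, fun n K X hK hP hN => ?_⟩
  have ha : ∀ i, 0 ≤ (X i).a := fun i => by have := (hN i).1; linarith
  have hP' : Pack (fun i => (X i).swap) (box K) := by
    have := hP.swap
    rwa [box_swap] at this
  have hN' : Near fun i => (X i).swap := hN
  have hH := DATx.dir hOM hPHI hFIT hC hT X hK hP hN
  have hV := DATx.dir hOM hPHI hFIT hC hT (fun i => (X i).swap) hK hP' hN'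
  have sH := hSTK n X K hP hN
  have sV := hSTK n (fun i => (X i).swap) K hP' hN'
  simp only [Sq.swap_a, Sq.swap_b, Sq.swap_e, Sq.swap_t, Sq.swap_lo, Sq.swap_hi, Sq.swap_p,
    Sq.swap_q] at hV sV
  refine ⟨{ a := fun i => (X i).a
            b := fun i => (X i).b
            e := fun i => (X i).e
            t := fun i => (X i).t
            lo := fun i => (X i).lo
            hi := fun i => (X i).hi
            p := fun i => (X i).p
            q := fun i => (X i).q
            f := fun i => (X i).phi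
            g := fun i => (X i).swap.phi
            a_lo := fun i => (hN i).1
            a_hi := fun i => (hN i).2
            t0 := fun i => (X i).t_nonneg
            a_le_b := fun i => DATx.a_le_b _ (ha i)
            b_le := fun i => DATx.b_le _ (hN i).2
            e_ge := fun i => DATx.e_ge _ (hN i).2
            e_le := fun i => DATx.e_le _ (ha i)
            be := fun i => DATx.be _
            lo_le := fun i => DATx.lo_le _ (ha i)
            le_hi := fun i => DATx.le_hi _ (ha i)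
            hi_lo := fun i => DATx.hi_lo _ (hN i).2
            hi_le := fun i => (hN.hi_le i).trans (by norm_num)
            H := hH
            V := hV
            cross := ?_
            sH := sH
            sV := sV }, rfl⟩
  intro x y i j h1 h2 h3 h4
  by_contra hij
  exact Set.disjoint_left.1 (hP.2 i j hij)
    ((X i).mem_op_of_lo (mem_line.1 h2) (mem_line.1 h1))
    ((X j).mem_op_of_lo (mem_line.1 h4) (mem_line.1 h3))

end Pool.Agent.P.MP_8eee4e_co.Ex

end
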