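import Pool.Agent.P.MP_8eee4e_co.Ex.Iface

/-! Assembly of the steps. -/

set_option autoImplicit false

open MeasureTheory Set

namespace Pool.Agent.P.MP_8eee4e_co.Ex

theorem goal_of_hyp (hB : T_B) (hC : T_C) (hCNT : T_CNT) (hFM : T_FM) (hFP : T_FP)
    {n K : ℕ} {τ : ℝ} {D : Dat n K τ} {σ C γ : ℝ} (h : Hyp D σ C γ) : D.Goal σ := by
  obtain ⟨y0, hy1, hy2, hy3⟩ := hB n K τ D σ C γ h
  obtain ⟨x0, hx1, hx2, hx3⟩ := hB n K τ D.swap σ C γ h.swap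
  obtain ⟨d, hd⟩ := hC n K τ D σ C γ h x0 y0 hy1 hy2 hy3 hx1 hx2 hx3
  by_cases h1 : Sys D σ
  · have h2 : ¬ Sys D.swap σ := fun h2 => hCNT n K τ D σ C γ h h1 h2
    rcases h.sgn with rfl | rfl
    · exact hFM n K τ D.swap C γ y0 x0 d h.swap hd.swap h2
    · exact hFP n K τ D.swap C γ y0 x0 d h.swap hd.swap h2
  · rcases h.sgn with rfl | rfl
    · exact hFM n K τ D C γ x0 y0 d h hd h1
    · exact hFP n K τ D C γ x0 y0 d h hd h1

theorem not_hyp (hB : T_B) (hC : T_C) (hCNT : T_CNT) (hFM : T_FM) (hFP : T_FP)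
    {n K : ℕ} {τ : ℝ} {D : Dat n K τ} {σ C γ : ℝ} (h : Hyp D σ C γ) : False := by
  obtain ⟨R, hR, hs⟩ := goal_of_hyp hB hC hCNT hFM hFP h
  have h1 := h.ident R hR
  have hK := h.K_ge
  have hk := h.kap_ge
  have hm : (0 : ℝ) < K + σ - 1 := by linarith
  have h2 : 0 ≤ ∑ i ∈ R, (D.a i - 1) ^ 2 := Finset.sum_nonneg fun _ _ => sq_nonneg _
  have h3 : 0 ≤ ∑ i ∈ Rᶜ, (D.a i - sm K σ) ^ 2 := Finset.sum_nonneg fun _ _ => sq_nonneg _
  have h4 : 0 < sm K σ := div_pos (by linarith) hm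
  have h5 : 0 < 2 * sm K σ * D.ex σ := by have := h.big; positivity
  have h6 : 2 * σ / (K + σ - 1) * (2 * K - 1 - ∑ i ∈ R, D.a i) ≤ D.W := by
    rw [div_mul_eq_mul_div, div_le_iff₀ hm]
    have := h.W0
    nlinarith
  linarith

/-- the upper bound for packings of `[0, K]²` -/
theorem upper (hOM : T_OM) (hDAT : T_DAT) (hB : T_B) (hC : T_C) (hCNT : T_CNT) (hFM : T_FM)
    (hFP : T_FP) : ∃ K0 : ℕ, ∀ K : ℕ, K0 ≤ K → ∀ σ : ℝ, (σ = 1 ∨ σ = -1) → ∀ n : ℕ,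
      (n : ℝ) = (K + σ) ^ 2 - 2 * σ → ∀ X : Fin n → Sq, Pack X (box K) → (∀ i, 0 ≤ (X i).a) →
      ∑ i, (X i).a ≤ K * (K + σ) - σ := by
  obtain ⟨C, hC1, hD⟩ := hDAT
  have hC0 : 0 < C := by linarith
  set γ : ℝ := 1 / 10 ^ 4 / C with hγ
  have hγ0 : 0 < γ := by positivity
  obtain ⟨K1, hK1⟩ := exists_nat_ge (100 / γ ^ 2)
  refine ⟨max K1 1000, fun K hK σ hσ n hn X hX ha => ?_⟩
  have hK2 : (1000 : ℝ) ≤ K := by exact_mod_cast (le_max_right _ _).trans hK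
  have hK3 : (K1 : ℝ) ≤ K := by exact_mod_cast (le_max_left _ _).trans hK
  have hK4 : 1000 ≤ K := (le_max_right _ _).trans hK
  by_contra hbig
  rw [not_le] at hbig
  have hW : 0 ≤ (K : ℝ) ^ 2 - ∑ i, (X i).a ^ 2 :=
    measureReal_nonneg.trans (hOM n X K (by linarith) hX ha)
  have hk : (K : ℝ) - 1 ≤ K + σ := by rcases hσ with rfl | rfl <;> linarith
  have hk' : (K : ℝ) + σ ≤ K + 1 := by rcases hσ with rfl | rfl <;> linarith
  have hk0 : (0 : ℝ) < K + σ := by linarith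
  have hl1 : 99 / 100 ≤ lam K σ := by
    unfold lam; rw [le_div_iff₀ hk0]; linarith
  have hl2 : lam K σ ≤ 101 / 100 := by
    unfold lam; rw [div_le_iff₀ hk0]; linarith
  have hap := apr (fun i => (X i).a) hσ (by omega : 2 ≤ K) hn
  have hr : 2 * K / ((K : ℝ) + σ) ^ 2 ≤ 1 / 400 := by
    rw [div_le_iff₀ (by positivity)]
    nlinarith
  have hdev : ∑ i, ((X i).a - lam K σ) ^ 2 ≤ 1 / 400 := by
    have : 0 ≤ 2 * lam K σ * (∑ i, (X i).a - (K * (K + σ) - σ)) :=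
      mul_nonneg (by linarith) (by linarith)
    linarith
  have hN : Near X := fun i => by
    have h1 : ((X i).a - lam K σ) ^ 2 ≤ 1 / 400 :=
      (Finset.single_le_sum (f := fun i => ((X i).a - lam K σ) ^ 2) (fun _ _ => sq_nonneg _)
        (Finset.mem_univ i)).trans hdev
    constructor <;> nlinarith
  obtain ⟨D, hDa⟩ := hD n K X (by omega) hX hN
  have hDW : D.W = (K : ℝ) ^ 2 - ∑ i, (X i).a ^ 2 := by simp only [Dat.W, hDa]
  refine not_hyp hB hC hCNT hFM hFP (D := D) (σ := σ) (C := C) (γ := γ)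
    ⟨hσ, hn, ?_, hW.trans_eq hDW.symm, by rw [hDW], hC1, hγ0, ?_, ?_⟩
  · simp only [Dat.ex, Dat.S, hDa]; linarith
  · rw [hγ]; field_simp; rfl
  · have := hK1.trans hK3
    rw [div_le_iff₀ (by positivity)] at this
    linarith

theorem final (hRED : T_RED) (hTIL : T_TIL) (hOM : T_OM) (hDAT : T_DAT) (hB : T_B) (hC : T_C)
    (hCNT : T_CNT) (hFM : T_FM) (hFP : T_FP) :
    ∃ N0 : ℕ, ∀ N : ℕ, N0 ≤ N → ∀ ε : ℤ, (ε = 1 ∨ ε = -1) → ∀ r : ℕ, (r : ℤ) = N ^ 2 + 2 * ε →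
      f r = N + ε / (N + ε) ∧ ∃ S : Fin r → Square, Tiles S ∧ ∑ i, (S i).a = f r := by
  obtain ⟨K0, hK0⟩ := upper hOM hDAT hB hC hCNT hFM hFP
  refine ⟨K0 + 3, fun N hN ε hε r hr => ?_⟩
  obtain ⟨K, hK⟩ : ∃ K : ℕ, (K : ℤ) = N + ε := ⟨(N + ε).toNat, Int.toNat_of_nonneg (by omega)⟩
  obtain ⟨m, hm⟩ : ∃ m : ℕ, N = m + 1 := ⟨N - 1, by omega⟩
  have hKr : (K : ℝ) = N + ε := by exact_mod_cast hK
  have hrr : (r : ℝ) = N ^ 2 + 2 * ε := by exact_mod_cast hr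
  have hmr : (N : ℝ) = m + 1 := by exact_mod_cast hm
  have hK2 : 2 ≤ K := by omega
  have hKp : (0 : ℝ) < K := by exact_mod_cast (by omega : 0 < K)
  have hval : ∀ x : ℝ, K * x = K * N + ε → x = N + ε / (N + ε) := fun x hx => by
    rw [← hKr]; field_simp; linarith
  obtain ⟨S, hS, hsum⟩ := hTIL K m r hK2 (by omega) (by
    have : (r : ℤ) + 1 = (m : ℤ) ^ 2 + 2 * K := by rw [hr, hK, hm]; push_cast; ring
    exact_mod_cast this)
  have hsum' : ∑ i, (S i).a = N + ε / (N + ε) := hval _ (by rw [hsum, hKr, hmr]; ring)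
  have hf : f r = N + ε / (N + ε) := by
    refine IsGreatest.csSup_eq ⟨⟨S, hS.1, hsum'⟩, ?_⟩
    rintro _ ⟨S', hS', rfl⟩
    obtain ⟨X, hX, ha⟩ := hRED r S' K hKp hS'
    have h1 := hK0 K (by omega) (-ε) (by rcases hε with rfl | rfl <;> simp) r
      (by rw [hrr, hKr]; ring) X hX fun i => by rw [ha]; exact mul_nonneg hKp.le (S' i).nonneg
    simp only [ha, ← Finset.mul_sum] at h1
    have h2 : (K : ℝ) * (N + ε / (N + ε)) = K * (K + -ε) - -ε := by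
      rw [← hKr]; field_simp; rw [hKr]; ring
    exact le_of_mul_le_mul_left (h1.trans_eq h2.symm) hKp
  exact ⟨hf, S, hS, hsum'.trans hf.symm⟩

end Pool.Agent.P.MP_8eee4e_co.Ex
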