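import Pool.Agent.P.MP_8eee4e_co.Ex.GeoA
import Pool.Agent.P.MP_8eee4e_co.Ex.GeoB
import Pool.Agent.P.MP_8eee4e_co.Ex.AnaA
import Pool.Agent.P.MP_8eee4e_co.Ex.AnaB
import Pool.Agent.P.MP_8eee4e_co.Ex.AnaC
import Pool.Agent.P.MP_8eee4e_co.Ex.Top

/-! All steps together. -/

set_option autoImplicit false

namespace Pool.Agent.P.MP_8eee4e_co.Ex

theorem got_RED : T_RED := p_RED
theorem got_TIL : T_TIL := p_TIL
theorem got_AREA : T_AREA := p_AREA
theorem got_OM : T_OM := p_OM got_AREA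
theorem got_PHI : T_PHI := p_PHI got_AREA
theorem got_FIT : T_FIT := p_FIT
theorem got_STK : T_STK := p_STK
theorem got_NB : T_NB := p_NB
theorem got_TR : T_TR := p_TR
theorem got_SH : T_SH := p_SH
theorem got_ANG : T_ANG := p_ANG
theorem got_GAP : T_GAP := p_GAP
theorem got_LL0 : T_LL0 := p_LL0 got_NB got_TR got_SH got_ANG
theorem got_LL1 : T_LL1 := p_LL1 got_NB got_GAP got_LL0
theorem got_LL : T_LL := p_LL got_LL1
theorem got_EXT : T_EXT := p_EXT
theorem got_CH : T_CH := p_CH got_LL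
theorem got_TILT : T_TILT := p_TILT got_NB got_EXT got_CH
theorem got_DAT : T_DAT := p_DAT got_OM got_PHI got_FIT got_STK got_TILT
theorem got_IMP : T_IMP := p_IMP
theorem got_MK : T_MK := p_MK
theorem got_INT : T_INT := p_INT got_IMP got_MK
theorem got_B0 : T_B0 := p_B0
theorem got_B : T_B := p_B got_MK got_INT got_B0
theorem got_C : T_C := p_C
theorem got_A1 : T_A1 := p_A1
theorem got_A2 : T_A2 := p_A2 got_A1
theorem got_A3 : T_A3 := p_A3 got_IMP got_MK got_A1
theorem got_A4 : T_A4 := p_A4 got_IMP got_A3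
theorem got_A5 : T_A5 := p_A5 got_INT got_B0 got_A1
theorem got_CNT : T_CNT := p_CNT
theorem got_COV : T_COV := p_COV
theorem got_PRC : T_PRC := p_PRC
theorem got_FM1 : T_FM1 := p_FM1 got_COV
theorem got_FM3 : T_FM3 := p_FM3 got_IMP got_MK got_A1 got_A2 got_A5
theorem got_FM : T_FM := p_FM got_IMP got_MK got_A1 got_A4 got_A5 got_FM1 got_FM3
theorem got_NP : T_NP := p_NP got_IMP got_MK got_A1
theorem got_IND : T_IND := p_IND got_NP
theorem got_FP1 : T_FP1 := p_FP1 got_NP got_PRC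
theorem got_FP2 : T_FP2 := p_FP2 got_NP got_IND
theorem got_FP3 : T_FP3 := p_FP3 got_A2 got_A5
theorem got_FP : T_FP := p_FP got_MK got_A4 got_NP got_IND got_FP1 got_FP2 got_FP3

end Pool.Agent.P.MP_8eee4e_co.Ex
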