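import Mathlib

/-! Configurations of squares in the unit square. -/

set_option autoImplicit false

namespace Pool.Agent.P.MP_8eee4e_co.Ex

/-- A square in the plane, in any position and orientation: one corner `(x, y)`, a unit vector
`(c, s)` along one side, and the side length `a ≥ 0`. -/
structure Square where
  x : ℝ
  y : ℝ
  c : ℝ
  s : ℝ
  a : ℝ
  unit : c ^ 2 + s ^ 2 = 1
  nonneg : 0 ≤ a

/-- The closed square: all points `(x, y) + α (c, s) + β (-s, c)` with `α, β ∈ [0, a]`. -/
def Square.set (S : Square) : Set (ℝ × ℝ) :=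
  {p | ∃ α ∈ Set.Icc 0 S.a, ∃ β ∈ Set.Icc 0 S.a,
    p = (S.x + α * S.c - β * S.s, S.y + α * S.s + β * S.c)}

/-- The closed unit square. -/
def U : Set (ℝ × ℝ) := Set.Icc 0 1 ×ˢ Set.Icc 0 1

/-- A configuration: squares inside `U` with pairwise disjoint interiors. -/
def IsConfig {r : ℕ} (S : Fin r → Square) : Prop :=
  (∀ i, (S i).set ⊆ U) ∧ Pairwise fun i j => Disjoint (interior (S i).set) (interior (S j).set)

/-- The family tiles `U`. -/
def Tiles {r : ℕ} (S : Fin r → Square) : Prop :=
  IsConfig S ∧ ⋃ i, (S i).set = U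

/-- The largest sum of side lengths of a configuration of `r` squares. -/
noncomputable def f (r : ℕ) : ℝ :=
  sSup {t | ∃ S : Fin r → Square, IsConfig S ∧ ∑ i, (S i).a = t}

end Pool.Agent.P.MP_8eee4e_co.Ex
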