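import Mathlib
import Pool.Agent.P.MP_8eee4e_co.Ex.Defs

/-! Centred squares, packings, and the one-dimensional data read off a packing. -/

set_option autoImplicit false

open MeasureTheory Set

namespace Pool.Agent.P.MP_8eee4e_co.Ex

/-! ## Geometry -/

/-- A square with centre `(p, q)`, side `a` and direction `(c, s)`, `|s| ≤ c`. -/
structure Sq where
  p : ℝ
  q : ℝ
  a : ℝ
  c : ℝ
  s : ℝ
  unit : c ^ 2 + s ^ 2 = 1
  le : |s| ≤ c

namespace Sq

/-- the closed square -/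
def cl (X : Sq) : Set (ℝ × ℝ) :=
  {z | |(z.1 - X.p) * X.c + (z.2 - X.q) * X.s| ≤ X.a / 2 ∧
    |(z.2 - X.q) * X.c - (z.1 - X.p) * X.s| ≤ X.a / 2}

/-- the open square -/
def op (X : Sq) : Set (ℝ × ℝ) :=
  {z | |(z.1 - X.p) * X.c + (z.2 - X.q) * X.s| < X.a / 2 ∧
    |(z.2 - X.q) * X.c - (z.1 - X.p) * X.s| < X.a / 2}

/-- the mirror image in the diagonal -/
def swap (X : Sq) : Sq :=
  ⟨X.q, X.p, X.a, X.c, -X.s, by have := X.unit; linarith, by simpa using X.le⟩

/-- the tilt -/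
def t (X : Sq) : ℝ := |X.s|
/-- half height of the band in which a horizontal line cuts a full chord -/
noncomputable def lo (X : Sq) : ℝ := X.a * (X.c - |X.s|) / 2
/-- half height of the square -/
noncomputable def hi (X : Sq) : ℝ := X.a * (X.c + |X.s|) / 2
/-- length of a full chord -/
noncomputable def b (X : Sq) : ℝ := X.a / X.c
/-- area divided by the full chord -/
def e (X : Sq) : ℝ := X.a * X.c
/-- the orientation invariant -/
def psi (X : Sq) : ℝ := X.c * |X.s|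
/-- the chord cut by the horizontal line at height `y`, as a fraction of the full chord -/
noncomputable def phi (X : Sq) (y : ℝ) : ℝ := volume.real {x : ℝ | (x, y) ∈ X.op} / X.b

@[simp] lemma swap_p (X : Sq) : X.swap.p = X.q := rfl
@[simp] lemma swap_q (X : Sq) : X.swap.q = X.p := rfl
@[simp] lemma swap_a (X : Sq) : X.swap.a = X.a := rfl
@[simp] lemma swap_b (X : Sq) : X.swap.b = X.b := rfl
@[simp] lemma swap_e (X : Sq) : X.swap.e = X.e := rfl
@[simp] lemma swap_t (X : Sq) : X.swap.t = X.t := by simp [t, swap]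
@[simp] lemma swap_lo (X : Sq) : X.swap.lo = X.lo := by simp [lo, swap]
@[simp] lemma swap_hi (X : Sq) : X.swap.hi = X.hi := by simp [hi, swap]
@[simp] lemma swap_psi (X : Sq) : X.swap.psi = X.psi := by simp [psi, swap]

lemma mem_cl_swap (X : Sq) (z : ℝ × ℝ) : z ∈ X.swap.cl ↔ z.swap ∈ X.cl := by
  simp only [cl, swap, mem_ofPred_eq, Prod.fst_swap, Prod.snd_swap, mul_neg, sub_neg_eq_add,
    ← sub_eq_add_neg]
  exact and_comm

lemma mem_op_swap (X : Sq) (z : ℝ × ℝ) : z ∈ X.swap.op ↔ z.swap ∈ X.op := by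
  simp only [op, swap, mem_ofPred_eq, Prod.fst_swap, Prod.snd_swap, mul_neg, sub_neg_eq_add,
    ← sub_eq_add_neg]
  exact and_comm

lemma sq_abs_unit (X : Sq) : X.c ^ 2 + |X.s| ^ 2 = 1 := by rw [sq_abs]; exact X.unit

lemma c_ge (X : Sq) : 7 / 10 ≤ X.c := by
  have h1 := X.sq_abs_unit
  have h2 := X.le
  have h3 := abs_nonneg X.s
  nlinarith

lemma c_pos (X : Sq) : 0 < X.c := by have := X.c_ge; linarith

lemma c_le (X : Sq) : X.c ≤ 1 := by
  have h1 := X.unit
  have := X.c_ge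
  nlinarith [sq_nonneg X.s]

lemma t_nonneg (X : Sq) : 0 ≤ X.t := abs_nonneg _

lemma t_le_psi (X : Sq) : X.t ≤ 2 * X.psi := by
  have := X.c_ge
  have h3 := abs_nonneg X.s
  unfold t psi
  nlinarith

lemma psi_nonneg (X : Sq) : 0 ≤ X.psi := mul_nonneg X.c_pos.le (abs_nonneg _)

lemma psi_le (X : Sq) : X.psi ≤ 1 / 2 := by
  have h1 := X.sq_abs_unit
  unfold psi
  nlinarith [sq_nonneg (X.c - |X.s|)]

lemma c_add_le (X : Sq) : X.c + |X.s| ≤ 10 / 7 := by
  have h1 := X.sq_abs_unit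
  nlinarith [sq_nonneg (X.c - |X.s|), sq_nonneg (X.c + |X.s| - 10 / 7)]

lemma op_subset_cl (X : Sq) : X.op ⊆ X.cl := fun _ h => ⟨h.1.le, h.2.le⟩

lemma isOpen_op (X : Sq) : IsOpen X.op := by
  unfold op
  rw [ofPred_and]
  refine IsOpen.inter (isOpen_lt ?_ ?_) (isOpen_lt ?_ ?_) <;> fun_prop

lemma isClosed_cl (X : Sq) : IsClosed X.cl := by
  unfold cl
  rw [ofPred_and]
  refine IsClosed.inter (isClosed_le ?_ ?_) (isClosed_le ?_ ?_) <;> fun_prop

/-- a point of the closed square is within `hi` of the centre in both coordinates -/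
lemma near_of_mem_cl (X : Sq) {z : ℝ × ℝ} (h : z ∈ X.cl) :
    |z.1 - X.p| ≤ X.hi ∧ |z.2 - X.q| ≤ X.hi := by
  obtain ⟨h1, h2⟩ := h
  have hc := X.c_pos
  have hu := X.unit
  set u := (z.1 - X.p) * X.c + (z.2 - X.q) * X.s with hu1
  set v := (z.2 - X.q) * X.c - (z.1 - X.p) * X.s with hv1
  have e1 : z.1 - X.p = u * X.c - v * X.s := by
    rw [hu1, hv1]; linear_combination (-(z.1 - X.p)) * hu
  have e2 : z.2 - X.q = v * X.c + u * X.s := by
    rw [hu1, hv1]; linear_combination (-(z.2 - X.q)) * hu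
  have k1 : |u * X.c| ≤ X.a / 2 * X.c := by
    rw [abs_mul, abs_of_pos hc]; exact mul_le_mul_of_nonneg_right h1 hc.le
  have k2 : |v * X.c| ≤ X.a / 2 * X.c := by
    rw [abs_mul, abs_of_pos hc]; exact mul_le_mul_of_nonneg_right h2 hc.le
  have k3 : |u * X.s| ≤ X.a / 2 * |X.s| := by
    rw [abs_mul]; exact mul_le_mul_of_nonneg_right h1 (abs_nonneg _)
  have k4 : |v * X.s| ≤ X.a / 2 * |X.s| := by
    rw [abs_mul]; exact mul_le_mul_of_nonneg_right h2 (abs_nonneg _)
  unfold hi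
  constructor
  · rw [e1]; refine (abs_sub _ _).trans ?_; linarith
  · rw [e2]; refine (abs_add_le _ _).trans ?_; linarith

/-- the axis-parallel square of half side `lo` lies in the open square -/
lemma mem_op_of_lo (X : Sq) {x y : ℝ} (hx : |x - X.p| < X.lo) (hy : |y - X.q| < X.lo) :
    (x, y) ∈ X.op := by
  have hc := X.c_pos
  have hs := abs_nonneg X.s
  have hu := X.sq_abs_unit
  have hlo : 0 < X.lo := (abs_nonneg _).trans_lt hx
  have ha : 0 ≤ X.a := by
    by_contra hn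
    have : X.a * (X.c - |X.s|) ≤ 0 :=
      mul_nonpos_of_nonpos_of_nonneg (le_of_lt (not_le.1 hn)) (sub_nonneg.2 X.le)
    unfold lo at hlo
    linarith
  have key : X.lo * X.c + X.lo * |X.s| ≤ X.a / 2 := by
    have : X.lo * X.c + X.lo * |X.s| = X.a / 2 * (1 - 2 * |X.s| ^ 2) := by
      unfold lo; linear_combination (X.a / 2) * hu
    rw [this]
    nlinarith [sq_nonneg |X.s|]
  have k1 : |(x - X.p) * X.c| < X.lo * X.c := by
    rw [abs_mul, abs_of_pos hc]; exact mul_lt_mul_of_pos_right hx hc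
  have k2 : |(y - X.q) * X.c| < X.lo * X.c := by
    rw [abs_mul, abs_of_pos hc]; exact mul_lt_mul_of_pos_right hy hc
  have k3 : |(x - X.p) * X.s| ≤ X.lo * |X.s| := by
    rw [abs_mul]; exact mul_le_mul_of_nonneg_right hx.le hs
  have k4 : |(y - X.q) * X.s| ≤ X.lo * |X.s| := by
    rw [abs_mul]; exact mul_le_mul_of_nonneg_right hy.le hs
  constructor
  · exact (abs_add_le _ _).trans_lt (by simp only; linarith)
  · exact (abs_sub _ _).trans_lt (by simp only; linarith)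

/-- points with `|x - p| + |y - q| < a / 2` lie in the open square -/
lemma mem_op_of_l1 (X : Sq) {x y : ℝ} (h : |x - X.p| + |y - X.q| < X.a / 2) : (x, y) ∈ X.op := by
  have hc := X.c_pos
  have hc1 := X.c_le
  have hs : |X.s| ≤ 1 := X.le.trans hc1
  have k1 : |(x - X.p) * X.c| ≤ |x - X.p| := by
    rw [abs_mul, abs_of_pos hc]; exact mul_le_of_le_one_right (abs_nonneg _) hc1
  have k2 : |(y - X.q) * X.c| ≤ |y - X.q| := by
    rw [abs_mul, abs_of_pos hc]; exact mul_le_of_le_one_right (abs_nonneg _) hc1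
  have k3 : |(x - X.p) * X.s| ≤ |x - X.p| := by
    rw [abs_mul]; exact mul_le_of_le_one_right (abs_nonneg _) hs
  have k4 : |(y - X.q) * X.s| ≤ |y - X.q| := by
    rw [abs_mul]; exact mul_le_of_le_one_right (abs_nonneg _) hs
  constructor
  · exact (abs_add_le _ _).trans_lt (by simp only; linarith)
  · exact (abs_sub _ _).trans_lt (by simp only; linarith)

lemma hi_le (X : Sq) (h0 : 0 ≤ X.a) (h : X.a ≤ 11 / 10) : X.hi ≤ 4 / 5 := by
  have h1 := X.c_add_le
  have h2 : 0 ≤ X.c + |X.s| := add_nonneg X.c_pos.le (abs_nonneg _)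
  unfold hi
  nlinarith

/-- a closed square of positive side misses every open set that the open square misses -/
lemma cl_disjoint (X : Sq) (ha : 0 < X.a) {O : Set (ℝ × ℝ)} (hO : IsOpen O)
    (h : Disjoint X.op O) : Disjoint X.cl O := by
  rw [Set.disjoint_left]
  intro z hz hzO
  have hcont : Continuous fun r : ℝ => ((X.p + r * (z.1 - X.p), X.q + r * (z.2 - X.q)) : ℝ × ℝ) := by
    fun_prop
  have h1 : ∀ᶠ r in nhds (1 : ℝ),
      ((X.p + r * (z.1 - X.p), X.q + r * (z.2 - X.q)) : ℝ × ℝ) ∈ O := by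
    refine hcont.continuousAt.eventually_mem (hO.mem_nhds ?_)
    simpa using hzO
  have h2 : ∀ᶠ r in nhdsWithin (1 : ℝ) (Iio 1), r ∈ Ioo (0 : ℝ) 1 := Ioo_mem_nhdsLT one_pos
  obtain ⟨r, hr1, hr2⟩ := ((h1.filter_mono nhdsWithin_le_nhds).and h2).exists
  refine Set.disjoint_left.1 h ?_ hr1
  obtain ⟨k1, k2⟩ := hz
  have e1 : (X.p + r * (z.1 - X.p) - X.p) * X.c + (X.q + r * (z.2 - X.q) - X.q) * X.s =
      r * ((z.1 - X.p) * X.c + (z.2 - X.q) * X.s) := by ring
  have e2 : (X.q + r * (z.2 - X.q) - X.q) * X.c - (X.p + r * (z.1 - X.p) - X.p) * X.s =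
      r * ((z.2 - X.q) * X.c - (z.1 - X.p) * X.s) := by ring
  constructor
  · simp only
    rw [e1, abs_mul, abs_of_pos hr2.1]
    nlinarith [hr2.1, hr2.2, abs_nonneg ((z.1 - X.p) * X.c + (z.2 - X.q) * X.s)]
  · simp only
    rw [e2, abs_mul, abs_of_pos hr2.1]
    nlinarith [hr2.1, hr2.2, abs_nonneg ((z.2 - X.q) * X.c - (z.1 - X.p) * X.s)]

/-- the full chord -/
lemma chord (X : Sq) (ha : X.a ≤ 11 / 10) {y : ℝ} (hy : |y - X.q| < X.lo) :
    ∃ l : ℝ, |l + X.b / 2 - X.p| ≤ X.t ∧ {x : ℝ | (x, y) ∈ X.op} = Ioo l (l + X.b) := by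
  have hc := X.c_pos
  have hs := abs_nonneg X.s
  have hu := X.unit
  have hy0 := abs_nonneg (y - X.q)
  have hlo : X.lo + X.a / 2 * |X.s| = X.a / 2 * X.c := by unfold lo; ring
  have ha0 : 0 < X.a := by
    by_contra hn
    have : X.a * (X.c - |X.s|) ≤ 0 :=
      mul_nonpos_of_nonpos_of_nonneg (not_lt.1 hn) (sub_nonneg.2 X.le)
    unfold lo at hy
    linarith
  have hb : X.b * X.c = X.a := by unfold b; field_simp
  refine ⟨X.p - (y - X.q) * X.s / X.c - X.b / 2, ?_, ?_⟩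
  · have e : X.p - (y - X.q) * X.s / X.c - X.b / 2 + X.b / 2 - X.p = -((y - X.q) * X.s / X.c) := by
      ring
    rw [e, abs_neg, abs_div, abs_mul, abs_of_pos hc, div_le_iff₀ hc]
    unfold t
    have : |y - X.q| ≤ X.c := by nlinarith [mul_nonneg ha0.le hs]
    nlinarith
  · ext x
    have hd : (y - X.q) * X.s / X.c * X.c = (y - X.q) * X.s := by field_simp
    have key : x ∈ Ioo (X.p - (y - X.q) * X.s / X.c - X.b / 2)
        (X.p - (y - X.q) * X.s / X.c - X.b / 2 + X.b) ↔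
        |(x - X.p) * X.c + (y - X.q) * X.s| < X.a / 2 := by
      rw [abs_lt, mem_Ioo]
      constructor
      · rintro ⟨h1, h2⟩
        have k1 := mul_lt_mul_of_pos_right h1 hc
        have k2 := mul_lt_mul_of_pos_right h2 hc
        constructor <;> nlinarith
      · rintro ⟨h1, h2⟩
        constructor <;> refine lt_of_mul_lt_mul_right ?_ hc.le <;> nlinarith
    rw [key]
    refine ⟨fun h => h.1, fun h => ⟨h, ?_⟩⟩
    have e : ((y - X.q) * X.c - (x - X.p) * X.s) * X.c =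
        (y - X.q) - ((x - X.p) * X.c + (y - X.q) * X.s) * X.s := by
      linear_combination (y - X.q) * hu
    have k : |((x - X.p) * X.c + (y - X.q) * X.s) * X.s| ≤ X.a / 2 * |X.s| := by
      rw [abs_mul]; exact mul_le_mul_of_nonneg_right h.le hs
    have k2 : |((y - X.q) * X.c - (x - X.p) * X.s) * X.c| < X.a / 2 * X.c := by
      rw [e]; exact (abs_sub _ _).trans_lt (by linarith)
    rw [abs_mul, abs_of_pos hc] at k2
    exact lt_of_mul_lt_mul_right k2 hc.le

/-- a boundary point lies on one of the four side lines -/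
lemma side (X : Sq) : ∃ n1 n2 k : Fin 4 → ℝ,
    (∀ e, n1 e ^ 2 + n2 e ^ 2 = 1 ∧ |n1 e * n2 e| = X.psi) ∧
    ∀ z ∈ X.cl \ X.op, ∃ e, n1 e * z.1 + n2 e * z.2 = k e := by
  have hu := X.unit
  have hp : |X.c * X.s| = X.psi := by rw [abs_mul, abs_of_pos X.c_pos]; rfl
  have hp' : |-X.s * X.c| = X.psi := by rw [neg_mul, abs_neg, mul_comm]; exact hp
  refine ⟨![X.c, X.c, -X.s, -X.s], ![X.s, X.s, X.c, X.c],
    ![X.p * X.c + X.q * X.s + X.a / 2, X.p * X.c + X.q * X.s - X.a / 2,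
      X.q * X.c - X.p * X.s + X.a / 2, X.q * X.c - X.p * X.s - X.a / 2], ?_, ?_⟩
  · intro e
    fin_cases e
    · exact ⟨hu, hp⟩
    · exact ⟨hu, hp⟩
    · exact ⟨by simp only [Fin.reduceFinMk, Matrix.cons_val]; linarith, hp'⟩
    · exact ⟨by simp only [Fin.reduceFinMk, Matrix.cons_val]; linarith, hp'⟩
  · rintro z ⟨⟨h1, h2⟩, h3⟩
    have h4 : |(z.1 - X.p) * X.c + (z.2 - X.q) * X.s| = X.a / 2 ∨
        |(z.2 - X.q) * X.c - (z.1 - X.p) * X.s| = X.a / 2 := by
      by_contra hn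
      rw [not_or] at hn
      exact h3 ⟨lt_of_le_of_ne h1 hn.1, lt_of_le_of_ne h2 hn.2⟩
    rcases h4 with h | h
    · rcases abs_cases ((z.1 - X.p) * X.c + (z.2 - X.q) * X.s) with k | k
      · exact ⟨0, by simp only [Matrix.cons_val_zero]; linarith [k.1]⟩
      · exact ⟨1, by simp only [Matrix.cons_val_one, Matrix.cons_val_zero]; linarith [k.1]⟩
    · rcases abs_cases ((z.2 - X.q) * X.c - (z.1 - X.p) * X.s) with k | k
      · exact ⟨2, by simp only [Matrix.cons_val]; linarith [k.1]⟩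
      · exact ⟨3, by simp only [Matrix.cons_val]; linarith [k.1]⟩

end Sq

/-- squares inside `B` with pairwise disjoint interiors -/
def Pack {ι : Type} (X : ι → Sq) (B : Set (ℝ × ℝ)) : Prop :=
  (∀ i, (X i).cl ⊆ B) ∧ ∀ i j, i ≠ j → Disjoint (X i).op (X j).op

/-- all sides are between `0.9` and `1.1` -/
def Near {ι : Type} (X : ι → Sq) : Prop := ∀ i, 9 / 10 ≤ (X i).a ∧ (X i).a ≤ 11 / 10

/-- the uncovered part of `B` -/
def Om {ι : Type} (X : ι → Sq) (B : Set (ℝ × ℝ)) : Set (ℝ × ℝ) := B \ ⋃ i, (X i).cl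

/-- the square `[0, K]²` -/
def box (K : ℝ) : Set (ℝ × ℝ) := Icc 0 K ×ˢ Icc 0 K

/-- the axis-parallel square of half side `r` centred at `(p, q)` -/
def win (p q r : ℝ) : Set (ℝ × ℝ) := {z | |z.1 - p| ≤ r ∧ |z.2 - q| ≤ r}

lemma win_eq (p q r : ℝ) : win p q r = Icc (p - r) (p + r) ×ˢ Icc (q - r) (q + r) := by
  ext z
  simp only [win, mem_ofPred_eq, mem_prod, mem_Icc, abs_le]
  constructor
  · rintro ⟨⟨h1, h2⟩, h3, h4⟩; exact ⟨⟨by linarith, by linarith⟩, by linarith, by linarith⟩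
  · rintro ⟨⟨h1, h2⟩, h3, h4⟩; exact ⟨⟨by linarith, by linarith⟩, by linarith, by linarith⟩

lemma measurableSet_win (p q r : ℝ) : MeasurableSet (win p q r) := by
  rw [win_eq]; exact measurableSet_Icc.prod measurableSet_Icc

lemma volume_win_ne_top (p q r : ℝ) : volume (win p q r) ≠ ⊤ := by
  rw [win_eq]; exact (isCompact_Icc.prod isCompact_Icc).measure_lt_top.ne

lemma measurableSet_box (K : ℝ) : MeasurableSet (box K) :=
  measurableSet_Icc.prod measurableSet_Icc

lemma volume_box_ne_top (K : ℝ) : volume (box K) ≠ ⊤ :=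
  (isCompact_Icc.prod isCompact_Icc).measure_lt_top.ne

lemma measurableSet_Om {ι : Type} [Fintype ι] (X : ι → Sq) {B : Set (ℝ × ℝ)}
    (hB : MeasurableSet B) : MeasurableSet (Om X B) :=
  hB.diff (MeasurableSet.iUnion fun i => (X i).isClosed_cl.measurableSet)

lemma Pack.swap {ι : Type} {X : ι → Sq} {B : Set (ℝ × ℝ)} (h : Pack X B) :
    Pack (fun i => (X i).swap) (Prod.swap ⁻¹' B) := by
  refine ⟨fun i z hz => h.1 i (((X i).mem_cl_swap z).1 hz), fun i j hij => ?_⟩
  rw [Set.disjoint_left]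
  intro z h1 h2
  exact Set.disjoint_left.1 (h.2 i j hij) (((X i).mem_op_swap z).1 h1) (((X j).mem_op_swap z).1 h2)

lemma Om_swap {ι : Type} (X : ι → Sq) (B : Set (ℝ × ℝ)) :
    Om (fun i => (X i).swap) (Prod.swap ⁻¹' B) = Prod.swap ⁻¹' Om X B := by
  ext z
  simp only [Om, mem_sdiff, mem_preimage, mem_iUnion, Sq.mem_cl_swap]

lemma box_swap (K : ℝ) : Prod.swap ⁻¹' box K = box K := by
  ext z
  simp only [box, mem_preimage, mem_prod, Prod.fst_swap, Prod.snd_swap]
  exact and_comm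

lemma volume_swap (S : Set (ℝ × ℝ)) : volume (Prod.swap ⁻¹' S) = volume S := by
  have h : MeasurePreserving (MeasurableEquiv.prodComm : ℝ × ℝ ≃ᵐ ℝ × ℝ) volume volume :=
    Measure.measurePreserving_swap
  exact h.measure_preimage_equiv S

lemma Pack.cl_op {ι : Type} {X : ι → Sq} {B : Set (ℝ × ℝ)} (h : Pack X B) (hN : Near X)
    {i j : ι} (hij : i ≠ j) : Disjoint (X i).cl (X j).op :=
  (X i).cl_disjoint (by have := (hN i).1; linarith) (X j).isOpen_op (h.2 i j hij)

lemma Near.hi_le {ι : Type} {X : ι → Sq} (hN : Near X) (i : ι) : (X i).hi ≤ 4 / 5 :=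
  (X i).hi_le (by have := (hN i).1; linarith) (hN i).2

open Classical in
/-- Counting with multiplicity. -/
lemma mult {α ι : Type} [MeasurableSpace α] (μ : Measure α) (T : Finset ι) (E : ι → Set α)
    (F G : Set α) (N : ℝ) (hE : ∀ i ∈ T, MeasurableSet (E i)) (hE' : ∀ i ∈ T, μ (E i) ≠ ⊤)
    (hF : MeasurableSet F) (hF' : μ F ≠ ⊤) (hG : MeasurableSet G) (hG' : μ G ≠ ⊤)
    (h : ∀ z, ((T.filter fun i => z ∈ E i).card : ℝ) ≤
      N * (if z ∈ F then 1 else 0) + (if z ∈ G then 1 else 0)) :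
    ∑ i ∈ T, μ.real (E i) ≤ N * μ.real F + μ.real G := by
  have i1 : ∀ {S : Set α}, MeasurableSet S → μ S ≠ ⊤ →
      Integrable (S.indicator fun _ => (1 : ℝ)) μ := fun hS hS' =>
    (integrable_indicator_iff hS).2 (integrableOn_const hS')
  have i2 : ∀ {S : Set α}, MeasurableSet S → μ.real S = ∫ z, S.indicator (fun _ => (1 : ℝ)) z ∂μ :=
    fun hS => by rw [integral_indicator hS]; simp
  rw [Finset.sum_congr rfl fun i hi => i2 (hE i hi), i2 hF, i2 hG,
    ← integral_finsetSum _ fun i hi => i1 (hE i hi) (hE' i hi), ← integral_const_mul,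
    ← integral_add ((i1 hF hF').const_mul N) (i1 hG hG')]
  refine integral_mono (integrable_finsetSum _ fun i hi => i1 (hE i hi) (hE' i hi))
    (((i1 hF hF').const_mul N).add (i1 hG hG')) fun z => ?_
  have := h z
  simp only [Set.indicator_apply]
  rw [Finset.card_filter] at this
  push_cast at this
  exact this

end Pool.Agent.P.MP_8eee4e_co.Ex
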