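import Mathlib
import Pool.Agent.P.MP_8eee4e_co.Ex.Basic

/-! The one-dimensional data read off a packing, and the numerical hypotheses. -/

set_option autoImplicit false

open MeasureTheory Set

namespace Pool.Agent.P.MP_8eee4e_co.Ex

/-- Chord data in one direction: `q i` is the coordinate of the centre across the lines and
`φ i y` the fraction of the full chord `b i` cut by the line at position `y`. -/
structure IsDir {n : ℕ} (K τ : ℝ) (b e t lo hi q : Fin n → ℝ) (φ : Fin n → ℝ → ℝ) : Prop where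
  meas : ∀ i, Measurable (φ i)
  intg : ∀ i, Integrable (φ i)
  nonneg : ∀ i y, 0 ≤ φ i y
  le_one : ∀ i y, φ i y ≤ 1
  one : ∀ i y, |y - q i| < lo i → φ i y = 1
  zero : ∀ i y, hi i ≤ |y - q i| → φ i y = 0
  total : ∀ i, ∫ y, φ i y = e i
  fit : ∀ y, ∑ i, φ i y * b i ≤ K
  low : ∀ i, hi i ≤ q i
  high : ∀ i, q i + hi i ≤ K
  tilt : ∀ (u L : ℝ) (T : Finset (Fin n)), 0 ≤ L → (∀ i ∈ T, u ≤ q i ∧ q i ≤ u + L) →
    ∑ i ∈ T, t i ≤ τ * (L + 1)

open Classical in
/-- the squares in which the line at position `y` cuts a full chord -/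
noncomputable def line {n : ℕ} (lo q : Fin n → ℝ) (y : ℝ) : Finset (Fin n) :=
  Finset.univ.filter fun i => |y - q i| < lo i

lemma mem_line {n : ℕ} {lo q : Fin n → ℝ} {y : ℝ} {i : Fin n} :
    i ∈ line lo q y ↔ |y - q i| < lo i := by simp [line]

/-- The full chords on the line at position `x` are stacked along it; `q` is the coordinate of
the centre along the line. -/
def Stack {n : ℕ} (K : ℝ) (b t lo p q : Fin n → ℝ) : Prop :=
  ∀ x : ℝ, ∀ G ∈ line lo p x, ∃ B ⊆ line lo p x, G ∉ B ∧ ∃ l : ℝ,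
    |l + b G / 2 - q G| ≤ t G ∧ ∑ i ∈ B, b i ≤ l ∧ l + ∑ i ∈ line lo p x \ B, b i ≤ K

/-- The data of a packing of `n` nearly unit squares in `[0, K]²`. -/
structure Dat (n K : ℕ) (τ : ℝ) where
  a : Fin n → ℝ
  b : Fin n → ℝ
  e : Fin n → ℝ
  t : Fin n → ℝ
  lo : Fin n → ℝ
  hi : Fin n → ℝ
  p : Fin n → ℝ
  q : Fin n → ℝ
  f : Fin n → ℝ → ℝ
  g : Fin n → ℝ → ℝ
  a_lo : ∀ i, 9 / 10 ≤ a i
  a_hi : ∀ i, a i ≤ 11 / 10
  t0 : ∀ i, 0 ≤ t i
  a_le_b : ∀ i, a i ≤ b i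
  b_le : ∀ i, b i ≤ a i + t i ^ 2
  e_ge : ∀ i, a i - t i ^ 2 ≤ e i
  e_le : ∀ i, e i ≤ a i
  be : ∀ i, b i * e i = a i ^ 2
  lo_le : ∀ i, 2 * lo i ≤ a i
  le_hi : ∀ i, a i ≤ 2 * hi i
  hi_lo : ∀ i, hi i - lo i ≤ 2 * t i
  hi_le : ∀ i, hi i ≤ 1
  H : IsDir K τ b e t lo hi q f
  V : IsDir K τ b e t lo hi p g
  cross : ∀ (x y : ℝ) (i j : Fin n), i ∈ line lo q y → i ∈ line lo p x → j ∈ line lo q y →
    j ∈ line lo p x → i = j
  sH : Stack K b t lo q p
  sV : Stack K b t lo p q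

/-- the typical side -/
noncomputable def lam (K : ℕ) (σ : ℝ) : ℝ := K / (K + σ)

/-- the side of the generic squares in the extremal tiling -/
noncomputable def sm (K : ℕ) (σ : ℝ) : ℝ := (K - 1) / (K + σ - 1)

namespace Dat

variable {n K : ℕ} {τ : ℝ} (D : Dat n K τ)

/-- exchange of the two directions -/
def swap : Dat n K τ :=
  { D with
    p := D.q, q := D.p, f := D.g, g := D.f, H := D.V, V := D.H, sH := D.sV, sV := D.sH
    cross := fun x y i j h1 h2 h3 h4 => D.cross y x i j h2 h1 h4 h3 }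

/-- squares cut in a full chord by the horizontal line at height `y` -/
noncomputable def row (y : ℝ) : Finset (Fin n) := line D.lo D.q y
/-- squares cut in a full chord by the vertical line at `x` -/
noncomputable def col (x : ℝ) : Finset (Fin n) := line D.lo D.p x
/-- heights at which some square is cut in a short chord -/
def Imp : Set ℝ := {y | ∃ i, D.lo i ≤ |y - D.q i| ∧ |y - D.q i| < D.hi i}
/-- the other heights -/
def Good : Set ℝ := Icc 0 (K : ℝ) \ D.Imp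
/-- the uncovered length at height `y` -/
noncomputable def w (y : ℝ) : ℝ := K - ∑ i, D.f i y * D.b i
/-- the weighted number of squares at height `y` -/
noncomputable def M (y : ℝ) : ℝ := ∑ i, D.f i y
/-- the uncovered area -/
noncomputable def W : ℝ := (K : ℝ) ^ 2 - ∑ i, D.a i ^ 2
/-- the sum of the sides -/
noncomputable def S : ℝ := ∑ i, D.a i
/-- the excess of the side sum over the conjectured optimum -/
noncomputable def ex (σ : ℝ) : ℝ := D.S - (K * (K + σ) - σ)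
/-- the special heights -/
def A (σ : ℝ) : Set ℝ := {y | y ∈ D.Good ∧ 1 ≤ σ * (K + σ - (D.row y).card)}
/-- good heights with at least `k` squares -/
def Pk (k : ℕ) : Set ℝ := {y | y ∈ D.Good ∧ k ≤ (D.row y).card}
/-- no height of `Pk k` cuts full chords in two squares of `T` -/
def PD (k : ℕ) (T : Finset (Fin n)) : Prop :=
  ∀ i ∈ T, ∀ j ∈ T, ∀ y ∈ D.Pk k, i ∈ D.row y → j ∈ D.row y → i = j
/-- heights meeting two open squares of `T` -/
def Two (T : Finset (Fin n)) : Set ℝ :=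
  {y | ∃ i ∈ T, ∃ j ∈ T, i ≠ j ∧ |y - D.q i| < D.hi i ∧ |y - D.q j| < D.hi j}
/-- the squares of `T` lie above one another up to overlaps `ε` -/
def Sep (T : Finset (Fin n)) (ε : ℝ) : Prop :=
  ∀ i ∈ T, ∀ j ∈ T, i ≠ j → D.q i ≤ D.q j → D.q i + D.hi i ≤ D.q j - D.hi j + ε
/-- improper heights close to an integer -/
def ImpZ (γ : ℝ) : Set ℝ := {y | y ∈ D.Imp ∧ y ∈ Icc 0 (K : ℝ) ∧ ∃ j : ℤ, |y - j| ≤ 8 * γ}
/-- heights with much uncovered length -/
def Big : Set ℝ := {y | y ∈ Icc 0 (K : ℝ) ∧ 1 / 2 ≤ D.w y}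
/-- the aim: `2 K - 1` squares whose sides are as good as unit sides -/
def Goal (σ : ℝ) : Prop :=
  ∃ R : Finset (Fin n), R.card + 1 = 2 * K ∧ σ * (2 * K - 1 - ∑ i ∈ R, D.a i) ≤ K * D.W / 4

@[simp] lemma swap_a : D.swap.a = D.a := rfl
@[simp] lemma swap_b : D.swap.b = D.b := rfl
@[simp] lemma swap_e : D.swap.e = D.e := rfl
@[simp] lemma swap_t : D.swap.t = D.t := rfl
@[simp] lemma swap_lo : D.swap.lo = D.lo := rfl
@[simp] lemma swap_hi : D.swap.hi = D.hi := rfl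
@[simp] lemma swap_p : D.swap.p = D.q := rfl
@[simp] lemma swap_q : D.swap.q = D.p := rfl
@[simp] lemma swap_W : D.swap.W = D.W := rfl
@[simp] lemma swap_S : D.swap.S = D.S := rfl
@[simp] lemma swap_ex (σ : ℝ) : D.swap.ex σ = D.ex σ := rfl
@[simp] lemma swap_row (x : ℝ) : D.swap.row x = D.col x := rfl
@[simp] lemma swap_col (y : ℝ) : D.swap.col y = D.row y := rfl

lemma mem_row {y : ℝ} {i : Fin n} : i ∈ D.row y ↔ |y - D.q i| < D.lo i := mem_line
lemma mem_col {x : ℝ} {i : Fin n} : i ∈ D.col x ↔ |x - D.p i| < D.lo i := mem_line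

lemma row_col {x y : ℝ} {i j : Fin n} (h1 : i ∈ D.row y) (h2 : i ∈ D.col x) (h3 : j ∈ D.row y)
    (h4 : j ∈ D.col x) : i = j := D.cross x y i j h1 h2 h3 h4

lemma card_row_inter_col (x y : ℝ) : (D.row y ∩ D.col x).card ≤ 1 :=
  Finset.card_le_one.2 fun _ hi _ hj =>
    D.row_col (Finset.mem_inter.1 hi).1 (Finset.mem_inter.1 hi).2 (Finset.mem_inter.1 hj).1
      (Finset.mem_inter.1 hj).2

lemma lo_le_hi (i : Fin n) : D.lo i ≤ D.hi i := by
  have := D.lo_le i; have := D.le_hi i; linarith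

lemma hi_ge (i : Fin n) : 9 / 20 ≤ D.hi i := by
  have := D.a_lo i; have := D.le_hi i; linarith

lemma lo_le' (i : Fin n) : D.lo i ≤ 11 / 20 := by
  have := D.a_hi i; have := D.lo_le i; linarith

lemma b_pos (i : Fin n) : 0 < D.b i := by
  have := D.a_lo i; have := D.a_le_b i; linarith

lemma Good_subset : D.Good ⊆ Icc 0 (K : ℝ) := fun _ h => h.1

lemma A_subset (σ : ℝ) : D.A σ ⊆ D.Good := fun _ h => h.1

lemma Pk_subset (k : ℕ) : D.Pk k ⊆ D.Good := fun _ h => h.1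

lemma measurableSet_Imp : MeasurableSet D.Imp := by
  have : D.Imp = ⋃ i, {y | D.lo i ≤ |y - D.q i|} ∩ {y | |y - D.q i| < D.hi i} := by
    ext y; simp [Imp]
  rw [this]
  refine MeasurableSet.iUnion fun i => MeasurableSet.inter ?_ ?_
  · exact measurableSet_le (by fun_prop) (by fun_prop)
  · exact measurableSet_lt (by fun_prop) (by fun_prop)

lemma measurableSet_Good : MeasurableSet D.Good := measurableSet_Icc.diff D.measurableSet_Imp

lemma measurable_card : Measurable fun y => ((D.row y).card : ℝ) := by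
  have : (fun y => ((D.row y).card : ℝ)) =
      fun y => ∑ i, ({y | |y - D.q i| < D.lo i} : Set ℝ).indicator (fun _ => (1 : ℝ)) y := by
    funext y
    classical
    simp only [row, line, Finset.card_filter, Set.indicator_apply, mem_ofPred_eq]
    push_cast
    rfl
  rw [this]
  exact Finset.measurable_sum _ fun i _ =>
    measurable_const.indicator (measurableSet_lt (by fun_prop) (by fun_prop))

lemma measurableSet_A (σ : ℝ) : MeasurableSet (D.A σ) := by
  have h : Measurable fun y => σ * (K + σ - ((D.row y).card : ℝ)) :=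
    (measurable_const.sub D.measurable_card).const_mul σ
  exact D.measurableSet_Good.inter (measurableSet_le measurable_const h)

lemma measurableSet_Pk (k : ℕ) : MeasurableSet (D.Pk k) := by
  have h := D.measurable_card
  have : D.Pk k = D.Good ∩ {y | (k : ℝ) ≤ ((D.row y).card : ℝ)} := by
    ext y; simp [Pk]
  rw [this]
  exact D.measurableSet_Good.inter (measurableSet_le measurable_const h)

lemma measurable_w : Measurable D.w := by
  have h := D.H.meas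
  unfold w
  exact measurable_const.sub (Finset.measurable_sum _ fun i _ => (h i).mul_const _)

lemma w_nonneg (y : ℝ) : 0 ≤ D.w y := sub_nonneg.2 (D.H.fit y)

/-- a set inside `[0, K]` has finite measure -/
lemma ne_top_of_subset {Z : Set ℝ} {u v : ℝ} (h : Z ⊆ Icc u v) : volume Z ≠ ⊤ :=
  ((measure_mono h).trans_lt measure_Icc_lt_top).ne

lemma f_good {y : ℝ} (hy : y ∈ D.Good) (i : Fin n) :
    D.f i y = if i ∈ D.row y then 1 else 0 := by
  split_ifs with h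
  · exact D.H.one i y (D.mem_row.1 h)
  · refine D.H.zero i y ?_
    by_contra hn
    exact hy.2 ⟨i, not_lt.1 fun k => h (D.mem_row.2 k), not_le.1 hn⟩

/-- at a good height a square is cut in a full chord or missed -/
lemma good_cases {y : ℝ} (hy : y ∈ D.Good) (i : Fin n) :
    i ∈ D.row y ∨ D.hi i ≤ |y - D.q i| := by
  by_contra hn
  rw [not_or] at hn
  exact hy.2 ⟨i, not_lt.1 fun k => hn.1 (D.mem_row.2 k), not_le.1 hn.2⟩

lemma sum_row_good {y : ℝ} (hy : y ∈ D.Good) : ∑ i ∈ D.row y, D.b i = K - D.w y := by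
  unfold w
  simp only [D.f_good hy, ite_mul, one_mul, zero_mul]
  rw [Finset.sum_ite_mem, Finset.univ_inter]
  ring

lemma M_good {y : ℝ} (hy : y ∈ D.Good) : D.M y = (D.row y).card := by
  unfold M
  simp only [D.f_good hy]
  rw [Finset.sum_ite_mem, Finset.univ_inter]
  simp

lemma sum_row_le (y : ℝ) : ∑ i ∈ D.row y, D.b i ≤ K := by
  refine le_trans ?_ (D.H.fit y)
  calc ∑ i ∈ D.row y, D.b i = ∑ i ∈ D.row y, D.f i y * D.b i :=
        Finset.sum_congr rfl fun i hi => by rw [D.H.one i y (D.mem_row.1 hi), one_mul]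
    _ ≤ _ := Finset.sum_le_sum_of_subset_of_nonneg (Finset.subset_univ _) fun i _ _ =>
        mul_nonneg (D.H.nonneg i y) (D.b_pos i).le

lemma t_le (i : Fin n) : D.t i ≤ τ := by
  simpa using D.H.tilt (D.q i) 0 {i} le_rfl (by simp)

lemma sum_t_le (T : Finset (Fin n)) : ∑ i ∈ T, D.t i ≤ τ * (K + 1) :=
  D.H.tilt 0 K T (Nat.cast_nonneg K) fun i _ => by
    have := D.H.low i; have := D.H.high i; have := D.hi_ge i
    constructor <;> linarith

lemma sum_row_t_le (y : ℝ) : ∑ i ∈ D.row y, D.t i ≤ τ * 3 := by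
  have := D.H.tilt (y - 1) 2 (D.row y) (by norm_num) fun i hi => by
    have h1 := abs_lt.1 (D.mem_row.1 hi)
    have := D.lo_le' i
    constructor <;> linarith [h1.1, h1.2]
  linarith

lemma sum_tsq_le (T : Finset (Fin n)) : ∑ i ∈ T, D.t i ^ 2 ≤ τ * ∑ i ∈ T, D.t i := by
  rw [Finset.mul_sum]
  exact Finset.sum_le_sum fun i _ => by
    rw [sq]; exact mul_le_mul_of_nonneg_right (D.t_le i) (D.t0 i)

/-- the length of an interval covered by an exceptional set and the bands of `T` -/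
lemma cover_len (T : Finset (Fin n)) {E : Set ℝ} (hE : volume E ≠ ⊤) {u v : ℝ}
    (hlo : ∀ i ∈ T, 0 ≤ D.lo i) (h : ∀ y ∈ Icc u v, y ∈ E ∨ ∃ i ∈ T, i ∈ D.row y) :
    v - u ≤ volume.real E + ∑ i ∈ T, D.a i := by
  have h1 : Icc u v ⊆ E ∪ ⋃ i ∈ T, Ioo (D.q i - D.lo i) (D.q i + D.lo i) := fun y hy => by
    rcases h y hy with k | ⟨i, hi, k⟩
    · exact Or.inl k
    · have := abs_lt.1 (D.mem_row.1 k)
      exact Or.inr (mem_biUnion hi ⟨by linarith [this.1], by linarith [this.2]⟩)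
  have h2 : volume (⋃ i ∈ T, Ioo (D.q i - D.lo i) (D.q i + D.lo i)) ≠ ⊤ :=
    (measure_biUnion_lt_top T.finite_toSet fun _ _ => measure_Ioo_lt_top).ne
  have h3 := measureReal_mono h1 (measure_union_ne_top hE h2)
  have h4 := measureReal_union_le (μ := volume) E
    (⋃ i ∈ T, Ioo (D.q i - D.lo i) (D.q i + D.lo i))
  have h5 := measureReal_biUnion_finset_le (μ := volume) T
    fun i => Ioo (D.q i - D.lo i) (D.q i + D.lo i)
  have h6 : ∑ i ∈ T, volume.real (Ioo (D.q i - D.lo i) (D.q i + D.lo i)) ≤ ∑ i ∈ T, D.a i :=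
    Finset.sum_le_sum fun i hi => by
      have := hlo i hi
      have := D.lo_le i
      rw [Real.volume_real_Ioo_of_le (by linarith)]
      linarith
  have h7 : v - u ≤ volume.real (Icc u v) := by
    rw [Real.volume_real_Icc]; exact le_max_left _ _
  linarith

/-- the basic identity at any height -/
lemma ident {σ : ℝ} (h : (K : ℝ) + σ ≠ 0) (y : ℝ) :
    lam K σ * (K + σ - D.M y) = D.w y + ∑ i, D.f i y * (D.b i - lam K σ) := by
  have h1 : lam K σ * (K + σ) = K := by unfold lam; field_simp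
  unfold w M
  simp only [mul_sub, Finset.sum_sub_distrib, ← Finset.sum_mul]
  linarith

end Dat

/-- The squares beat the conjectured optimum; the constants are in range. -/
structure Hyp {n K : ℕ} {τ : ℝ} (D : Dat n K τ) (σ C γ : ℝ) : Prop where
  sgn : σ = 1 ∨ σ = -1
  card : (n : ℝ) = (K + σ) ^ 2 - 2 * σ
  big : 0 < D.ex σ
  W0 : 0 ≤ D.W
  tau : τ = C * D.W
  C1 : 1 ≤ C
  g0 : 0 < γ
  Cg : C * γ ≤ 1 / 10 ^ 4
  gK : 100 ≤ γ ^ 2 * K

/-- The structure of a near-optimal packing: one special row, one special column. -/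
structure Str {n K : ℕ} {τ : ℝ} (D : Dat n K τ) (σ γ x0 y0 : ℝ) (d : Fin n → ℝ) : Prop where
  d0 : ∀ i, 0 ≤ d i
  dsum : ∀ T : Finset (Fin n), T.card ≤ K + 2 → ∑ i ∈ T, d i ≤ γ
  d1 : ∀ i, σ * (lam K σ - D.b i) ≤ d i
  d2 : ∀ i, σ * (D.b i - 1) ≤ d i
  d3 : ∀ i, i ∉ D.row y0 → i ∉ D.col x0 → σ * (D.b i - lam K σ) ≤ d i
  cy : (D.row y0).card = K
  cx : (D.col x0).card = K
  Wle : D.W * (K : ℝ) ^ 2 ≤ 25

lemma Str.swap {n K : ℕ} {τ : ℝ} {D : Dat n K τ} {σ γ x0 y0 : ℝ} {d : Fin n → ℝ}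
    (h : Str D σ γ x0 y0 d) : Str D.swap σ γ y0 x0 d :=
  ⟨h.d0, h.dsum, h.d1, h.d2, fun i h1 h2 => h.d3 i h2 h1, h.cx, h.cy, h.Wle⟩

/-- `K` horizontal lines meeting many squares, each square at most (`σ = 1`) or at least
(`σ = -1`) once. -/
def Sys {n K : ℕ} {τ : ℝ} (D : Dat n K τ) (σ : ℝ) : Prop :=
  ∃ Z : Finset ℝ, Z.card = K ∧ K * (K + σ) - σ + 1 ≤ ∑ y ∈ Z, ((D.row y).card : ℝ) ∧
    ∀ i, σ * ((∑ y ∈ Z, if i ∈ D.row y then (1 : ℝ) else 0) - 1) ≤ 0

/-- The a priori identity. -/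
lemma apr {n K : ℕ} (a : Fin n → ℝ) {σ : ℝ} (hσ : σ = 1 ∨ σ = -1) (hK : 2 ≤ K)
    (hn : (n : ℝ) = (K + σ) ^ 2 - 2 * σ) :
    ∑ i, (a i - lam K σ) ^ 2 + ((K : ℝ) ^ 2 - ∑ i, a i ^ 2) +
      2 * lam K σ * (∑ i, a i - (K * (K + σ) - σ)) = 2 * K / (K + σ) ^ 2 := by
  have hK' : (2 : ℝ) ≤ K := by exact_mod_cast hK
  have h0 : (K : ℝ) + σ ≠ 0 := by rcases hσ with rfl | rfl <;> linarith
  have hs : σ ^ 2 = 1 := by rcases hσ with rfl | rfl <;> norm_num
  have e : ∑ i, (a i - lam K σ) ^ 2 =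
      ∑ i, a i ^ 2 - 2 * lam K σ * ∑ i, a i + n * lam K σ ^ 2 := by
    simp only [sub_sq, Finset.sum_add_distrib, Finset.sum_sub_distrib, Finset.mul_sum,
      Finset.sum_const, Finset.card_univ, Fintype.card_fin, nsmul_eq_mul]
    congr 2
    exact Finset.sum_congr rfl fun i _ => by ring
  rw [e, hn]
  unfold lam
  field_simp
  linear_combination (2 * K : ℝ) * hs

namespace Hyp

variable {n K : ℕ} {τ : ℝ} {D : Dat n K τ} {σ C γ : ℝ} (h : Hyp D σ C γ)
include h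

lemma swap : Hyp D.swap σ C γ := ⟨h.sgn, h.card, h.big, h.W0, h.tau, h.C1, h.g0, h.Cg, h.gK⟩

lemma sq : σ ^ 2 = 1 := by rcases h.sgn with rfl | rfl <;> norm_num

lemma abs_sgn : |σ| = 1 := by rcases h.sgn with rfl | rfl <;> norm_num

lemma g_le : γ ≤ 1 / 10 ^ 4 := by nlinarith [h.C1, h.g0, h.Cg]

lemma gK6 : 10 ^ 6 ≤ γ * K := by
  have h1 := h.g_le
  have h2 := h.gK
  have h3 : 0 ≤ γ * K := mul_nonneg h.g0.le (Nat.cast_nonneg K)
  nlinarith

lemma K_ge : (10 : ℝ) ^ 10 ≤ K := by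
  have h1 := h.g_le
  have h2 := h.gK6
  have h3 : (0 : ℝ) ≤ K := Nat.cast_nonneg K
  nlinarith

lemma K_ge_nat : 10 ^ 10 ≤ K := by exact_mod_cast h.K_ge

lemma K_pos : (0 : ℝ) < K := by have := h.K_ge; linarith

lemma kap_ge : (K : ℝ) - 1 ≤ K + σ := by rcases h.sgn with rfl | rfl <;> linarith

lemma kap_le : (K : ℝ) + σ ≤ K + 1 := by rcases h.sgn with rfl | rfl <;> linarith

lemma kap_pos : (0 : ℝ) < K + σ := by have := h.kap_ge; have := h.K_ge; linarith

lemma lam_mul : lam K σ * (K + σ) = K := by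
  have := h.kap_pos
  unfold lam; field_simp

lemma sgn_lam : σ * (1 - lam K σ) = 1 / (K + σ) := by
  have := h.kap_pos
  have hs := h.sq
  unfold lam; field_simp
  linear_combination hs

lemma inv_kap_le : 1 / ((K : ℝ) + σ) ≤ γ / 10 ^ 5 := by
  have h1 := h.kap_pos
  have h2 := h.gK6
  have h3 := h.kap_ge
  have h4 := h.g_le
  have h5 := h.g0
  rw [div_le_div_iff₀ h1 (by norm_num)]
  nlinarith

lemma inv_kap_pos : 0 < 1 / ((K : ℝ) + σ) := one_div_pos.2 h.kap_pos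

lemma lam_ge : 1 - 1 / 10 ^ 9 ≤ lam K σ := by
  have h1 := h.sgn_lam
  have h2 := h.inv_kap_le
  have h3 := h.inv_kap_pos
  have h4 := h.g_le
  rcases h.sgn with rfl | rfl <;> linarith

lemma lam_le : lam K σ ≤ 1 + 1 / 10 ^ 9 := by
  have h1 := h.sgn_lam
  have h2 := h.inv_kap_le
  have h3 := h.inv_kap_pos
  have h4 := h.g_le
  rcases h.sgn with rfl | rfl <;> linarith

lemma apr : ∑ i, (D.a i - lam K σ) ^ 2 + D.W + 2 * lam K σ * D.ex σ = 2 * K / (K + σ) ^ 2 :=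
  Ex.apr D.a h.sgn (by have := h.K_ge_nat; omega) h.card

lemma apr_rhs : 2 * K / ((K : ℝ) + σ) ^ 2 * K ≤ 21 / 10 := by
  have h1 := h.kap_pos
  have h2 := h.kap_ge
  have h3 := h.K_ge
  rw [div_mul_eq_mul_div, div_le_iff₀ (by positivity)]
  nlinarith

/-- `(∑ (a - λ)² + W) K ≤ 2.1` -/
lemma dev_le : (∑ i, (D.a i - lam K σ) ^ 2 + D.W) * K ≤ 21 / 10 := by
  have h1 := h.apr
  have h2 := h.apr_rhs
  have h3 : 0 ≤ 2 * lam K σ * D.ex σ := by
    have := h.lam_ge; have := h.big; positivity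
  have h4 := h.K_pos
  nlinarith

lemma WK : D.W * K ≤ 21 / 10 := by
  have h1 := h.dev_le
  have h2 : 0 ≤ ∑ i, (D.a i - lam K σ) ^ 2 := Finset.sum_nonneg fun i _ => sq_nonneg _
  have h4 := h.K_pos
  nlinarith

lemma W_le : D.W ≤ γ / 10 ^ 5 := by
  have h1 := h.WK
  have h2 := h.gK6
  have h4 := h.K_pos
  by_contra hn
  have := mul_lt_mul_of_pos_right (not_le.1 hn) h4
  nlinarith

lemma ex_le : D.ex σ ≤ 1 / (K + σ) := by
  have h1 := h.apr
  have h2 : 0 ≤ ∑ i, (D.a i - lam K σ) ^ 2 := Finset.sum_nonneg fun i _ => sq_nonneg _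
  have h3 := h.W0
  have h4 := h.kap_pos
  have h5 := h.K_pos
  have h6 : 2 * K / ((K : ℝ) + σ) ^ 2 = 2 * lam K σ * (1 / (K + σ)) := by
    unfold lam; field_simp
  have h7 : 0 < 2 * lam K σ := by have := h.lam_ge; linarith
  exact le_of_mul_le_mul_left (by linarith) h7

/-- The identity comparing the packing with the extremal tiling. -/
lemma ident (R : Finset (Fin n)) (hR : R.card + 1 = 2 * K) :
    D.W + ∑ i ∈ R, (D.a i - 1) ^ 2 + ∑ i ∈ Rᶜ, (D.a i - sm K σ) ^ 2 =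
      2 * σ / (K + σ - 1) * (2 * K - 1 - ∑ i ∈ R, D.a i) - 2 * sm K σ * D.ex σ := by
  have h0 : (K : ℝ) + σ - 1 ≠ 0 := by have := h.kap_ge; have := h.K_ge; linarith
  have hs := h.sq
  have hR' : (R.card : ℝ) = 2 * K - 1 := by
    have : ((R.card + 1 : ℕ) : ℝ) = ((2 * K : ℕ) : ℝ) := by rw [hR]
    push_cast at this
    linarith
  have hc : (Rᶜ.card : ℝ) = (K + σ - 1) ^ 2 := by
    have h1 : ((R.card + Rᶜ.card : ℕ) : ℝ) = n := by rw [Finset.card_add_card_compl]; simp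
    push_cast at h1
    have := h.card
    linarith
  have e : ∀ (T : Finset (Fin n)) (c : ℝ), ∑ i ∈ T, (D.a i - c) ^ 2 =
      ∑ i ∈ T, D.a i ^ 2 - 2 * c * ∑ i ∈ T, D.a i + T.card * c ^ 2 := fun T c => by
    simp only [sub_sq, Finset.sum_add_distrib, Finset.sum_sub_distrib, Finset.mul_sum,
      Finset.sum_const, nsmul_eq_mul]
    congr 2
    exact Finset.sum_congr rfl fun i _ => by ring
  have s1 := Finset.sum_add_sum_compl R D.a
  have s2 := Finset.sum_add_sum_compl R fun i => D.a i ^ 2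
  rw [e, e, hR', hc]
  unfold Dat.ex Dat.W Dat.S
  rw [← s1, ← s2]
  unfold sm
  field_simp
  ring

lemma tau0 : 0 ≤ τ := (mul_nonneg (by linarith [h.C1]) h.W0).trans_eq h.tau.symm

lemma W_le_tau : D.W ≤ τ := by nlinarith [h.C1, h.W0, h.tau]

lemma C_le : C * 10 ^ 6 ≤ γ * K := by
  have h1 := h.Cg
  have h2 := h.gK
  have h3 := h.g0
  have h4 : 0 ≤ C := by linarith [h.C1]
  have h5 := h.K_pos
  have : γ * (C * 10 ^ 6) ≤ γ * (γ * K) := by nlinarith
  exact le_of_mul_le_mul_left this h3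

lemma Csq_le : C ^ 2 * 10 ^ 10 ≤ K := by
  have h1 := h.Cg
  have h2 := h.C_le
  have h4 : 0 ≤ C := by linarith [h.C1]
  have h5 := h.K_pos
  nlinarith

/-- `τ ≤ 3 γ / 10⁶` -/
lemma tau_le : τ ≤ 3 * γ / 10 ^ 6 := by
  have h1 := h.C_le
  have h2 := h.WK
  have h3 := h.W0
  have h4 := h.g0
  nlinarith [mul_le_mul_of_nonneg_right h1 h3, h.tau]

/-- `τ ≤ K W / 10¹⁰` -/
lemma tau_le_KW : τ ≤ K * D.W / 10 ^ 10 := by
  have h1 := h.Csq_le
  have h3 := h.W0
  have h4 := h.C1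
  have h5 : C * 10 ^ 10 ≤ K := by nlinarith
  nlinarith [mul_le_mul_of_nonneg_right h5 h3, h.tau]

/-- `τ² (K + 1) ≤ K W / 10⁹` -/
lemma tau_sq_le : τ * (τ * (K + 1)) ≤ K * D.W / 10 ^ 9 := by
  have h1 := h.Csq_le
  have h2 := h.WK
  have h3 := h.W0
  have h5 := h.K_ge
  have h6 : D.W * (K + 1) ≤ 5 := by nlinarith
  have h7 : C ^ 2 * D.W ≤ K * D.W / 10 ^ 10 := by nlinarith [mul_le_mul_of_nonneg_right h1 h3]
  have h8 : 0 ≤ C ^ 2 * D.W := by positivity
  have h9 : τ * (τ * (K + 1)) = C ^ 2 * D.W * (D.W * (K + 1)) := by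
    linear_combination ((τ + C * D.W) * (K + 1)) * h.tau
  rw [h9]
  nlinarith

/-- `τ² ≤ W / 10⁹` -/
lemma tau_sq_le_W : τ * τ ≤ D.W / 10 ^ 9 := by
  have h1 := h.tau_sq_le
  have h2 := h.K_pos
  have h3 := h.tau0
  have : K * (τ * τ) ≤ K * (D.W / 10 ^ 9) := by nlinarith [mul_nonneg h3 h3]
  exact le_of_mul_le_mul_left this h2

/-- `τ γ K ≤ K W / 10⁴` -/
lemma tau_gK : τ * (γ * K) ≤ K * D.W / 10 ^ 4 := by
  have h1 := h.Cg
  have h2 : 0 ≤ K * D.W := mul_nonneg h.K_pos.le h.W0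
  have h9 : τ * (γ * K) = C * γ * (K * D.W) := by linear_combination (γ * K) * h.tau
  rw [h9]
  nlinarith

lemma sum_tsq (T : Finset (Fin n)) : ∑ i ∈ T, D.t i ^ 2 ≤ K * D.W / 10 ^ 9 :=
  (D.sum_tsq_le T).trans ((mul_le_mul_of_nonneg_left (D.sum_t_le T) h.tau0).trans h.tau_sq_le)

lemma sum_row_tsq (y : ℝ) : ∑ i ∈ D.row y, D.t i ^ 2 ≤ D.W / 10 ^ 8 := by
  have h1 := (D.sum_tsq_le (D.row y)).trans
    (mul_le_mul_of_nonneg_left (D.sum_row_t_le y) h.tau0)
  have h2 := h.tau_sq_le_W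
  have h3 := h.W0
  nlinarith

lemma t_small (i : Fin n) : D.t i ≤ 3 / 10 ^ 10 := by
  have := D.t_le i; have := h.tau_le; have := h.g_le; linarith

lemma lo_ge (i : Fin n) : 449 / 1000 ≤ D.lo i := by
  have := D.hi_ge i; have := D.hi_lo i; have := h.t_small i; linarith

lemma hi_le' (i : Fin n) : D.hi i ≤ 551 / 1000 := by
  have := D.lo_le' i; have := D.hi_lo i; have := h.t_small i; linarith

/-- with the structure: `K W ≤ γ / 10⁴` -/
lemma KW_le {x0 y0 : ℝ} {d : Fin n → ℝ} (s : Str D σ γ x0 y0 d) : K * D.W ≤ γ / 10 ^ 4 := by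
  have h1 := s.Wle
  have h2 := h.gK6
  have h4 := h.K_pos
  by_contra hn
  have := mul_lt_mul_of_pos_right (not_le.1 hn) h4
  nlinarith

/-- with the structure: `4 τ (K + 3) ≤ γ / 1000` -/
lemma imp_le {x0 y0 : ℝ} {d : Fin n → ℝ} (s : Str D σ γ x0 y0 d) :
    4 * τ * (K + 3) ≤ γ / 1000 := by
  have h1 := s.Wle
  have h2 := h.C_le
  have h3 := h.W0
  have h4 := h.K_ge
  have h5 := h.g0
  have h6 := h.tau0
  have h7 : 0 ≤ D.W * K := by positivity
  have h8 : τ * K * 10 ^ 6 ≤ 25 * γ := by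
    have : τ * K * 10 ^ 6 = C * 10 ^ 6 * (D.W * K) := by
      linear_combination (K * 10 ^ 6) * h.tau
    rw [this]
    nlinarith [mul_le_mul_of_nonneg_right h2 h7]
  nlinarith

end Hyp

end Pool.Agent.P.MP_8eee4e_co.Ex
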