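import Pool.Agent.P.MP_8eee4e_co.Ex.Iface

set_option autoImplicit false

section
/-! Reduction to centred squares in a box of side `K`. -/


open MeasureTheory Set

namespace Pool.Agent.P.MP_8eee4e_co.Ex

namespace REDx

lemma dir (p q a : ℝ) {c s : ℝ} (h : c ^ 2 + s ^ 2 = 1) : ∃ X : Sq, X.a = a ∧ ∀ z ∈ X.cl,
    |(z.1 - p) * c + (z.2 - q) * s| ≤ a / 2 ∧ |(z.2 - q) * c - (z.1 - p) * s| ≤ a / 2 := by
  rcases le_total |s| |c| with h1 | h1
  · rcases abs_cases c with ⟨e, -⟩ | ⟨e, -⟩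
    · exact ⟨⟨p, q, a, c, s, h, e ▸ h1⟩, rfl, fun z hz => hz⟩
    · refine ⟨⟨p, q, a, -c, -s, by linarith, by rwa [abs_neg, ← e]⟩, rfl, fun z hz => ⟨?_, ?_⟩⟩
      · exact (abs_neg _).ge.trans ((congrArg abs (by ring)).trans_le hz.1)
      · exact (abs_neg _).ge.trans ((congrArg abs (by ring)).trans_le hz.2)
  · rcases abs_cases s with ⟨e, -⟩ | ⟨e, -⟩
    · refine ⟨⟨p, q, a, s, -c, by linarith, by rwa [abs_neg, ← e]⟩, rfl, fun z hz => ⟨?_, ?_⟩⟩
      · exact (congrArg abs (by ring)).trans_le hz.2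
      · exact (abs_neg _).ge.trans ((congrArg abs (by ring)).trans_le hz.1)
    · refine ⟨⟨p, q, a, -s, c, by linarith, e ▸ h1⟩, rfl, fun z hz => ⟨?_, ?_⟩⟩
      · exact (abs_neg _).ge.trans ((congrArg abs (by ring)).trans_le hz.2)
      · exact (congrArg abs (by ring)).trans_le hz.1

lemma one (S : Square) {K : ℝ} (hK : 0 < K) : ∃ X : Sq, X.a = K * S.a ∧
    ∀ w : ℝ × ℝ, (K * w.1, K * w.2) ∈ X.cl → w ∈ S.set := by
  obtain ⟨X, h1, h2⟩ := dir (K * (S.x + S.a * (S.c - S.s) / 2)) (K * (S.y + S.a * (S.s + S.c) / 2))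
    (K * S.a) S.unit
  refine ⟨X, h1, fun w hw => ?_⟩
  obtain ⟨h3, h4⟩ := h2 _ hw
  have u := S.unit
  have key : ∀ t u : ℝ, u = K * (t - S.a / 2) → |u| ≤ K * S.a / 2 → t ∈ Icc 0 S.a :=
    fun t u e h => by
      rw [e, abs_mul, abs_of_pos hK, mul_div_assoc, mul_le_mul_iff_right₀ hK, abs_le] at h
      exact ⟨by linarith [h.1], by linarith [h.2]⟩
  refine ⟨(w.1 - S.x) * S.c + (w.2 - S.y) * S.s, key _ _ ?_ h3,
    -(w.1 - S.x) * S.s + (w.2 - S.y) * S.c, key _ _ ?_ h4, Prod.ext ?_ ?_⟩ <;> dsimp only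
  · linear_combination (-K * S.a / 2) * u
  · linear_combination (-K * S.a / 2) * u
  · linear_combination (-(w.1 - S.x)) * u
  · linear_combination (-(w.2 - S.y)) * u

end REDx

theorem p_RED : T_RED := by
  intro r S K hK h
  choose X h1 h2 using fun i => REDx.one (S i) hK
  have e : ∀ z : ℝ × ℝ, (K * (z.1 / K), K * (z.2 / K)) = z := fun z => by
    rw [mul_div_cancel₀ _ hK.ne', mul_div_cancel₀ _ hK.ne']
  have int : ∀ i, ∀ z ∈ (X i).op, (z.1 / K, z.2 / K) ∈ interior (S i).set := fun i z hz =>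
    interior_maximal (t := (fun w : ℝ × ℝ => (K * w.1, K * w.2)) ⁻¹' (X i).op)
      (fun w hw => h2 i w ((X i).op_subset_cl hw)) ((X i).isOpen_op.preimage (by fun_prop))
      ((e z).symm ▸ hz : (K * (z.1 / K), K * (z.2 / K)) ∈ (X i).op)
  refine ⟨X, ⟨fun i z hz => ?_, fun i j hij => disjoint_left.2 fun z a b =>
    disjoint_left.1 (h.2 hij) (int i z a) (int j z b)⟩, h1⟩
  obtain ⟨⟨a, b⟩, c, d⟩ := h.1 i (h2 i (z.1 / K, z.2 / K) ((e z).symm ▸ hz))
  exact ⟨⟨(le_div_iff₀ hK).1 a |>.trans' (by simp), (div_le_one hK).1 b⟩,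
    (le_div_iff₀ hK).1 c |>.trans' (by simp), (div_le_one hK).1 d⟩

end Pool.Agent.P.MP_8eee4e_co.Ex

end

section
/-! The tiling by a grid and a rim. -/


open MeasureTheory Set

namespace Pool.Agent.P.MP_8eee4e_co.Ex

namespace TILx

/-- An axis-parallel square. -/
def ax (x y a : ℝ) (h : 0 < a) : Square := ⟨x, y, 1, 0, a, by norm_num, h.le⟩

variable {x y a x' y' a' : ℝ} {h : 0 < a} {h' : 0 < a'}

lemma ax_set : (ax x y a h).set = Icc x (x + a) ×ˢ Icc y (y + a) := by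
  ext ⟨p, q⟩
  simp only [Square.set, ax, mem_ofPred_eq, mem_prod, mem_Icc, Prod.mk.injEq, mul_one, mul_zero,
    sub_zero, add_zero]
  constructor
  · rintro ⟨α, h1, β, h2, rfl, rfl⟩
    exact ⟨⟨by linarith [h1.1], by linarith [h1.2]⟩, by linarith [h2.1], by linarith [h2.2]⟩
  · rintro ⟨h1, h2⟩
    exact ⟨p - x, ⟨by linarith [h1.1], by linarith [h1.2]⟩, q - y,
      ⟨by linarith [h2.1], by linarith [h2.2]⟩, by ring, by ring⟩

lemma dis (e : (x + a ≤ x' ∨ x' + a' ≤ x) ∨ y + a ≤ y' ∨ y' + a' ≤ y) :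
    Disjoint (interior (ax x y a h).set) (interior (ax x' y' a' h').set) := by
  rw [ax_set, ax_set, interior_prod_eq, interior_prod_eq, interior_Icc, interior_Icc, interior_Icc,
    interior_Icc, disjoint_left]
  rintro ⟨p, q⟩ ⟨⟨a1, a2⟩, a3, a4⟩ ⟨⟨b1, b2⟩, b3, b4⟩
  rcases e with (e | e) | e | e <;> linarith

lemma sub (h1 : 0 ≤ x) (h2 : x + a ≤ 1) (h3 : 0 ≤ y) (h4 : y + a ≤ 1) : (ax x y a h).set ⊆ U := by
  rw [ax_set]
  exact prod_mono (Icc_subset_Icc h1 h2) (Icc_subset_Icc h3 h4)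

lemma lt (h : 0 < a) {i j : ℕ} (e : i < j) : i * a + a ≤ j * a := by
  have : (i : ℝ) + 1 ≤ j := by exact_mod_cast e
  nlinarith

lemma sep (h : 0 < a) {n : ℕ} {i j : Fin n} (e : i ≠ j) :
    (i : ℕ) * a + a ≤ (j : ℕ) * a ∨ (j : ℕ) * a + a ≤ (i : ℕ) * a :=
  (lt_or_gt_of_ne e).imp (fun c => lt h c) fun c => lt h c

lemma cov (a x : ℝ) (h0 : 0 ≤ x) {n : ℕ} (hn : 1 ≤ n) (h1 : x ≤ n * a) :
    ∃ i : Fin n, x ∈ Icc ((i : ℕ) * a) ((i : ℕ) * a + a) := by
  induction n, hn using Nat.le_induction with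
  | base => exact ⟨0, by simpa using h0, by simpa using h1⟩
  | succ n _ ih =>
    rcases le_total x (n * a) with c | c
    · obtain ⟨i, hi⟩ := ih c
      exact ⟨i.castSucc, hi⟩
    · exact ⟨Fin.last n, c, by rwa [Nat.cast_succ, add_mul, one_mul] at h1⟩

/-- The grid, the top row and the right column. -/
def T (m k : ℕ) {s d : ℝ} (hs : 0 < s) (hd : 0 < d) :
    (Fin m × Fin m) ⊕ (Fin (k + 1) ⊕ Fin k) → Square
  | .inl p => ax ((p.1 : ℕ) * s) ((p.2 : ℕ) * s) s hs
  | .inr (.inl i) => ax ((i : ℕ) * d) (k * d) d hd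
  | .inr (.inr i) => ax (k * d) ((i : ℕ) * d) d hd

variable {m k : ℕ} {s d : ℝ} (hs : 0 < s) (hd : 0 < d) (e1 : m * s = k * d) (e2 : k * d + d = 1)
include e1 e2

lemma T_sub (i : (Fin m × Fin m) ⊕ (Fin (k + 1) ⊕ Fin k)) : (T m k hs hd i).set ⊆ U := by
  rcases i with ⟨i, j⟩ | i | i <;> rw [T]
  · exact sub (by positivity) (by linarith [lt hs i.2]) (by positivity) (by linarith [lt hs j.2])
  · have := lt hd i.2
    rw [Nat.cast_succ, add_mul, one_mul] at this
    exact sub (by positivity) (by linarith) (by positivity) e2.le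
  · exact sub (by positivity) e2.le (by positivity) (by linarith [lt hd i.2])

omit e2 in
lemma T_dis : Pairwise fun i j =>
    Disjoint (interior (T m k hs hd i).set) (interior (T m k hs hd j).set) := by
  rintro (⟨i, j⟩ | i | i) (⟨i', j'⟩ | i' | i') e <;> rw [T, T]
  · by_cases c : i = i'
    · exact dis (.inr (sep hs fun c' => e (by rw [c, show j = j' from c'])))
    · exact dis (.inl (sep hs c))
  · exact dis (.inr (.inl (e1 ▸ lt hs j.2)))
  · exact dis (.inl (.inl (e1 ▸ lt hs i.2)))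
  · exact dis (.inr (.inr (e1 ▸ lt hs j'.2)))
  · exact dis (.inl (sep hd fun c => e (by rw [c])))
  · exact dis (.inr (.inr (lt hd i'.2)))
  · exact dis (.inl (.inr (e1 ▸ lt hs i'.2)))
  · exact dis (.inr (.inl (lt hd i.2)))
  · exact dis (.inr (sep hd fun c => e (by rw [c])))

lemma T_cov (hm : 1 ≤ m) (hk : 1 ≤ k) {p : ℝ × ℝ} (hp : p ∈ U) : ∃ i, p ∈ (T m k hs hd i).set := by
  obtain ⟨⟨a1, a2⟩, a3, a4⟩ := hp
  rcases le_total (k * d) p.2 with c | c
  · obtain ⟨i, hi⟩ := cov d p.1 a1 (n := k + 1) (by omega) (by push_cast; linarith)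
    exact ⟨.inr (.inl i), by rw [T, ax_set]; exact ⟨hi, c, e2 ▸ a4⟩⟩
  rcases le_total (k * d) p.1 with c' | c'
  · obtain ⟨i, hi⟩ := cov d p.2 a3 hk c
    exact ⟨.inr (.inr i), by rw [T, ax_set]; exact ⟨⟨c', e2 ▸ a2⟩, hi⟩⟩
  · obtain ⟨i, hi⟩ := cov s p.1 a1 hm (e1 ▸ c')
    obtain ⟨j, hj⟩ := cov s p.2 a3 hm (e1 ▸ c)
    exact ⟨.inl (i, j), by rw [T, ax_set]; exact ⟨hi, hj⟩⟩

end TILx

open TILx in
theorem p_TIL : T_TIL := by
  intro K m r hK hm hr
  obtain ⟨k, rfl⟩ : ∃ k, K = k + 1 := ⟨K - 1, by omega⟩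
  have hk : 1 ≤ k := by omega
  have k0 : (0 : ℝ) < k := by exact_mod_cast hk
  have m0 : (0 : ℝ) < m := by exact_mod_cast hm
  have hd : (0 : ℝ) < 1 / (k + 1) := by positivity
  have hs : (0 : ℝ) < k / ((k + 1) * m) := by positivity
  have e1 : (m : ℝ) * (k / ((k + 1) * m)) = k * (1 / (k + 1)) := by field_simp
  have e2 : (k : ℝ) * (1 / (k + 1)) + 1 / (k + 1) = 1 := by field_simp
  let e : ((Fin m × Fin m) ⊕ (Fin (k + 1) ⊕ Fin k)) ≃ Fin r := Fintype.equivFinOfCardEq (by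
    simp only [Fintype.card_sum, Fintype.card_prod, Fintype.card_fin]
    rw [sq] at hr
    omega)
  refine ⟨fun i => T m k hs hd (e.symm i), ⟨⟨fun i => T_sub hs hd e1 e2 _, fun i j h =>
    T_dis hs hd e1 (e.symm.injective.ne h)⟩, ?_⟩, ?_⟩
  · refine (iUnion_subset fun i => T_sub hs hd e1 e2 _).antisymm fun p hp => ?_
    obtain ⟨i, hi⟩ := T_cov hs hd e1 e2 hm hk hp
    exact mem_iUnion.2 ⟨e i, by rwa [e.symm_apply_apply]⟩
  · rw [Equiv.sum_comp e.symm fun i => (T m k hs hd i).a]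
    simp only [Fintype.sum_sum_type, T, ax, Finset.sum_const, Finset.card_univ, Fintype.card_prod,
      Fintype.card_fin, nsmul_eq_mul]
    push_cast
    field_simp
    ring

end Pool.Agent.P.MP_8eee4e_co.Ex

end

section
/-! The area of an open square. -/


open MeasureTheory Set

namespace Pool.Agent.P.MP_8eee4e_co.Ex

theorem p_AREA : T_AREA := by
  intro X ha
  set L : (ℝ × ℝ) →ₗ[ℝ] (ℝ × ℝ) :=
    Matrix.toLin (Module.Basis.finTwoProd ℝ) (Module.Basis.finTwoProd ℝ)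
      !![X.c, X.s; -X.s, X.c] with hL
  have hdet : LinearMap.det L = 1 := by
    rw [hL, LinearMap.det_toLin, Matrix.det_fin_two_of]
    linarith [X.unit]
  have he : X.op = (fun z : ℝ × ℝ => z + (-X.p, -X.q)) ⁻¹'
      (L ⁻¹' (Ioo (-(X.a / 2)) (X.a / 2) ×ˢ Ioo (-(X.a / 2)) (X.a / 2))) := by
    ext z
    simp only [Sq.op, mem_ofPred_eq, mem_preimage, hL, Matrix.toLin_finTwoProd_apply, mem_prod,
      mem_Ioo, abs_lt, Prod.fst_add, Prod.snd_add]
    constructor <;> rintro ⟨⟨h1, h2⟩, h3, h4⟩ <;> refine ⟨⟨?_, ?_⟩, ?_, ?_⟩ <;> linarith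
  rw [he, measure_preimage_add_right,
    Measure.addHaar_preimage_linearMap _ (by rw [hdet]; exact one_ne_zero), hdet,
    Measure.volume_eq_prod, Measure.prod_prod, Real.volume_Ioo,
    ← ENNReal.ofReal_mul (by linarith)]
  simp only [inv_one, abs_one, ENNReal.ofReal_one, one_mul]
  congr 1
  ring

end Pool.Agent.P.MP_8eee4e_co.Ex

end

section
/-! Step OM. -/


open MeasureTheory Set

namespace Pool.Agent.P.MP_8eee4e_co.Ex

theorem p_OM (hAREA : T_AREA) : T_OM := by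
  intro n X K hK hP ha
  have h1 : ⋃ i, (X i).op ⊆ box K := iUnion_subset fun i => (X i).op_subset_cl.trans (hP.1 i)
  have h2 : volume.real (box K) = K ^ 2 := by
    rw [box, Measure.volume_eq_prod, measureReal_prod_prod, Real.volume_real_Icc_of_le hK,
      sub_zero, sq]
  have h3 : volume.real (⋃ i, (X i).op) = ∑ i, (X i).a ^ 2 := by
    rw [measureReal_iUnion_fintype hP.2 (fun i => (X i).isOpen_op.measurableSet) fun i => by
      rw [hAREA _ (ha i)]; exact ENNReal.ofReal_ne_top]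
    exact Finset.sum_congr rfl fun i _ => by
      rw [measureReal_def, hAREA _ (ha i), ENNReal.toReal_ofReal (sq_nonneg _)]
  rw [← h2, ← h3, ← measureReal_sdiff h1 (.iUnion fun i => (X i).isOpen_op.measurableSet)
    (volume_box_ne_top K)]
  exact measureReal_mono (sdiff_subset_sdiff_right (iUnion_mono fun i => (X i).op_subset_cl))
    (measure_ne_top_of_subset sdiff_subset (volume_box_ne_top K))

end Pool.Agent.P.MP_8eee4e_co.Ex

end

section
open MeasureTheory Set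

namespace Pool.Agent.P.MP_8eee4e_co.Ex

namespace PHIx

lemma slice_le (X : Sq) (y : ℝ) : volume {x : ℝ | (x, y) ∈ X.op} ≤ ENNReal.ofReal X.b := by
  have hc := X.c_pos
  have hb : X.b * X.c = X.a := by unfold Sq.b; field_simp
  have hd : (y - X.q) * X.s / X.c * X.c = (y - X.q) * X.s := by field_simp
  have hs : {x : ℝ | (x, y) ∈ X.op} ⊆ Ioo (X.p - (y - X.q) * X.s / X.c - X.b / 2)
      (X.p - (y - X.q) * X.s / X.c - X.b / 2 + X.b) := fun x hx => by
    obtain ⟨h1, h2⟩ := abs_lt.1 hx.1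
    simp only at h1 h2
    constructor <;> refine lt_of_mul_lt_mul_right ?_ hc.le <;> nlinarith
  refine (measure_mono hs).trans ?_
  rw [Real.volume_Ioo, add_sub_cancel_left]

lemma near (X : Sq) {x y : ℝ} (h : (x, y) ∈ X.op) : |y - X.q| < X.hi := by
  obtain ⟨h1, h2⟩ := h
  simp only at h1 h2
  have hc := X.c_pos
  have e2 : y - X.q = ((y - X.q) * X.c - (x - X.p) * X.s) * X.c +
      ((x - X.p) * X.c + (y - X.q) * X.s) * X.s := by
    linear_combination (-(y - X.q)) * X.unit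
  have k2 : |((y - X.q) * X.c - (x - X.p) * X.s) * X.c| < X.a / 2 * X.c := by
    rw [abs_mul, abs_of_pos hc]; exact mul_lt_mul_of_pos_right h2 hc
  have k3 : |((x - X.p) * X.c + (y - X.q) * X.s) * X.s| ≤ X.a / 2 * |X.s| := by
    rw [abs_mul]; exact mul_le_mul_of_nonneg_right h1.le (abs_nonneg _)
  unfold Sq.hi
  rw [e2]
  refine (abs_add_le _ _).trans_lt ?_
  linarith

end PHIx

open PHIx in
theorem p_PHI (hAREA : T_AREA) : T_PHI := by
  intro X ha ha'
  have hc := X.c_pos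
  have hb : 0 < X.b := div_pos ha hc
  have hm : Measurable fun y : ℝ => volume {x : ℝ | (x, y) ∈ X.op} :=
    measurable_measure_prodMk_right X.isOpen_op.measurableSet
  have hl : ∫⁻ y : ℝ, volume {x : ℝ | (x, y) ∈ X.op} = ENNReal.ofReal (X.a ^ 2) := by
    rw [← hAREA X ha.le, Measure.volume_eq_prod, Measure.prod_apply_symm X.isOpen_op.measurableSet]
    rfl
  refine ⟨hm.ennreal_toReal.div_const _, ?_, fun y => div_nonneg measureReal_nonneg hb.le,
    fun y => ?_, fun y hy => ?_, fun y hy => ?_, ?_⟩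
  · exact (integrable_toReal_of_lintegral_ne_top hm.aemeasurable
      (hl ▸ ENNReal.ofReal_ne_top)).div_const _
  · exact (div_le_one hb).2 (ENNReal.toReal_le_of_le_ofReal hb.le (slice_le X y))
  · obtain ⟨l, -, h⟩ := X.chord ha' hy
    rw [Sq.phi, h, Real.volume_real_Ioo_of_le (by linarith), add_sub_cancel_left, div_self hb.ne']
  · have : {x : ℝ | (x, y) ∈ X.op} = ∅ :=
      eq_empty_of_forall_notMem fun x hx => absurd (near X hx) (not_lt.2 hy)
    rw [Sq.phi, this, measureReal_empty, zero_div]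
  · simp only [Sq.phi, measureReal_def]
    rw [integral_div, integral_toReal hm.aemeasurable (Filter.Eventually.of_forall fun y =>
      (slice_le X y).trans_lt ENNReal.ofReal_lt_top), hl, ENNReal.toReal_ofReal (sq_nonneg _)]
    unfold Sq.b Sq.e
    field_simp

end Pool.Agent.P.MP_8eee4e_co.Ex

end

section
/-! Step FIT. -/


open MeasureTheory Set

namespace Pool.Agent.P.MP_8eee4e_co.Ex

namespace FITx

lemma vert (X : Sq) {α β : ℝ} (h1 : |α| ≤ X.a / 2) (h2 : |β| ≤ X.a / 2) :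
    (X.p + α * X.c - β * X.s, X.q + α * X.s + β * X.c) ∈ X.cl := by
  constructor
  · convert h1 using 2
    linear_combination α * X.unit
  · convert h2 using 2
    linear_combination β * X.unit

end FITx

theorem p_FIT : T_FIT := by
  intro n X K hK hP hN
  have ha : ∀ i, 0 < (X i).a := fun i => by linarith [(hN i).1]
  refine ⟨fun y => ?_, fun i => ?_⟩
  · have hs : ∀ i, {x : ℝ | (x, y) ∈ (X i).op} ⊆ Icc 0 K := fun i x hx =>
      (hP.1 i ((X i).op_subset_cl hx)).1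
    have hK' : volume (Icc 0 K) ≠ ⊤ := measure_Icc_lt_top.ne
    have e : ∀ i, (X i).phi y * (X i).b = volume.real {x : ℝ | (x, y) ∈ (X i).op} := fun i =>
      div_mul_cancel₀ _ (div_pos (ha i) (X i).c_pos).ne'
    simp only [e]
    rw [← measureReal_biUnion_finset (f := fun i => {x : ℝ | (x, y) ∈ (X i).op})
        (fun i _ j _ e => Set.disjoint_left.2 fun x hx => Set.disjoint_left.1 (hP.2 i j e) hx)
        (fun i _ => ((X i).isOpen_op.preimage (Continuous.prodMk_left y)).measurableSet)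
        fun i _ => measure_ne_top_of_subset (hs i) hK']
    refine (measureReal_mono (iUnion₂_subset fun i _ => hs i) hK').trans_eq ?_
    simp [hK]
  · have h1 : |(X i).a / 2| ≤ (X i).a / 2 := (abs_of_pos (half_pos (ha i))).le
    have h2 : |-((X i).a / 2)| ≤ (X i).a / 2 := (abs_neg _).trans_le h1
    have a1 := (hP.1 i (FITx.vert _ h1 h1)).2.2
    have a2 := (hP.1 i (FITx.vert _ h2 h1)).2.2
    have a3 := (hP.1 i (FITx.vert _ h1 h2)).2.1
    have a4 := (hP.1 i (FITx.vert _ h2 h2)).2.1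
    simp only [Sq.hi] at *
    rcases abs_cases (X i).s with h | h <;> rw [h.1] <;> constructor <;> linarith

end Pool.Agent.P.MP_8eee4e_co.Ex

end

section
/-! Step STK. -/


open MeasureTheory Set

namespace Pool.Agent.P.MP_8eee4e_co.Ex

namespace STKx

lemma sum_le {ι : Type} (S : Finset ι) (l b : ι → ℝ) {u v : ℝ} (huv : u ≤ v)
    (hb : ∀ i ∈ S, 0 ≤ b i) (hin : ∀ i ∈ S, u ≤ l i ∧ l i + b i ≤ v)
    (hd : ∀ i ∈ S, ∀ j ∈ S, i ≠ j → Disjoint (Ioo (l i) (l i + b i)) (Ioo (l j) (l j + b j))) :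
    ∑ i ∈ S, b i ≤ v - u := by
  have h1 := measureReal_biUnion_finset (μ := volume) (s := S)
    (f := fun i => Ioo (l i) (l i + b i)) (fun i hi j hj k => hd i hi j hj k)
    (fun _ _ => measurableSet_Ioo) fun _ _ => measure_Ioo_lt_top.ne
  have h2 : (⋃ i ∈ S, Ioo (l i) (l i + b i)) ⊆ Icc u v :=
    iUnion₂_subset fun i hi => Ioo_subset_Icc_self.trans (Icc_subset_Icc (hin i hi).1 (hin i hi).2)
  have h3 := measureReal_mono (μ := volume) h2 measure_Icc_lt_top.ne
  rw [h1, Real.volume_real_Icc_of_le huv] at h3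
  refine le_trans (le_of_eq (Finset.sum_congr rfl fun i hi => ?_)) h3
  rw [Real.volume_real_Ioo_of_le (by linarith [hb i hi]), add_sub_cancel_left]

lemma le_of_disj {l b l' b' : ℝ} (hb' : 0 < b')
    (h : Disjoint (Ioo l (l + b)) (Ioo l' (l' + b'))) (k : l ≤ l') : l + b ≤ l' := by
  rw [Ioo_disjoint_Ioo, max_eq_right k] at h
  rcases min_le_iff.1 h with h | h <;> linarith

end STKx

theorem p_STK : T_STK := by
  intro n X K hP hN x G hG
  have hch : ∀ i, ∃ l : ℝ, i ∈ line (fun i => (X i).lo) (fun i => (X i).q) x →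
      |l + (X i).b / 2 - (X i).p| ≤ (X i).t ∧
        {z : ℝ | (z, x) ∈ (X i).op} = Ioo l (l + (X i).b) := fun i => by
    by_cases hi : i ∈ line (fun i => (X i).lo) (fun i => (X i).q) x
    · obtain ⟨l, hl⟩ := (X i).chord (hN i).2 (mem_line.1 hi)
      exact ⟨l, fun _ => hl⟩
    · exact ⟨0, fun k => (hi k).elim⟩
  choose l hl using hch
  set L := line (fun i => (X i).lo) (fun i => (X i).q) x
  have hb : ∀ i, 0 < (X i).b := fun i => div_pos (by linarith [(hN i).1]) (X i).c_pos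
  have hin : ∀ i ∈ L, 0 ≤ l i ∧ l i + (X i).b ≤ K := fun i hi => by
    have : Ioo (l i) (l i + (X i).b) ⊆ Icc 0 K := by
      rw [← (hl i hi).2]
      exact fun z hz => (hP.1 i ((X i).op_subset_cl hz)).1
    have := isClosed_Icc.closure_subset_iff.2 this
    rw [closure_Ioo (by linarith [hb i])] at this
    exact (Icc_subset_Icc_iff (by linarith [hb i])).1 this
  have hd : ∀ i ∈ L, ∀ j ∈ L, i ≠ j →
      Disjoint (Ioo (l i) (l i + (X i).b)) (Ioo (l j) (l j + (X j).b)) := fun i hi j hj k => by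
    rw [← (hl i hi).2, ← (hl j hj).2, Set.disjoint_left]
    exact fun z h1 h2 => Set.disjoint_left.1 (hP.2 i j k) h1 h2
  have hG' := hin G hG
  refine ⟨L.filter fun i => l i < l G, Finset.filter_subset _ _, by simp, l G, (hl G hG).1,
    ?_, ?_⟩
  · have := STKx.sum_le (L.filter fun i => l i < l G) l (fun i => (X i).b) hG'.1
      (fun i _ => (hb i).le) (fun i hi => by
        obtain ⟨k1, k2⟩ := Finset.mem_filter.1 hi
        exact ⟨(hin i k1).1, STKx.le_of_disj (hb G)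
          (hd i k1 G hG fun e => (e ▸ k2).false) k2.le⟩)
      fun i hi j hj => hd i (Finset.mem_filter.1 hi).1 j (Finset.mem_filter.1 hj).1
    linarith
  · have := STKx.sum_le (L \ L.filter fun i => l i < l G) l (fun i => (X i).b)
      (u := l G) (v := K) (by linarith [hb G]) (fun i _ => (hb i).le) (fun i hi => by
        obtain ⟨k1, k2⟩ := Finset.mem_sdiff.1 hi
        exact ⟨not_lt.1 fun k => k2 (Finset.mem_filter.2 ⟨k1, k⟩), (hin i k1).2⟩)
      fun i hi j hj => hd i (Finset.mem_sdiff.1 hi).1 j (Finset.mem_sdiff.1 hj).1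
    linarith

end Pool.Agent.P.MP_8eee4e_co.Ex

end

section
/-! Step NB: the number of centres in a rectangle. -/


open MeasureTheory Set

namespace Pool.Agent.P.MP_8eee4e_co.Ex

namespace NBx

lemma close {a b u : ℝ} (ha : u ≤ a) (hb : u ≤ b) (h : ⌊3 * (a - u)⌋₊ = ⌊3 * (b - u)⌋₊) :
    |(a + b) / 2 - a| < 1 / 6 ∧ |(a + b) / 2 - b| < 1 / 6 := by
  have h1 := Nat.floor_le (by linarith : 0 ≤ 3 * (a - u))
  have h2 := Nat.floor_le (by linarith : 0 ≤ 3 * (b - u))
  have h3 := Nat.lt_floor_add_one (3 * (a - u))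
  have h4 := Nat.lt_floor_add_one (3 * (b - u))
  rw [h] at h1 h3
  constructor <;> rw [abs_lt] <;> constructor <;> linarith

end NBx

theorem p_NB : T_NB := by
  intro ι X B hP hN u v L L' T hL hL' hT
  have key : T.card ≤ (Finset.range (⌊3 * L⌋₊ + 1) ×ˢ Finset.range (⌊3 * L'⌋₊ + 1)).card := by
    refine Finset.card_le_card_of_injOn
      (fun i => (⌊3 * ((X i).p - u)⌋₊, ⌊3 * ((X i).q - v)⌋₊)) (fun i hi => ?_) ?_
    · obtain ⟨-, h2, -, h4⟩ := hT i hi
      simp only [Finset.coe_product, Finset.coe_range, mem_prod, mem_Iio, Nat.lt_succ_iff]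
      exact ⟨Nat.floor_mono (by linarith), Nat.floor_mono (by linarith)⟩
    · intro i hi j hj e
      by_contra hij
      obtain ⟨a1, -, a3, -⟩ := hT i hi
      obtain ⟨b1, -, b3, -⟩ := hT j hj
      obtain ⟨e1, e2⟩ := Prod.ext_iff.1 e
      obtain ⟨c1, c2⟩ := NBx.close a1 b1 e1
      obtain ⟨c3, c4⟩ := NBx.close a3 b3 e2
      have k1 := (hN i).1
      have k2 := (hN j).1
      exact disjoint_left.1 (hP.2 i j hij)
        ((X i).mem_op_of_l1 (x := ((X i).p + (X j).p) / 2) (y := ((X i).q + (X j).q) / 2)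
          (by linarith)) ((X j).mem_op_of_l1 (by linarith))
  rw [Finset.card_product, Finset.card_range, Finset.card_range] at key
  have h1 := Nat.floor_le (by linarith : 0 ≤ 3 * L)
  have h2 := Nat.floor_le (by linarith : 0 ≤ 3 * L')
  calc (T.card : ℝ) ≤ ((⌊3 * L⌋₊ : ℝ) + 1) * ((⌊3 * L'⌋₊ : ℝ) + 1) := by exact_mod_cast key
    _ ≤ _ := mul_le_mul (by linarith) (by linarith) (by positivity) (by linarith)

end Pool.Agent.P.MP_8eee4e_co.Ex

end

section
/-! Step TR: crossing from one family of squares to the complementary family along a line. -/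


open MeasureTheory Set

namespace Pool.Agent.P.MP_8eee4e_co.Ex

namespace TRx

lemma compact_hit {ι : Type} [Fintype ι] (X : ι → Sq) (𝒜 : Set ι) (v m a b : ℝ) :
    IsCompact (Icc a b ∩ {x : ℝ | ∃ k ∈ 𝒜, (x, v + m * x) ∈ (X k).cl}) := by
  refine isCompact_Icc.inter_right ?_
  have : {x : ℝ | ∃ k ∈ 𝒜, (x, v + m * x) ∈ (X k).cl} =
      ⋃ k ∈ 𝒜, (fun x : ℝ => (x, v + m * x)) ⁻¹' (X k).cl := by
    ext x
    simp
  rw [this]
  exact (toFinite 𝒜).isClosed_biUnion fun k _ => (X k).isClosed_cl.preimage (by fun_prop)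

lemma nhds_op (Y : Sq) {v m a : ℝ} (h : (a, v + m * a) ∈ Y.op) :
    {x : ℝ | (x, v + m * x) ∈ Y.op} ∈ nhds a :=
  (Y.isOpen_op.preimage (f := fun x : ℝ => (x, v + m * x)) (by fun_prop)).mem_nhds h

end TRx

theorem p_TR : T_TR := by
  intro ι _ X B hP hN 𝒜 i j v m x1 x2 hi hj h12 h1 h2 hB
  obtain ⟨α, ⟨⟨a1, a2⟩, k, hk, hkα⟩, hα⟩ := (TRx.compact_hit X 𝒜 v m x1 x2).exists_isGreatest
    ⟨x1, ⟨le_rfl, h12⟩, i, hi, (X i).op_subset_cl h1⟩
  obtain ⟨β, ⟨⟨b1, b2⟩, l, hl, hlβ⟩, hβ⟩ := (TRx.compact_hit X 𝒜ᶜ v m α x2).exists_isLeast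
    ⟨x2, ⟨a2, le_rfl⟩, j, hj, (X j).op_subset_cl h2⟩
  refine ⟨k, hk, l, hl, α, β, a1, b1, b2, ⟨hkα, fun ho => ?_⟩, ⟨hlβ, fun ho => ?_⟩, ?_⟩
  · rcases a2.eq_or_lt with e | e
    · subst e
      exact disjoint_left.1 (hP.cl_op hN (i := k) (j := j) fun e => hj (e ▸ hk)) hkα h2
    · obtain ⟨x, hx1, hx2⟩ := Filter.Eventually.exists
        (Filter.Eventually.and (mem_nhdsWithin_of_mem_nhds (TRx.nhds_op _ ho))
          (Ioo_mem_nhdsGT e) : ∀ᶠ x in nhdsWithin α (Ioi α),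
            (x, v + m * x) ∈ (X k).op ∧ x ∈ Ioo α x2)
      exact absurd (hα ⟨⟨a1.trans hx2.1.le, hx2.2.le⟩, k, hk, (X k).op_subset_cl hx1⟩)
        (not_le.2 hx2.1)
  · rcases b1.eq_or_lt with e | e
    · subst e
      exact disjoint_left.1 (hP.cl_op hN (i := k) (j := l) fun e => hl (e ▸ hk)) hkα ho
    · obtain ⟨x, hx1, hx2⟩ := Filter.Eventually.exists
        (Filter.Eventually.and (mem_nhdsWithin_of_mem_nhds (TRx.nhds_op _ ho))
          (Ioo_mem_nhdsLT e) : ∀ᶠ x in nhdsWithin β (Iio β),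
            (x, v + m * x) ∈ (X l).op ∧ x ∈ Ioo α β)
      exact absurd (hβ ⟨⟨hx2.1.le, hx2.2.le.trans b2⟩, l, hl, (X l).op_subset_cl hx1⟩)
        (not_le.2 hx2.2)
  · intro x hx
    have hx1 : x1 ≤ x := a1.trans hx.1.le
    have hx2 : x ≤ x2 := hx.2.le.trans b2
    refine ⟨hB x ⟨hx1, hx2⟩, fun h => ?_⟩
    obtain ⟨r, hr⟩ := mem_iUnion.1 h
    by_cases hr' : r ∈ 𝒜
    · exact absurd (hα ⟨⟨hx1, hx2⟩, r, hr', hr⟩) (not_le.2 hx.1)
    · exact absurd (hβ ⟨⟨hx.1.le, hx2⟩, r, hr', hr⟩) (not_le.2 hx.2)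

end Pool.Agent.P.MP_8eee4e_co.Ex

end

section
/-! A slanted line that meets a set in a short slice. -/


open MeasureTheory Set

namespace Pool.Agent.P.MP_8eee4e_co.Ex

theorem p_SH : T_SH := by
  intro Ω m v1 v2 hΩ h
  have h1 : MeasurePreserving (fun p : ℝ × ℝ => (p.1, p.2 + m * p.1)) (volume.prod volume)
      (volume.prod volume) :=
    (MeasurePreserving.id volume).skew_product (g := fun x v : ℝ => v + m * x) (by fun_prop)
      (.of_forall fun x => map_add_right_eq_self volume _)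
  have h2 := h1.measurable hΩ
  have h3 := h1.measure_preimage hΩ.nullMeasurableSet
  rw [Measure.prod_apply_symm h2] at h3
  have h4 : ENNReal.ofReal (v2 - v1) ≠ 0 := by simpa using h
  obtain ⟨v, hv, h5⟩ := exists_le_setLAverage (μ := volume) (s := Icc v1 v2)
    (by rwa [Real.volume_Icc]) measure_Icc_lt_top.ne
    (measurable_measure_prodMk_right (μ := volume) h2).aemeasurable
  rw [setLAverage_eq, Real.volume_Icc] at h5
  exact ⟨v, hv, (mul_le_mul_right h5 _).trans (ENNReal.mul_div_le.trans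
    ((setLIntegral_le_lintegral _ _).trans_eq h3))⟩

end Pool.Agent.P.MP_8eee4e_co.Ex

end

section
/-! Two sides that stay close along two lines have close directions. -/


open MeasureTheory Set

namespace Pool.Agent.P.MP_8eee4e_co.Ex

namespace ANGx

lemma two {a b m : ℝ} (h : a ^ 2 + b ^ 2 = 1) (hm : |m| ≤ 1) : |a + m * b| ≤ 2 := by
  have h1 : |a| ≤ 1 := (sq_le_one_iff_abs_le_one a).1 (by nlinarith [sq_nonneg b])
  have h2 : |b| ≤ 1 := (sq_le_one_iff_abs_le_one b).1 (by nlinarith [sq_nonneg a])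
  have h3 : |m * b| ≤ 1 := by rw [abs_mul]; exact mul_le_one₀ hm (abs_nonneg b) h2
  linarith [abs_add_le a (m * b)]

end ANGx

theorem p_ANG : T_ANG := by
  intro n1 n2 k1 k2 m v1 v2 α1 β1 α2 β2 h l hn hk hm h0 hv a1 a2 e1 e2
  set ρ := -n2 * (α2 - α1) + n1 * (v2 - v1 + m * (α2 - α1)) with hρ
  have b1 : v2 - v1 = (n1 + m * n2) * ρ := by
    rw [hρ]
    linear_combination (v1 - v2) * hn + (m * n1 - n2) * e1
  have b2 : (n2 * k1 - n1 * k2) * ρ = (k1 + m * k2) * (α1 - β1 - (α2 - β2)) := by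
    rw [hρ]
    linear_combination (k1 * (α1 - α2) - k2 * (v2 - v1 + m * (α2 - α1))) * hn -
      (k1 * n1 + k2 * n2) * e1 + e2
  have b3 : n1 * n2 - k1 * k2 = (n1 * k1 - n2 * k2) * (n2 * k1 - n1 * k2) := by
    linear_combination k1 * k2 * hn - n1 * n2 * hk
  have b4 : |n1 * k1 - n2 * k2| ≤ 1 := (sq_le_one_iff_abs_le_one _).1 (by
    have : (n1 * k1 - n2 * k2) ^ 2 + (n1 * k2 + n2 * k1) ^ 2 = 1 := by
      linear_combination (k1 ^ 2 + k2 ^ 2) * hn + hk
    linarith [sq_nonneg (n1 * k2 + n2 * k1)])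
  have c1 : h ≤ 2 * |ρ| := by
    rw [b1, abs_mul] at hv
    exact hv.trans (mul_le_mul_of_nonneg_right (ANGx.two hn hm) (abs_nonneg _))
  have c2 : |n2 * k1 - n1 * k2| * |ρ| ≤ 2 * (2 * l) := by
    rw [← abs_mul, b2, abs_mul]
    exact mul_le_mul (ANGx.two hk hm) ((abs_sub _ _).trans (by linarith)) (abs_nonneg _) zero_le_two
  have c3 : abs (|n1 * n2| - |k1 * k2|) ≤ |n2 * k1 - n1 * k2| := by
    refine (abs_abs_sub_abs_le_abs_sub _ _).trans ?_
    rw [b3, abs_mul]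
    exact mul_le_of_le_one_left (abs_nonneg _) b4
  linarith [mul_le_mul c3 c1 h0 (abs_nonneg _)]

end Pool.Agent.P.MP_8eee4e_co.Ex

end

section
/-! Step GAP. -/


namespace Pool.Agent.P.MP_8eee4e_co.Ex

theorem p_GAP : T_GAP := by
  intro ι ψ T N u v huv hT
  have hN : (0 : ℝ) < N := by exact_mod_cast hT.trans_le' (Nat.zero_le _)
  obtain ⟨d, hd⟩ : ∃ d, d = (v - u) / N := ⟨_, rfl⟩
  have h0 : 0 < d := hd ▸ div_pos (sub_pos.2 huv) hN
  have h1 : N * d = v - u := by rw [hd]; field_simp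
  rw [← hd]
  by_contra! H
  have H' : ∀ r : Fin N, ∃ k ∈ T, u + r * d < ψ k ∧ ψ k < u + r * d + d := fun r => by
    have : ((r : ℕ) : ℝ) + 1 ≤ N := by exact_mod_cast r.2
    exact H _ (le_add_of_nonneg_right (by positivity)) (by nlinarith)
  choose k hk h2 h3 using H'
  have hi : ∀ r s, k r = k s → ¬ r < s := fun r s e h => by
    have : ((r : ℕ) : ℝ) + 1 ≤ (s : ℕ) := by exact_mod_cast h
    have := h3 r
    rw [e] at this
    nlinarith [h2 s]
  have := Finset.card_le_card_of_injOn k (s := Finset.univ) (fun r _ => hk r) fun r _ s _ e =>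
    le_antisymm (not_lt.1 (hi s r e.symm)) (not_lt.1 (hi r s e))
  simp only [Finset.card_univ, Fintype.card_fin] at this
  omega

end Pool.Agent.P.MP_8eee4e_co.Ex

end
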