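import Mathlib
import Pool.Agent.P.MP_8eee4e_co.Ex.Data

/-! Statements of the steps of the proof. -/

set_option autoImplicit false

open MeasureTheory Set

namespace Pool.Agent.P.MP_8eee4e_co.Ex

/-! ## Geometry -/

def T_RED : Prop := ∀ (r : ℕ) (S : Fin r → Square) (K : ℝ), 0 < K → IsConfig S →
  ∃ X : Fin r → Sq, Pack X (box K) ∧ ∀ i, (X i).a = K * (S i).a

def T_TIL : Prop := ∀ K m r : ℕ, 2 ≤ K → 1 ≤ m → r + 1 = m ^ 2 + 2 * K →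
  ∃ S : Fin r → Square, Tiles S ∧ (K : ℝ) * ∑ i, (S i).a = m * (K - 1) + 2 * K - 1

def T_AREA : Prop := ∀ X : Sq, 0 ≤ X.a → volume X.op = ENNReal.ofReal (X.a ^ 2)

def T_OM : Prop := ∀ (n : ℕ) (X : Fin n → Sq) (K : ℝ), 0 ≤ K → Pack X (box K) →
  (∀ i, 0 ≤ (X i).a) → volume.real (Om X (box K)) ≤ K ^ 2 - ∑ i, (X i).a ^ 2

def T_PHI : Prop := ∀ X : Sq, 0 < X.a → X.a ≤ 11 / 10 →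
  Measurable X.phi ∧ Integrable X.phi ∧ (∀ y, 0 ≤ X.phi y) ∧ (∀ y, X.phi y ≤ 1) ∧
  (∀ y, |y - X.q| < X.lo → X.phi y = 1) ∧ (∀ y, X.hi ≤ |y - X.q| → X.phi y = 0) ∧
  ∫ y, X.phi y = X.e

def T_FIT : Prop := ∀ (n : ℕ) (X : Fin n → Sq) (K : ℝ), 0 ≤ K → Pack X (box K) → Near X →
  (∀ y, ∑ i, (X i).phi y * (X i).b ≤ K) ∧
  ∀ i, (X i).hi ≤ (X i).q ∧ (X i).q + (X i).hi ≤ K

def T_STK : Prop := ∀ (n : ℕ) (X : Fin n → Sq) (K : ℝ), Pack X (box K) → Near X →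
  Stack K (fun i => (X i).b) (fun i => (X i).t) (fun i => (X i).lo) (fun i => (X i).q)
    (fun i => (X i).p)

def T_NB : Prop := ∀ (ι : Type) (X : ι → Sq) (B : Set (ℝ × ℝ)), Pack X B → Near X →
  ∀ (u v L L' : ℝ) (T : Finset ι), 0 ≤ L → 0 ≤ L' →
  (∀ i ∈ T, u ≤ (X i).p ∧ (X i).p ≤ u + L ∧ v ≤ (X i).q ∧ (X i).q ≤ v + L') →
  (T.card : ℝ) ≤ (3 * L + 1) * (3 * L' + 1)

def T_TR : Prop := ∀ (ι : Type) [Fintype ι] (X : ι → Sq) (B : Set (ℝ × ℝ)), Pack X B → Near X →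
  ∀ (𝒜 : Set ι) (i j : ι) (v m x1 x2 : ℝ), i ∈ 𝒜 → j ∉ 𝒜 → x1 ≤ x2 →
  (x1, v + m * x1) ∈ (X i).op → (x2, v + m * x2) ∈ (X j).op →
  (∀ x ∈ Icc x1 x2, (x, v + m * x) ∈ B) →
  ∃ k ∈ 𝒜, ∃ l, l ∉ 𝒜 ∧ ∃ α β : ℝ, x1 ≤ α ∧ α ≤ β ∧ β ≤ x2 ∧
    (α, v + m * α) ∈ (X k).cl \ (X k).op ∧ (β, v + m * β) ∈ (X l).cl \ (X l).op ∧
    ∀ x ∈ Ioo α β, (x, v + m * x) ∈ Om X B

def T_SH : Prop := ∀ (Ω : Set (ℝ × ℝ)) (m v1 v2 : ℝ), MeasurableSet Ω → v1 < v2 →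
  ∃ v ∈ Icc v1 v2, ENNReal.ofReal (v2 - v1) * volume {x : ℝ | (x, v + m * x) ∈ Ω} ≤ volume Ω

def T_ANG : Prop := ∀ (n1 n2 k1 k2 m v1 v2 α1 β1 α2 β2 h l : ℝ),
  n1 ^ 2 + n2 ^ 2 = 1 → k1 ^ 2 + k2 ^ 2 = 1 → |m| ≤ 1 → 0 ≤ h → h ≤ |v2 - v1| →
  |α1 - β1| ≤ l → |α2 - β2| ≤ l →
  n1 * α1 + n2 * (v1 + m * α1) = n1 * α2 + n2 * (v2 + m * α2) →
  k1 * β1 + k2 * (v1 + m * β1) = k1 * β2 + k2 * (v2 + m * β2) →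
  abs (|n1 * n2| - |k1 * k2|) * h ≤ 8 * l

def T_GAP : Prop := ∀ (ι : Type) (ψ : ι → ℝ) (T : Finset ι) (N : ℕ) (u v : ℝ), u < v →
  T.card < N → ∃ θ : ℝ, u ≤ θ ∧ θ + (v - u) / N ≤ v ∧
    ∀ k ∈ T, ψ k ≤ θ ∨ θ + (v - u) / N ≤ ψ k

def T_LL0 : Prop := ∃ C : ℝ, 0 ≤ C ∧ ∀ (ι : Type) [Fintype ι] (X : ι → Sq) (B : Set (ℝ × ℝ)),
  Convex ℝ B → MeasurableSet B → Pack X B → Near X → ∀ (i j : ι) (𝒜 : Set ι) (δ : ℝ),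
  (X i).p < (X j).p → (X j).p ≤ (X i).p + 3 → |(X j).q - (X i).q| ≤ (X j).p - (X i).p →
  i ∈ 𝒜 → j ∉ 𝒜 →
  (∀ k ∈ 𝒜, ∀ l, l ∉ 𝒜 → ((X k).p, (X k).q) ∈ win (X i).p (X i).q 5 →
    ((X l).p, (X l).q) ∈ win (X i).p (X i).q 5 → δ ≤ |(X k).psi - (X l).psi|) →
  δ ≤ C * volume.real (Om X B ∩ win (X i).p (X i).q 4 ∩ win (X j).p (X j).q 4)

def T_LL1 : Prop := ∃ C : ℝ, 0 ≤ C ∧ ∀ (ι : Type) [Fintype ι] (X : ι → Sq) (B : Set (ℝ × ℝ)),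
  Convex ℝ B → MeasurableSet B → Pack X B → Near X → ∀ i j : ι,
  (X j).p ≤ (X i).p + 3 → |(X j).q - (X i).q| ≤ (X j).p - (X i).p →
  |(X i).psi - (X j).psi| ≤
    C * volume.real (Om X B ∩ win (X i).p (X i).q 4 ∩ win (X j).p (X j).q 4)

def T_LL : Prop := ∃ C : ℝ, 0 ≤ C ∧ ∀ (ι : Type) [Fintype ι] (X : ι → Sq) (B : Set (ℝ × ℝ)),
  Convex ℝ B → MeasurableSet B → Pack X B → Near X → ∀ i j : ι,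
  |(X j).p - (X i).p| ≤ 3 → |(X j).q - (X i).q| ≤ 3 →
  |(X i).psi - (X j).psi| ≤ C * volume.real (Om X B ∩ win (X i).p (X i).q 4)

def T_EXT : Prop := ∀ (n K : ℕ) (X : Fin n → Sq), 1 ≤ K → Pack X (box K) → Near X →
  ∃ Y : Fin K → Sq, Pack (Sum.elim X Y) (Icc (0 : ℝ) K ×ˢ Icc (-1 : ℝ) K) ∧
    Near (Sum.elim X Y) ∧
    Om (Sum.elim X Y) (Icc (0 : ℝ) K ×ˢ Icc (-1 : ℝ) K) ⊆ Om X (box K) ∧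
    ∀ x ∈ Icc (0 : ℝ) K, ∃ k, (Y k).psi = 0 ∧ |(Y k).p - x| ≤ 1 ∧ (Y k).q = -1 / 2

def T_CH : Prop := ∃ C : ℝ, 0 ≤ C ∧ ∀ (ι : Type) [Fintype ι] (X : ι → Sq) (K : ℝ), 1 ≤ K →
  Pack X (Icc (0 : ℝ) K ×ˢ Icc (-1 : ℝ) K) → Near X →
  (∀ x ∈ Icc (0 : ℝ) K, ∃ k, (X k).psi = 0 ∧ |(X k).p - x| ≤ 1 ∧ (X k).q = -1 / 2) →
  ∀ i, (X i).psi ≤ C * volume.real
    (Om X (Icc (0 : ℝ) K ×ˢ Icc (-1 : ℝ) K) ∩ {z | |z.1 - (X i).p| ≤ 5})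

def T_TILT : Prop := ∃ C : ℝ, 1 ≤ C ∧ ∀ (n K : ℕ) (X : Fin n → Sq), 1 ≤ K → Pack X (box K) →
  Near X → ∀ (u L : ℝ) (T : Finset (Fin n)), 0 ≤ L → (∀ i ∈ T, u ≤ (X i).q ∧ (X i).q ≤ u + L) →
  ∑ i ∈ T, (X i).t ≤ C * volume.real (Om X (box K)) * (L + 1)

def T_DAT : Prop := ∃ C : ℝ, 1 ≤ C ∧ ∀ (n K : ℕ) (X : Fin n → Sq), 1 ≤ K → Pack X (box K) →
  Near X → ∃ D : Dat n K (C * ((K : ℝ) ^ 2 - ∑ i, (X i).a ^ 2)), D.a = fun i => (X i).a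

/-! ## One-dimensional measure estimates -/

def T_IMP : Prop := ∀ (n K : ℕ) (τ : ℝ) (D : Dat n K τ),
  (∀ T : Finset (Fin n),
    volume {y | ∃ i ∈ T, D.lo i ≤ |y - D.q i| ∧ |y - D.q i| < D.hi i} ≠ ⊤ ∧
    volume.real {y | ∃ i ∈ T, D.lo i ≤ |y - D.q i| ∧ |y - D.q i| < D.hi i} ≤
      4 * ∑ i ∈ T, D.t i) ∧
  ∀ u L : ℝ, 0 ≤ L → volume.real (D.Imp ∩ Icc u (u + L)) ≤ 4 * τ * (L + 3)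

def T_MK : Prop := ∀ (n K : ℕ) (τ : ℝ) (D : Dat n K τ),
  IntegrableOn D.w (Icc 0 K) ∧ ∫ y in Icc (0 : ℝ) K, D.w y = D.W ∧
  IntegrableOn D.M (Icc 0 K) ∧ ∫ y in Icc (0 : ℝ) K, D.M y = ∑ i, D.e i ∧
  (∀ (Z : Set ℝ) (m : ℝ), MeasurableSet Z → Z ⊆ Icc 0 (K : ℝ) → 0 < m → m ≤ volume.real Z →
    ∃ y ∈ Z, m * D.w y ≤ D.W) ∧
  volume.real D.Big ≤ 2 * D.W

def T_INT : Prop := ∀ (n K : ℕ) (τ : ℝ) (D : Dat n K τ) (α β c κ : ℝ) (Z : Set ℝ)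
  (g : Fin n → ℝ), MeasurableSet Z → Z ⊆ D.Good → (∀ i, 0 ≤ g i) →
  (∀ y ∈ Z, α * (κ - (D.row y).card) ≤ β * D.w y + c) →
  (∀ y ∈ D.Good, y ∉ Z → α * (κ - (D.row y).card) ≤ β * D.w y) →
  (∀ y ∈ D.Imp, α * (κ - D.M y) ≤ β * D.w y + ∑ i, D.f i y * g i) →
  α * (κ * K - ∑ i, D.e i) ≤ β * D.W + c * volume.real Z + 20 * τ * ∑ i, g i

/-! ## Structure -/

def T_B0 : Prop := ∀ (n K : ℕ) (τ : ℝ) (D : Dat n K τ) (σ C γ : ℝ), Hyp D σ C γ →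
  ∑ i, |D.b i - lam K σ| ≤ γ * K ∧ ∀ y, ∑ i ∈ D.row y, |D.b i - lam K σ| ≤ 8 / 5

def T_B : Prop := ∀ (n K : ℕ) (τ : ℝ) (D : Dat n K τ) (σ C γ : ℝ), Hyp D σ C γ →
  ∃ y0 ∈ D.Good, (D.row y0).card = K ∧ D.w y0 ≤ 10 * D.W

def T_C : Prop := ∀ (n K : ℕ) (τ : ℝ) (D : Dat n K τ) (σ C γ : ℝ), Hyp D σ C γ →
  ∀ x0 y0 : ℝ, y0 ∈ D.Good → (D.row y0).card = K → D.w y0 ≤ 10 * D.W →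
  x0 ∈ D.swap.Good → (D.swap.row x0).card = K → D.swap.w x0 ≤ 10 * D.swap.W →
  ∃ d : Fin n → ℝ, Str D σ γ x0 y0 d

def T_A1 : Prop := ∀ (n K : ℕ) (τ : ℝ) (D : Dat n K τ) (σ C γ x0 y0 : ℝ) (d : Fin n → ℝ),
  Hyp D σ C γ → Str D σ γ x0 y0 d →
  (∀ y, ((D.row y).card : ℝ) ≤ K + (1 + σ) / 2) ∧
  ∀ y ∈ D.Good, D.w y < 1 / 2 → (K : ℝ) - (1 - σ) / 2 ≤ (D.row y).card

def T_A2 : Prop := ∀ (n K : ℕ) (τ : ℝ) (D : Dat n K τ) (σ C γ x0 y0 : ℝ) (d : Fin n → ℝ),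
  Hyp D σ C γ → Str D σ γ x0 y0 d →
  (∀ y ∈ D.Good, (D.row y).card = K → D.w y < 1 / 2 → |y - y0| < 11 / 10) ∧
  (σ = -1 → ∀ y ∈ D.A σ, ∀ y' ∈ D.A σ, |y - y'| < 11 / 10)

def T_A3 : Prop := ∀ (n K : ℕ) (τ : ℝ) (D : Dat n K τ) (σ C γ x0 y0 : ℝ) (d : Fin n → ℝ),
  Hyp D σ C γ → Str D σ γ x0 y0 d →
  ∀ (G : Fin n) (y : ℝ), 3 < |D.p G - x0| → D.lo G ≤ |y - D.q G| → |y - D.q G| < D.hi G →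
  ∃ i : ℕ, i ≤ K + 1 ∧ |y - i * lam K σ| ≤ 5 * γ

def T_A4 : Prop := ∀ (n K : ℕ) (τ : ℝ) (D : Dat n K τ) (σ C γ x0 y0 : ℝ) (d : Fin n → ℝ),
  Hyp D σ C γ → Str D σ γ x0 y0 d → volume.real (D.ImpZ γ) ≤ K * D.W / 50

def T_A5 : Prop := ∀ (n K : ℕ) (τ : ℝ) (D : Dat n K τ) (σ C γ x0 y0 : ℝ) (d : Fin n → ℝ),
  Hyp D σ C γ → Str D σ γ x0 y0 d →
  σ * (volume.real (D.A σ) - 1) ≤ -D.ex σ + K * D.W / 100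

def T_CNT : Prop := ∀ (n K : ℕ) (τ : ℝ) (D : Dat n K τ) (σ C γ : ℝ), Hyp D σ C γ →
  Sys D σ → Sys D.swap σ → False

/-! ## Interval duality -/

def T_COV : Prop := ∀ (ι : Type) (l r : ι → ℝ) (s : Finset ι) (P : Set ℝ),
  (∀ y ∈ P, ∃ i ∈ s, l i < y ∧ y < r i) →
  ∃ (T : Finset ι) (Z : Finset ℝ), T ⊆ s ∧ (∀ y ∈ Z, y ∈ P) ∧ T.card ≤ Z.card ∧
    (∀ y ∈ P, ∃ i ∈ T, l i < y ∧ y < r i) ∧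
    ∀ i ∈ s, ∀ y ∈ Z, ∀ y' ∈ Z, l i < y → y < r i → l i < y' → y' < r i → y = y'

def T_PRC : Prop := ∀ (ι : Type) (l r : ι → ℝ) (s : Finset ι) (P : Set ℝ),
  (∀ i ∈ s, ∃ y ∈ P, l i < y ∧ y < r i) →
  ∃ (T : Finset ι) (Z : Finset ℝ), T ⊆ s ∧ (∀ y ∈ Z, y ∈ P) ∧ Z.card ≤ T.card ∧
    (∀ i ∈ s, ∃ y ∈ Z, l i < y ∧ y < r i) ∧
    ∀ i ∈ T, ∀ j ∈ T, ∀ y ∈ P, l i < y → y < r i → l j < y → y < r j → i = j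

/-! ## The case `σ = 1` -/

def T_FM1 : Prop := ∀ (n K : ℕ) (τ : ℝ) (D : Dat n K τ), ¬ Sys D 1 →
  ∃ T : Finset (Fin n), T.card + 1 ≤ K ∧ ∀ y ∈ D.Pk (K + 1), ∃ i ∈ T, i ∈ D.row y

def T_FM3 : Prop := ∀ (n K : ℕ) (τ : ℝ) (D : Dat n K τ) (C γ x0 y0 : ℝ) (d : Fin n → ℝ),
  Hyp D 1 C γ → Str D 1 γ x0 y0 d →
  ∀ T : Finset (Fin n), T.card + 1 ≤ K → (∀ y ∈ D.Pk (K + 1), ∃ i ∈ T, i ∈ D.row y) →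
  ∀ y ∈ Icc (0 : ℝ) K, (∀ i ∈ T, i ∉ D.row y) → 2 ≤ |y - y0| → ∃ j : ℤ, |y - j| ≤ 8 * γ

def T_FM : Prop := ∀ (n K : ℕ) (τ : ℝ) (D : Dat n K τ) (C γ x0 y0 : ℝ) (d : Fin n → ℝ),
  Hyp D 1 C γ → Str D 1 γ x0 y0 d → ¬ Sys D 1 → D.Goal 1

/-! ## The case `σ = -1` -/

def T_NP : Prop := ∀ (n K : ℕ) (τ : ℝ) (D : Dat n K τ) (C γ x0 y0 : ℝ) (d : Fin n → ℝ),
  Hyp D (-1) C γ → Str D (-1) γ x0 y0 d →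
  (∀ y ∈ Icc (0 : ℝ) K, y ∉ D.Pk (K - 1) → y ∈ D.Imp ∨ y ∈ D.Big) ∧
  volume.real (Icc (0 : ℝ) K \ D.Pk (K - 1)) ≤ γ / 500 ∧
  (∀ u v : ℝ, 0 ≤ u → v ≤ K → u + γ / 500 < v → ∃ y ∈ D.Pk (K - 1), u < y ∧ y < v) ∧
  (D.Pk (K - 1)).Infinite ∧
  ∀ T : Finset (Fin n), D.PD (K - 1) T →
    D.Sep T (γ / 500) ∧ D.Two T ⊆ Icc (0 : ℝ) K \ D.Pk (K - 1)

def T_IND : Prop := ∀ (n K : ℕ) (τ : ℝ) (D : Dat n K τ) (C γ x0 y0 : ℝ) (d : Fin n → ℝ),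
  Hyp D (-1) C γ → Str D (-1) γ x0 y0 d →
  ∀ (T : Finset (Fin n)) (E : Set ℝ), D.PD (K - 1) T → MeasurableSet E → volume E ≠ ⊤ →
  (∀ i ∈ T, ∀ y, |y - D.q i| < D.hi i → y ∈ E) →
  ∑ i ∈ T, D.a i ≤ volume.real E + volume.real (D.Two T) ∧
  (T.card : ℝ) ≤ volume.real E + 2 * γ

def T_FP1 : Prop := ∀ (n K : ℕ) (τ : ℝ) (D : Dat n K τ) (C γ x0 y0 : ℝ) (d : Fin n → ℝ),
  Hyp D (-1) C γ → Str D (-1) γ x0 y0 d → ¬ Sys D (-1) →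
  ∃ Lo Up : ℝ → Finset (Fin n),
    (∀ y, D.PD (K - 1) (Lo y) ∧ ∀ i ∈ Lo y, D.q i + D.hi i ≤ y) ∧
    (∀ y, D.PD (K - 1) (Up y) ∧ ∀ i ∈ Up y, y ≤ D.q i - D.hi i) ∧
    ∀ y1 ∈ D.A (-1), ∀ y2 ∈ D.A (-1), y1 < y2 → y2 - y1 < 9 / 10 →
      K ≤ (Lo y1).card + (Up y2).card + 1

def T_FP2 : Prop := ∀ (n K : ℕ) (τ : ℝ) (D : Dat n K τ) (C γ x0 y0 : ℝ) (d : Fin n → ℝ),
  Hyp D (-1) C γ → Str D (-1) γ x0 y0 d →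
  ∀ (T : Finset (Fin n)) (yl yh : ℝ), 0 ≤ yl → yh ≤ K → 1 - γ ≤ yh - yl →
  D.PD (K - 1) T → T.card + 1 = K → (∀ i ∈ T, D.q i + D.hi i ≤ yl ∨ yh ≤ D.q i - D.hi i) →
  ∀ y ∈ D.Two T, ∃ j : ℤ, |y - j| ≤ 8 * γ

def T_FP3 : Prop := ∀ (n K : ℕ) (τ : ℝ) (D : Dat n K τ) (C γ x0 y0 : ℝ) (d : Fin n → ℝ),
  Hyp D (-1) C γ → Str D (-1) γ x0 y0 d →
  ∃ yl ∈ D.A (-1), ∃ m ∈ D.A (-1), ∃ yh ∈ D.A (-1), ∃ j : ℕ,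
    yl < m ∧ m < yh ∧ m - yl < 9 / 10 ∧ yh - m < 9 / 10 ∧ 1 - K * D.W / 100 ≤ yh - yl ∧
    j + 2 * γ < m ∧ m < j + 1 - 2 * γ

def T_FP : Prop := ∀ (n K : ℕ) (τ : ℝ) (D : Dat n K τ) (C γ x0 y0 : ℝ) (d : Fin n → ℝ),
  Hyp D (-1) C γ → Str D (-1) γ x0 y0 d → ¬ Sys D (-1) → D.Goal (-1)

end Pool.Agent.P.MP_8eee4e_co.Ex
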